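import Mathlib

/-
Definitions and statement splitting for the classification of the groups that occur as unit groups
or maximal subgroups of monoids with context-free word problem.
-/

namespace Pool.Agent.Lib.MP_435286_al

/-- The word problem `{u # v^rev : u = v in M}`; the marker is the letter `none`. -/
def WP {M A : Type} [Monoid M] (gen : A → M) : Language (Option A) :=
  {w | ∃ u v : List A, w = u.map some ++ none :: v.reverse.map some ∧
    (u.map gen).prod = (v.map gen).prod}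

/-- `M` is finitely generated as a monoid and has context-free word problem for some finite
generating family. -/
def HasCFWP (M : Type) [Monoid M] : Prop :=
  ∃ (A : Type) (_ : Finite A) (gen : A → M),
    Submonoid.closure (Set.range gen) = ⊤ ∧ (WP gen).IsContextFree

/-- `φ` maps the group `G` isomorphically onto the maximal subgroup of `M` with identity `φ 1`. -/
def IsMaxSub {G M : Type} [Group G] [Monoid M] (φ : G →ₙ* M) : Prop :=
  Function.Injective φ ∧
    ∀ x y : M, φ 1 * x = x → x * φ 1 = x → x * y = φ 1 → y * x = φ 1 → x ∈ Set.range φ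

/-- `G` is countable and has a subgroup `G0` with context-free word problem and an invariant tree
on the cosets `G ⧸ G0` whose edge stabilisers at the base vertex are conjugate, by elements of
`G0`, into one finite set. -/
def TreeCond (G : Type) [Group G] : Prop :=
  Countable G ∧ ∃ (G0 : Subgroup G) (T : SimpleGraph (G ⧸ G0)) (B : Set G),
    HasCFWP G0 ∧ T.IsTree ∧ (∀ (g : G) (x y : G ⧸ G0), T.Adj x y → T.Adj (g • x) (g • y)) ∧
    B.Finite ∧ ∀ s : G, T.Adj ((1 : G) : G ⧸ G0) (s : G ⧸ G0) →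
      ∃ p ∈ G0, ∀ h ∈ G0, s⁻¹ * h * s ∈ G0 → p⁻¹ * h * p ∈ B

/-- A proper symmetric norm on a group with coarse centres for chains (property Q*). -/
structure TM (G : Type) [Group G] where
  n : G → ℕ
  δ : ℕ
  n_one : n 1 = 0
  n_inv : ∀ g, n g⁻¹ = n g
  n_mul : ∀ g h, n (g * h) ≤ n g + n h
  proper : ∀ r : ℕ, {g | n g ≤ r}.Finite
  qstar : ∀ (o : G) (k : ℕ) (h : ℕ → G), ∃ v : G, ∃ i ≤ k,
    n (o⁻¹ * v) + n (v⁻¹ * h 0) ≤ n (o⁻¹ * h 0) + δ ∧
    n ((h i)⁻¹ * v) + n (v⁻¹ * h (i + 1)) ≤ n ((h i)⁻¹ * h (i + 1)) + δ ∧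
    n ((h (k + 1))⁻¹ * v) + n (v⁻¹ * o) ≤ n ((h (k + 1))⁻¹ * o) + δ

/-- Sections 0 to 2: a maximal subgroup of a context-free monoid carries such a norm. -/
def St_TM : Prop :=
  ∀ (G M : Type) [Group G] [Monoid M] (φ : G →ₙ* M), HasCFWP M → IsMaxSub φ → Nonempty (TM G)

/-- Top-down triangulation of chains with short steps. -/
def St_Tri : Prop :=
  ∀ (G : Type) [Group G] (μ : TM G) (K : ℕ) (h : ℕ → G) (i k : ℕ), i + 2 ≤ k →
    (∀ j, i ≤ j → j < k → μ.n ((h j)⁻¹ * h (j + 1)) ≤ K) →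
    μ.n ((h i)⁻¹ * h k) ≤ 3 * K + 3 * μ.δ →
    ∃ j, i < j ∧ j < k ∧ μ.n ((h i)⁻¹ * h j) ≤ 3 * K + 3 * μ.δ ∧
      μ.n ((h j)⁻¹ * h k) ≤ 3 * K + 3 * μ.δ

/-- The subgroup generated by a ball has context-free word problem. -/
def St_BallCF : Prop :=
  ∀ (G : Type) [Group G] (μ : TM G) (K : ℕ), HasCFWP (Subgroup.closure {g : G | μ.n g ≤ K})

/-- Section 3: the tree on the cosets of the subgroup generated by a ball. -/
def St_Tree : Prop :=
  ∀ (G : Type) [Group G] (μ : TM G), ∃ (K : ℕ)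
    (T : SimpleGraph (G ⧸ Subgroup.closure {g : G | μ.n g ≤ K})) (B : Set G),
    T.IsTree ∧ (∀ (g : G) x y, T.Adj x y → T.Adj (g • x) (g • y)) ∧ B.Finite ∧
    ∀ s : G, s ∉ Subgroup.closure {g : G | μ.n g ≤ K} →
      ∃ p ∈ Subgroup.closure {g : G | μ.n g ≤ K}, ∀ h ∈ Subgroup.closure {g : G | μ.n g ≤ K},
        s⁻¹ * h * s ∈ Subgroup.closure {g : G | μ.n g ≤ K} → p⁻¹ * h * p ∈ B

/-- Corollary (a): finite subgroups. -/
def St_Fin : Prop :=
  ∀ (G : Type) [Group G] (_ : TM G), ∃ B : Set G, B.Finite ∧ ∀ F : Subgroup G, Finite F →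
    ∃ (F0 : Subgroup G) (x : G), F0 ≤ F ∧ F0.relIndex F ≤ 2 ∧ ∀ f ∈ F0, x⁻¹ * f * x ∈ B

/-- Corollary (b): roots of elements of infinite order. -/
def St_Root : Prop :=
  ∀ (G : Type) [Group G] (_ : TM G) (g : G), ¬ IsOfFinOrder g →
    {m : ℕ | ∃ h : G, h ^ m = g}.Finite

/-- Corollary (c): free subgroups. -/
def St_Free : Prop :=
  ∀ (G : Type) [Group G], TreeCond G → ¬ Group.FG G →
    ∃ f : FreeGroup Bool →* G, Function.Injective f

/-- Section 5: realisation. -/
def St_Real : Prop :=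
  ∀ (G : Type) [Group G], TreeCond G →
    ∃ (M : Type) (_ : Monoid M), HasCFWP M ∧ Nonempty (Mˣ ≃* G)

end Pool.Agent.Lib.MP_435286_al
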