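import Pool.Agent.Lib.MP_435286_al.Gen

/-
Chain inequality, triangulation, shapes of item lists, and the grammar for the subgroup generated
by a ball.
-/

namespace Pool.Agent.Lib.MP_435286_al

section metric
variable {G : Type} [Group G] (μ : TM G)

theorem TM.triT (x y z : G) : μ.n (x⁻¹ * z) ≤ μ.n (x⁻¹ * y) + μ.n (y⁻¹ * z) := by
  have := μ.n_mul (x⁻¹ * y) (y⁻¹ * z)
  rwa [show x⁻¹ * y * (y⁻¹ * z) = x⁻¹ * z by group] at this

theorem TM.symT (x y : G) : μ.n (x⁻¹ * y) = μ.n (y⁻¹ * x) := by
  rw [← μ.n_inv]; congr 1; group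

theorem TM.chainT (o : G) (k : ℕ) (h : ℕ → G) : ∃ i ≤ k,
    μ.n (o⁻¹ * h i) + μ.n (o⁻¹ * h (i + 1)) + μ.n ((h 0)⁻¹ * h (k + 1)) ≤
      μ.n (o⁻¹ * h 0) + μ.n (o⁻¹ * h (k + 1)) + μ.n ((h i)⁻¹ * h (i + 1)) + 3 * μ.δ := by
  obtain ⟨v, i, hi, a1, a2, a3⟩ := μ.qstar o k h
  refine ⟨i, hi, ?_⟩
  have t1 := μ.triT o v (h i)
  have t2 := μ.triT o v (h (i + 1))
  have t3 := μ.triT (h 0) v (h (k + 1))
  have s1 := μ.symT v (h i)
  have s2 := μ.symT (h 0) v
  have s3 := μ.symT v (h (k + 1))
  have s4 := μ.symT v o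
  have s5 := μ.symT (h (k + 1)) o
  omega

end metric

theorem st_Tri : St_Tri := by
  classical
  intro G _ μ K h i k hik hs hm
  have hex : ∃ j, i ≤ j ∧ j < k ∧ μ.n ((h i)⁻¹ * h j) ≤ 2 * K + 3 * μ.δ ∧
      ∀ j', j < j' → j' < k → 2 * K + 3 * μ.δ < μ.n ((h i)⁻¹ * h j') := by
    let P : ℕ → Prop := fun j => μ.n ((h i)⁻¹ * h j) ≤ 2 * K + 3 * μ.δ
    have hi : P i := by simp [P, μ.n_one]
    refine ⟨Nat.findGreatest P (k - 1), Nat.le_findGreatest (by omega) hi, ?_,
      Nat.findGreatest_spec (m := i) (by omega) hi, ?_⟩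
    · have := Nat.findGreatest_le (P := P) (k - 1); omega
    · intro j' h1 h2
      have := Nat.findGreatest_is_greatest h1 (by omega)
      simpa [P] using this
  obtain ⟨j, hj1, hj2, hj3, hj4⟩ := hex
  by_cases hk : j + 1 = k
  · refine ⟨j, by omega, hj2, by omega, ?_⟩
    have := hs j hj1 hj2
    rw [hk] at this
    omega
  · have t1 := μ.triT (h i) (h j) (h (j + 1))
    have t2 := hs j hj1 hj2
    refine ⟨j + 1, by omega, by omega, by omega, ?_⟩
    obtain ⟨l, hl, hc⟩ := μ.chainT (h i) (k - (j + 1) - 1) (fun l => h (j + 1 + l))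
    rw [show j + 1 + (k - (j + 1) - 1 + 1) = k by omega, add_zero, ← add_assoc] at hc
    have t3 := hs (j + 1 + l) (by omega) (by omega)
    have t4 := hj4 (j + 1 + l) (by omega) (by omega)
    by_cases hk2 : j + 1 + l + 1 = k
    · rw [hk2] at hc t3; omega
    · have t5 := hj4 (j + 1 + l + 1) (by omega) (by omega)
      omega

theorem tri_list {G α : Type} [Group G] (μ : TM G) (K : ℕ) (val : α → G) (l : List α)
    (hl : ∀ x ∈ l, μ.n (val x) ≤ K) (h2 : 2 ≤ l.length)
    (hp : μ.n (l.map val).prod ≤ 3 * K + 3 * μ.δ) :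
    ∃ l1 l2, l = l1 ++ l2 ∧ l1 ≠ [] ∧ l2 ≠ [] ∧ μ.n (l1.map val).prod ≤ 3 * K + 3 * μ.δ ∧
      μ.n (l2.map val).prod ≤ 3 * K + 3 * μ.δ := by
  obtain ⟨j, h1, h3, h4, h5⟩ := st_Tri G μ K (fun j => ((l.take j).map val).prod) 0 l.length
    (by omega) (by
      intro j _ hj
      rw [List.take_add_one, List.map_append, List.prod_append, inv_mul_cancel_left,
        List.getElem?_eq_getElem hj]
      simpa using hl _ (List.getElem_mem hj)) (by simpa using hp)
  refine ⟨l.take j, l.drop j, (List.take_append_drop j l).symm, ?_, ?_, by simpa using h4, ?_⟩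
  · intro h
    have := congrArg List.length h
    simp only [List.length_take, List.length_nil] at this
    omega
  · intro h
    have := congrArg List.length h
    simp only [List.length_drop, List.length_nil] at this
    omega
  · have e : (l.map val).prod = ((l.take j).map val).prod * ((l.drop j).map val).prod := by
      rw [← List.prod_append, ← List.map_append, List.take_append_drop]
    rw [List.take_length, e, inv_mul_cancel_left] at h5
    exact h5

/-- Shape of a list of items: all left, all right, or left items, one marker, right items. -/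
def Shp {α : Type} (sd : α → Option Bool) : Option Bool → List α → Prop
  | some b, l => ∀ x ∈ l, sd x = some b
  | none, l => ∃ l1 x l2, l = l1 ++ x :: l2 ∧ sd x = none ∧ (∀ y ∈ l1, sd y = some false) ∧
      ∀ y ∈ l2, sd y = some true

/-- Admissible ways to combine two shapes. -/
def Comb (σ1 σ2 σ : Option Bool) : Prop :=
  (σ1 = σ ∧ σ2 = σ ∧ σ ≠ none) ∨ (σ = none ∧ σ1 = some false ∧ σ2 = none) ∨
    (σ = none ∧ σ1 = none ∧ σ2 = some true)

section shape
variable {α : Type} {sd : α → Option Bool}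

theorem Shp.append {σ1 σ2 σ : Option Bool} (hc : Comb σ1 σ2 σ) {l1 l2 : List α}
    (h1 : Shp sd σ1 l1) (h2 : Shp sd σ2 l2) : Shp sd σ (l1 ++ l2) := by
  rcases hc with ⟨rfl, rfl, h⟩ | ⟨rfl, rfl, rfl⟩ | ⟨rfl, rfl, rfl⟩
  · cases σ2 with
    | none => exact absurd rfl h
    | some b =>
      intro x hx
      rcases List.mem_append.1 hx with hx | hx
      exacts [h1 x hx, h2 x hx]
  · obtain ⟨p, x, q, rfl, a1, a2, a3⟩ := h2
    refine ⟨l1 ++ p, x, q, by simp, a1, ?_, a3⟩
    intro y hy
    rcases List.mem_append.1 hy with hy | hy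
    exacts [h1 y hy, a2 y hy]
  · obtain ⟨p, x, q, rfl, a1, a2, a3⟩ := h1
    refine ⟨p, x, q ++ l2, by simp, a1, a2, ?_⟩
    intro y hy
    rcases List.mem_append.1 hy with hy | hy
    exacts [a3 y hy, h2 y hy]

theorem Shp.split {σ : Option Bool} {l1 l2 : List α} (h : Shp sd σ (l1 ++ l2)) :
    ∃ σ1 σ2, Comb σ1 σ2 σ ∧ Shp sd σ1 l1 ∧ Shp sd σ2 l2 := by
  cases σ with
  | some b =>
    exact ⟨some b, some b, Or.inl ⟨rfl, rfl, by simp⟩, fun x hx => h x (List.mem_append_left _ hx),
      fun x hx => h x (List.mem_append_right _ hx)⟩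
  | none =>
    obtain ⟨p, x, q, e, a1, a2, a3⟩ := h
    rcases List.append_eq_append_iff.1 e with ⟨c, rfl, rfl⟩ | ⟨c, rfl, hc⟩
    · exact ⟨some false, none, Or.inr (Or.inl ⟨rfl, rfl, rfl⟩),
        fun y hy => a2 y (List.mem_append_left _ hy),
        c, x, q, rfl, a1, fun y hy => a2 y (List.mem_append_right _ hy), a3⟩
    · cases c with
      | nil =>
        simp only [List.nil_append] at hc
        subst hc
        exact ⟨some false, none, Or.inr (Or.inl ⟨rfl, rfl, rfl⟩), fun y hy => a2 y (by simpa using hy),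
          [], x, q, rfl, a1, by simp, a3⟩
      | cons z c =>
        simp only [List.cons_append, List.cons.injEq] at hc
        obtain ⟨rfl, rfl⟩ := hc
        exact ⟨none, some true, Or.inr (Or.inr ⟨rfl, rfl, rfl⟩),
          ⟨p, x, c, rfl, a1, a2, fun y hy => a3 y (List.mem_append_left _ hy)⟩,
          fun y hy => a3 y (List.mem_append_right _ hy)⟩

theorem Shp.single_iff {σ : Option Bool} {x : α} : Shp sd σ [x] ↔ sd x = σ := by
  cases σ with
  | some b => simp [Shp]
  | none =>
    constructor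
    · rintro ⟨p, y, q, e, a1, -, -⟩
      cases p with
      | nil =>
        simp only [List.nil_append, List.cons.injEq] at e
        rw [e.1]; exact a1
      | cons z p => simp at e
    · intro h
      exact ⟨[], x, [], rfl, h, by simp, by simp⟩

theorem Shp.nil_iff {σ : Option Bool} : Shp sd σ [] ↔ σ ≠ none := by
  cases σ with
  | some b => simp [Shp]
  | none => simp [Shp]

end shape

theorem prod_map_inv_reverse {H A : Type} [Group H] (gen : A → H) (v : List A) :
    (v.reverse.map fun a => (gen a)⁻¹).prod = ((v.map gen).prod)⁻¹ := by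
  induction v with
  | nil => simp
  | cons a v ih => simp only [List.reverse_cons, List.map_append, List.prod_append, ih]; simp

theorem cf_of_tm {H G A : Type} [Group H] [Group G] [Finite A] (μ : TM G) (ι : H →* G)
    (hι : Function.Injective ι) (gen : A → H) : (WP gen).IsContextFree := by
  classical
  obtain ⟨K, hK⟩ := (Set.finite_range fun a => μ.n (ι (gen a))).bddAbove
  have hK' : ∀ a, μ.n (ι (gen a)) ≤ K := fun a => hK ⟨a, rfl⟩
  let α := Option (Bool × A)
  let sd : α → Option Bool := Option.map Prod.fst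
  let lt : α → Option A := Option.map Prod.snd
  let val : α → G := fun x => match x with
    | none => 1
    | some (false, a) => ι (gen a)
    | some (true, a) => (ι (gen a))⁻¹
  have hval : ∀ x, μ.n (val x) ≤ K := by
    rintro (_ | ⟨_ | _, a⟩)
    · simp [val, μ.n_one]
    · exact hK' a
    · simpa [val, μ.n_inv] using hK' a
  let K2 := 3 * K + 3 * μ.δ
  let N := Option Bool × {g : G // μ.n g ≤ K2}
  have : Finite {g : G // μ.n g ≤ K2} := (μ.proper K2).to_subtype
  let sem : N → Set (List (Option A)) := fun X =>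
    {w | ∃ l : List α, Shp sd X.1 l ∧ w = l.map lt ∧ (l.map val).prod = X.2.1}
  let R : Set (ContextFreeRule (Option A) N) :=
    {r | (r.output = [] ∧ r.input.1 ≠ none ∧ r.input.2.1 = 1) ∨
      (∃ x : α, r.output = [Symbol.terminal (lt x)] ∧ sd x = r.input.1 ∧ val x = r.input.2.1) ∨
      ∃ Y Z : N, r.output = [Symbol.nonterminal Y, Symbol.nonterminal Z] ∧
        Comb Y.1 Z.1 r.input.1 ∧ Y.2.1 * Z.2.1 = r.input.2.1}
  have hR : R.Finite := by
    have : Finite (Symbol (Option A) N) := by
      refine Finite.of_surjective (α := Option A ⊕ N)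
        (Sum.elim Symbol.terminal Symbol.nonterminal) ?_
      rintro (t | X)
      exacts [⟨Sum.inl t, rfl⟩, ⟨Sum.inr X, rfl⟩]
    refine Set.Finite.of_finite_image (f := fun r => (r.input, r.output)) ?_ ?_
    · refine ((Set.finite_univ (α := N)).prod
        (List.finite_length_le (Symbol (Option A) N) 2)).subset ?_
      rintro _ ⟨r, hr, rfl⟩
      refine ⟨trivial, ?_⟩
      rcases hr with ⟨h, -⟩ | ⟨x, h, -⟩ | ⟨Y, Z, h, -⟩ <;> simp [h]
    · intro r _ r' _ h
      simp only [Prod.mk.injEq] at h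
      exact ContextFreeRule.ext h.1 h.2
  have key := cf_of_sem R hR (none, ⟨1, by simp [μ.n_one]⟩) sem (fun _ w => w.length) (by
    rintro r (⟨h, h1, h2⟩ | ⟨x, h, h1, h2⟩ | ⟨Y, Z, h, h1, h2⟩) w hw <;> rw [h] at hw
    · exact ⟨[], Shp.nil_iff.2 h1, hw, by simp [h2]⟩
    · obtain ⟨w', rfl, hw'⟩ := hw
      rw [show w' = [] from hw']
      exact ⟨[x], Shp.single_iff.2 h1, rfl, by simp [h2]⟩
    · obtain ⟨_, _, rfl, ⟨l1, a1, rfl, a2⟩, _, w3, rfl, ⟨l2, b1, rfl, b2⟩, hw'⟩ := hw
      rw [show w3 = [] from hw']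
      exact ⟨l1 ++ l2, Shp.append h1 a1 b1, by simp, by
        rw [List.map_append, List.prod_append, a2, b2, h2]⟩) (by
    rintro X _ ⟨l, a1, rfl, a2⟩
    match l, a1, a2 with
    | [], a1, a2 =>
      exact ⟨⟨X, []⟩, Or.inl ⟨rfl, Shp.nil_iff.1 a1, by simpa using a2.symm⟩, rfl, rfl⟩
    | [x], a1, a2 =>
      exact ⟨⟨X, [Symbol.terminal (lt x)]⟩,
        Or.inr (Or.inl ⟨x, rfl, Shp.single_iff.1 a1, by simpa using a2⟩), rfl, [], rfl, rfl⟩
    | x :: y :: l, a1, a2 =>
      obtain ⟨l1, l2, e, n1, n2, b1, b2⟩ := tri_list μ K val (x :: y :: l) (fun z _ => hval z)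
        (by simp) (by rw [a2]; exact X.2.2)
      rw [e] at a1 a2 ⊢
      obtain ⟨σ1, σ2, hc, c1, c2⟩ := a1.split
      have p1 := List.length_pos_iff.2 n1
      have p2 := List.length_pos_iff.2 n2
      refine ⟨⟨X, [Symbol.nonterminal (σ1, ⟨_, b1⟩), Symbol.nonterminal (σ2, ⟨_, b2⟩)]⟩,
        Or.inr (Or.inr ⟨_, _, rfl, hc, by simpa using a2⟩), rfl, l1.map lt, l2.map lt, by simp,
        ⟨⟨l1, c1, rfl, rfl⟩, ?_⟩, l2.map lt, [], by simp, ⟨⟨l2, c2, rfl, rfl⟩, ?_⟩, rfl⟩
      · simp only [List.length_map, List.length_append]; omega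
      · simp only [List.length_map, List.length_append]; omega)
  have left : ∀ l : List α, (∀ y ∈ l, sd y = some false) →
      ∃ u : List A, l.map lt = u.map some ∧ (l.map val).prod = ι (u.map gen).prod := by
    intro l hl
    induction l with
    | nil => exact ⟨[], rfl, by simp⟩
    | cons x l ih =>
      obtain ⟨u, h1, h2⟩ := ih fun y hy => hl y (List.mem_cons_of_mem _ hy)
      have hx := hl x List.mem_cons_self
      rcases x with _ | ⟨b, a⟩
      · simp [sd] at hx
      · obtain rfl : b = false := by simpa [sd] using hx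
        exact ⟨a :: u, by simp [h1, lt], by simp [h2, val]⟩
  have right : ∀ l : List α, (∀ y ∈ l, sd y = some true) →
      ∃ u : List A, l.map lt = u.reverse.map some ∧ (l.map val).prod = (ι (u.map gen).prod)⁻¹ := by
    intro l hl
    induction l with
    | nil => exact ⟨[], rfl, by simp⟩
    | cons x l ih =>
      obtain ⟨u, h1, h2⟩ := ih fun y hy => hl y (List.mem_cons_of_mem _ hy)
      have hx := hl x List.mem_cons_self
      rcases x with _ | ⟨b, a⟩
      · simp [sd] at hx
      · obtain rfl : b = true := by simpa [sd] using hx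
        exact ⟨u ++ [a], by simp [h1, lt], by simp [h2, val]⟩
  have e : sem (none, ⟨1, by simp [μ.n_one]⟩) = WP gen := by
    ext w
    constructor
    · rintro ⟨_, ⟨l1, x, l2, rfl, a1, a2, a3⟩, rfl, hp⟩
      obtain ⟨u, h1, h2⟩ := left l1 a2
      obtain ⟨v, h3, h4⟩ := right l2 a3
      obtain rfl : x = none := by simpa [sd] using a1
      refine ⟨u, v, by simp [h1, h3, lt], hι ?_⟩
      simp only [List.map_append, List.map_cons, List.prod_append, List.prod_cons, h2, h4, val,
        one_mul] at hp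
      exact mul_inv_eq_one.1 hp
    · rintro ⟨u, v, rfl, h⟩
      refine ⟨u.map (fun a => some (false, a)) ++ none :: v.reverse.map (fun a => some (true, a)),
        ⟨_, _, _, rfl, rfl, by simp [sd], by simp [sd]⟩,
        by simp [lt, Function.comp_def], ?_⟩
      have h1 : ((u.map (fun a => (some (false, a) : α))).map val).prod = ι (u.map gen).prod := by
        rw [map_list_prod, List.map_map, List.map_map]; rfl
      have h2 : ((v.reverse.map (fun a => (some (true, a) : α))).map val).prod =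
          (ι (v.map gen).prod)⁻¹ := by
        rw [map_list_prod, List.map_map, List.map_map, ← prod_map_inv_reverse]; rfl
      rw [List.map_append, List.prod_append, List.map_cons, List.prod_cons, h1, h2, h]
      simp [val]
  exact e ▸ key

theorem st_BallCF : St_BallCF := by
  intro G _ μ K
  let H := Subgroup.closure {g : G | μ.n g ≤ K}
  have : Finite {g : G // μ.n g ≤ K} := (μ.proper K).to_subtype
  refine ⟨{g : G // μ.n g ≤ K}, this, fun a => ⟨a.1, Subgroup.subset_closure a.2⟩, ?_,
    cf_of_tm μ H.subtype H.subtype_injective _⟩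
  rw [eq_top_iff]
  rintro ⟨g, hg⟩ -
  induction hg using Subgroup.closure_induction'' with
  | mem x hx => exact Submonoid.subset_closure ⟨⟨x, hx⟩, rfl⟩
  | inv_mem x hx =>
    exact Submonoid.subset_closure ⟨⟨x⁻¹, by rw [μ.n_inv]; exact hx⟩, rfl⟩
  | one => exact Submonoid.one_mem _
  | mul x y hx hy a b => exact Submonoid.mul_mem _ a b

end Pool.Agent.Lib.MP_435286_al
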