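import Pool.Agent.Lib.MP_435286_al.Gram

/-
The grammar for the word problem of the transition monoid, and the realisation theorem.
-/

namespace Pool.Agent.Lib.MP_435286_al

section
variable {G A τ N : Type} [Group G] (D : MD G A τ)

/-- Middle part of an excursion. -/
def ZL (σ : Option Bool) (t : τ) (ε1 ε2 : Bool) (h : G) : Language (Option (Let A τ)) :=
  {w | ∃ n, (D.inf t ∨ n = 0) ∧ w ∈ Rp D (σ.getD false) ^ n *
    (Post D (σ.getD false) t ε1 * XL D σ h * Pre D (σ.getD true) t ε2) * Rp D (σ.getD true) ^ n}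

/-- Symbols for the beginning of a token. -/
def preS (U : Bool → N) (s : Bool) (t : τ) (ε : Bool) : List (Symbol (Option (Let A τ)) N) :=
  cond s [Symbol.terminal (some (Let.cl t ε))]
    ([Symbol.terminal (some Let.op)] ++ [Symbol.nonterminal (U false)])

/-- Symbols for the end of a token. -/
def postS (U : Bool → N) (s : Bool) (t : τ) (ε : Bool) : List (Symbol (Option (Let A τ)) N) :=
  cond s ([Symbol.nonterminal (U true)] ++ [Symbol.terminal (some Let.op)])
    [Symbol.terminal (some (Let.cl t ε))]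

/-- Symbols for the repeated part of a token. -/
def repS (U : Bool → N) (s : Bool) : List (Symbol (Option (Let A τ)) N) :=
  cond s ([Symbol.nonterminal (U true)] ++ [Symbol.terminal (some Let.mid)])
    ([Symbol.terminal (some Let.mid)] ++ [Symbol.nonterminal (U false)])

variable {D} {U : Bool → N} {sem : N → Set (List (Option (Let A τ)))}

theorem semL_pre (hU : ∀ s, sem (U s) = XL D (some s) 1) (s : Bool) (t : τ) (ε : Bool) :
    SemL sem (preS U s t ε) = Pre D s t ε := by
  cases s <;> simp only [preS, Pre, cond_true, cond_false, semL_append, semL_term, semL_nt, hU]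

theorem semL_post (hU : ∀ s, sem (U s) = XL D (some s) 1) (s : Bool) (t : τ) (ε : Bool) :
    SemL sem (postS U s t ε) = Post D s t ε := by
  cases s <;> simp only [postS, Post, cond_true, cond_false, semL_append, semL_term, semL_nt, hU]

theorem semL_rep (hU : ∀ s, sem (U s) = XL D (some s) 1) (s : Bool) :
    SemL sem (repS U s) = Rp D s := by
  cases s <;> simp only [repS, Rp, cond_true, cond_false, semL_append, semL_term, semL_nt, hU]

theorem term_pre (U : Bool → N) (s : Bool) (t : τ) (ε : Bool) :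
    ∃ x, Symbol.terminal x ∈ preS (A := A) U s t ε := by cases s <;> simp [preS]

theorem term_post (U : Bool → N) (s : Bool) (t : τ) (ε : Bool) :
    ∃ x, Symbol.terminal x ∈ postS (A := A) U s t ε := by cases s <;> simp [postS]

theorem term_rep (U : Bool → N) (s : Bool) :
    ∃ x, Symbol.terminal x ∈ repS (A := A) (τ := τ) U s := by cases s <;> simp [repS]

end

theorem cf_machine {G A : Type} [Group G] [Finite A] (R : RD G) (v0 : A → G)
    (hv : ∀ a, v0 a ∈ R.G0) : (WP (genM (⟨v0, R.r, R.inf⟩ : MD G A R.τ))).IsContextFree := by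
  classical
  set D : MD G A R.τ := ⟨v0, R.r, R.inf⟩ with hD
  have := R.fin
  have := Let.finite A R.τ
  let B1 : Set G := insert 1 (R.B ∪ Set.range fun p : Bool × A => sg p.1 (v0 p.2))
  obtain ⟨B2, f2, s2, g2, tri⟩ := tri_set R.G0 R.cf B1
    ((R.hB.union (Set.finite_range _)).insert 1) (by
      rintro b (rfl | hb | ⟨⟨s, a⟩, rfl⟩)
      · exact R.G0.one_mem
      · exact R.BG b hb
      · cases s
        exacts [R.G0.inv_mem (hv a), hv a])
  have := f2.to_subtype
  let one : B2 := ⟨1, s2 (Or.inl rfl)⟩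
  let N := (Option Bool × B2) ⊕ (Option Bool × R.τ × Bool × Bool × B2)
  let sem : N → Set (List (Option (Let A R.τ))) :=
    Sum.elim (fun p => XL D p.1 p.2.1) (fun p => ZL D p.1 p.2.1 p.2.2.1 p.2.2.2.1 p.2.2.2.2.1)
  let U : Bool → N := fun s => Sum.inl (some s, one)
  have hU : ∀ s, sem (U s) = XL D (some s) 1 := fun s => rfl
  let Ru : Set (ContextFreeRule (Option (Let A R.τ)) N) := {r |
    (∃ s, r = ⟨U s, []⟩) ∨
    (∃ (s : Bool) (a : A) (g : B2), g.1 = sg (!s) (v0 a) ∧
      r = ⟨Sum.inl (some s, g), [Symbol.terminal (some (Let.g a))]⟩) ∨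
    (∃ (σ1 σ2 σ : Option Bool) (g1 g2 g : B2), Comb σ1 σ2 σ ∧ g1.1 * g2.1 = g.1 ∧
      r = ⟨Sum.inl (σ, g), [Symbol.nonterminal (Sum.inl (σ1, g1)),
        Symbol.nonterminal (Sum.inl (σ2, g2))]⟩) ∨
    (r = ⟨Sum.inl (none, one), [Symbol.terminal none]⟩) ∨
    (∃ y, r = ⟨Sum.inl (none, one), [Symbol.terminal (some y),
      Symbol.nonterminal (Sum.inl (none, one)), Symbol.terminal (some y)]⟩) ∨
    (∃ (σ : Option Bool) (t : R.τ) (ε1 ε2 : Bool) (h f : B2), h.1 ∈ R.B ∧ f.1 ∈ R.B ∧
      sg (cond (σ.getD false) (!ε1) ε1) (R.r t 0) * h.1 *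
        sg (cond (σ.getD true) (!ε2) ε2) (R.r t 0) = f.1 ∧
      r = ⟨Sum.inl (σ, f), preS U (σ.getD false) t ε1 ++
        [Symbol.nonterminal (Sum.inr (σ, t, ε1, ε2, h))] ++ postS U (σ.getD true) t ε2⟩) ∨
    (∃ (σ : Option Bool) (t : R.τ) (ε1 ε2 : Bool) (h : B2), R.inf t ∧
      r = ⟨Sum.inr (σ, t, ε1, ε2, h), repS U (σ.getD false) ++
        [Symbol.nonterminal (Sum.inr (σ, t, ε1, ε2, h))] ++ repS U (σ.getD true)⟩) ∨
    (∃ (σ : Option Bool) (t : R.τ) (ε1 ε2 : Bool) (h : B2),
      r = ⟨Sum.inr (σ, t, ε1, ε2, h), postS U (σ.getD false) t ε1 ++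
        [Symbol.nonterminal (Sum.inl (σ, h))] ++ preS U (σ.getD true) t ε2⟩)}
  have hR : Ru.Finite := by
    have : Finite (Symbol (Option (Let A R.τ)) N) := by
      refine Finite.of_surjective (α := Option (Let A R.τ) ⊕ N)
        (Sum.elim Symbol.terminal Symbol.nonterminal) ?_
      rintro (t | X)
      exacts [⟨Sum.inl t, rfl⟩, ⟨Sum.inr X, rfl⟩]
    refine Set.Finite.of_finite_image (f := fun r => (r.input, r.output)) ?_ ?_
    · refine ((Set.finite_univ (α := N)).prod
        (List.finite_length_le (Symbol (Option (Let A R.τ)) N) 5)).subset ?_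
      rintro _ ⟨r, hr, rfl⟩
      refine ⟨trivial, ?_⟩
      have l1 : ∀ s t ε, (preS (A := A) (τ := R.τ) U s t ε).length ≤ 2 := by
        intro s t ε; cases s <;> simp [preS]
      have l2 : ∀ s t ε, (postS (A := A) (τ := R.τ) U s t ε).length ≤ 2 := by
        intro s t ε; cases s <;> simp [postS]
      have l3 : ∀ s, (repS (A := A) (τ := R.τ) U s).length ≤ 2 := by
        intro s; cases s <;> simp [repS]
      show r.output.length ≤ 5
      rcases hr with ⟨s, rfl⟩ | ⟨s, a, g, -, rfl⟩ | ⟨_, _, _, _, _, _, -, -, rfl⟩ | rfl | ⟨y, rfl⟩ |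
        ⟨σ, t, ε1, ε2, h, f, -, -, -, rfl⟩ | ⟨σ, t, ε1, ε2, h, -, rfl⟩ | ⟨σ, t, ε1, ε2, h, rfl⟩
      · simp
      · simp
      · simp
      · simp
      · simp
      · have := l1 (σ.getD false) t ε1; have := l2 (σ.getD true) t ε2
        simp only [List.length_append, List.length_singleton]; omega
      · have := l3 (σ.getD false); have := l3 (σ.getD true)
        simp only [List.length_append, List.length_singleton]; omega
      · have := l2 (σ.getD false) t ε1; have := l1 (σ.getD true) t ε2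
        simp only [List.length_append, List.length_singleton]; omega
    · intro r _ r' _ h
      simp only [Prod.mk.injEq] at h
      exact ContextFreeRule.ext h.1 h.2
  have key := cf_of_sem Ru hR (Sum.inl (none, one)) sem (fun _ w => w.length) (by
    rintro r (⟨s, rfl⟩ | ⟨s, a, g, hg, rfl⟩ | ⟨σ1, σ2, σ, g1, g2, g, hc, hg, rfl⟩ | rfl | ⟨y, rfl⟩ |
      ⟨σ, t, ε1, ε2, h, f, hh, hf, e, rfl⟩ | ⟨σ, t, ε1, ε2, h, hi, rfl⟩ | ⟨σ, t, ε1, ε2, h, rfl⟩) w hw
    · rw [show w = [] from hw]; exact XL_nil s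
    · obtain ⟨_, rfl, rfl⟩ := hw
      exact XL_single (Or.inl ⟨s, [Let.g a], v0 a, rfl, Or.inl ⟨a, rfl, rfl⟩, by cases s <;> rfl, hg⟩)
    · obtain ⟨w1, _, rfl, h1, w2, _, rfl, h2, rfl⟩ := hw
      rw [List.append_nil]
      show _ ∈ XL D σ g.1
      rw [← hg]
      exact XL_append hc h1 h2
    · obtain ⟨_, rfl, rfl⟩ := hw
      exact XL_single (Or.inr ⟨rfl, rfl, Or.inl rfl⟩)
    · obtain ⟨_, rfl, w1, _, rfl, h1, _, rfl, rfl⟩ := hw
      exact XL_single (Or.inr ⟨rfl, rfl, Or.inr ⟨y, w1, XL_WP (D := D) ▸ h1, rfl⟩⟩)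
    · have hw' : w ∈ SemL sem _ := hw
      rw [semL_append, semL_append, semL_pre hU, semL_post hU, semL_nt] at hw'
      obtain ⟨_, ⟨p, hp, _, ⟨n, ha, _, ⟨r1, hr1, _, ⟨_, ⟨q1, hq1, c, hc, rfl⟩, q2, hq2, rfl⟩, rfl⟩,
        r2, hr2, rfl⟩, rfl⟩, q, hq, rfl⟩ := hw'
      have t1 := item_tok ha (Language.append_mem_mul (Language.append_mem_mul hp hr1) hq1)
      have t2 := item_tok ha (Language.append_mem_mul (Language.append_mem_mul hq2 hr2) hq)
      have t3 := XL_append (comb_right σ) (XL_append (comb_left σ) t1 hc) t2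
      rw [show _ = f.1 from (R.i4 t n _ _ h.1 f.1 ha hh hf).2 e] at t3
      simp only [List.append_assoc] at t3 ⊢
      exact t3
    · have hw' : w ∈ SemL sem _ := hw
      rw [semL_append, semL_append, semL_rep hU, semL_rep hU, semL_nt] at hw'
      obtain ⟨_, ⟨p, hp, z, ⟨n, -, hz⟩, rfl⟩, q, hq, rfl⟩ := hw'
      refine ⟨n + 1, Or.inl hi, ?_⟩
      have := Language.append_mem_mul (Language.append_mem_mul hp hz) hq
      rw [pow_succ' (Rp D (σ.getD false)), pow_succ (Rp D (σ.getD true))]
      simp only [mul_assoc] at this ⊢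
      exact this
    · have hw' : w ∈ SemL sem _ := hw
      rw [semL_append, semL_append, semL_pre hU, semL_post hU, semL_nt] at hw'
      refine ⟨0, Or.inr rfl, ?_⟩
      rw [pow_zero, pow_zero, one_mul, mul_one]
      exact hw') (by
    rintro (⟨σ, g⟩ | ⟨σ, t, ε1, ε2, h⟩) w hw
    · obtain ⟨l, a1, a2, rfl, a3⟩ := hw
      obtain ⟨LL, rfl, hL⟩ := atoms R (fun x : Option Bool × List (Option (Let A R.τ)) × G => x.2.2)
        l.length l le_rfl (by
          intro x hx
          rcases (a1 x hx).cases with ⟨s, a, rfl⟩ | ⟨s, t, ε, n, -, -, -, e⟩ | ⟨-, e, -⟩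
          · exact Or.inl (g2 _ (s2 (Or.inr (Or.inr ⟨(!s, a), rfl⟩))))
          · exact Or.inr (e ▸ R.rS t n _)
          · exact Or.inl (e ▸ R.G0.one_mem)) (a3 ▸ g2 _ g.2)
      have excl : ∀ x : Option Bool × List (Option (Let A R.τ)) × G, Item D x → x.2.2 ∉ R.G0 →
          ∃ s t ε n, (R.inf t ∨ n = 0) ∧ x.1 = some s ∧
          x.2.1 ∈ Pre D s t ε * Rp D s ^ n * Post D s t ε ∧
          x.2.2 = sg (cond s (!ε) ε) (R.r t n) := by
        intro x hx hn
        rcases hx.cases with ⟨s, a, rfl⟩ | h | ⟨-, e, -⟩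
        · exact absurd (g2 _ (s2 (Or.inr (Or.inr ⟨(!s, a), rfl⟩)))) hn
        · exact h
        · exact absurd (e ▸ R.G0.one_mem) hn
      rcases LL with _ | ⟨a, _ | ⟨b, LL⟩⟩
      · rcases σ with _ | s
        · exact absurd rfl (Shp.nil_iff.1 a2)
        · obtain rfl : g = one := Subtype.ext (by simpa using a3.symm)
          exact ⟨⟨U s, []⟩, Or.inl ⟨s, rfl⟩, rfl, rfl⟩
      · simp only [List.flatten_cons, List.flatten_nil, List.append_nil] at a1 a2 a3 ⊢
        rcases hL a (by simp) with ⟨z, rfl, hz⟩ | ⟨x, c, y, rfl, hx, hy, hc, hp⟩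
        · rw [Shp.single_iff] at a2
          simp only [List.map_singleton, List.prod_singleton] at a3
          rcases (a1 z (by simp)).cases with ⟨s, a, rfl⟩ | ⟨s, t, ε, n, -, -, -, e⟩ | ⟨e1, e2, e3⟩
          · subst a2
            exact ⟨_, Or.inr (Or.inl ⟨s, a, g, a3.symm, rfl⟩), rfl, [], rfl, rfl⟩
          · exact absurd hz (e ▸ R.notin _ (R.rS t n _))
          · obtain rfl : σ = none := a2.symm.trans e1
            obtain rfl : g = one := Subtype.ext (a3.symm.trans e2)
            rcases e3 with e3 | ⟨y, w, hw, e3⟩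
            · exact ⟨_, Or.inr (Or.inr (Or.inr (Or.inl rfl))), rfl, [], by simp [e3], rfl⟩
            · refine ⟨_, Or.inr (Or.inr (Or.inr (Or.inr (Or.inl ⟨y, rfl⟩)))), rfl,
                sem_le (t := some y) ⟨w ++ [some y], by simp [e3], w, [some y], rfl, hw, [], rfl, rfl⟩
                  (by simp) le_rfl⟩
        · obtain ⟨s1, t, ε1, n, b1, b2, b3, b4⟩ := excl x (a1 x (by simp)) hx
          obtain ⟨s2', t', ε2, n', c1, c2, c3, c4⟩ := excl y (a1 y (by simp)) hy
          obtain ⟨rfl, rfl, d3⟩ := Shp.exc a2 b2 c2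
          rw [b4, c4] at hp
          obtain ⟨rfl, rfl, d1, d2⟩ := R.i3 _ _ _ _ _ _ _ b1 c1 hc hp
          have e : sg (cond (σ.getD false) (!ε1) ε1) (R.r t n) * (c.map fun x => x.2.2).prod *
              sg (cond (σ.getD true) (!ε2) ε2) (R.r t n) = g.1 := by
            rw [← a3, ← b4, ← c4]; simp [mul_assoc]
          rw [e] at d2
          obtain ⟨x0, hx0⟩ := term_pre (A := A) U (σ.getD false) t ε1
          refine ⟨_, Or.inr (Or.inr (Or.inr (Or.inr (Or.inr (Or.inl ⟨σ, t, ε1, ε2,
            ⟨_, s2 (Or.inr (Or.inl d1))⟩, g, d1, d2, (R.i4 t n _ _ _ _ b1 d1 d2).1 e, rfl⟩))))), rfl,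
            sem_le (t := x0) ?_ (by simp [hx0]) le_rfl⟩
          show _ ∈ SemL sem _
          rw [semL_append, semL_append, semL_pre hU, semL_post hU, semL_nt]
          obtain ⟨_, ⟨p1, hp1, r1, hr1, rfl⟩, q1, hq1, e1⟩ := b3
          obtain ⟨_, ⟨p2, hp2, r2, hr2, rfl⟩, q2, hq2, e2⟩ := c3
          refine ⟨_, ⟨p1, hp1, r1 ++ (q1 ++ (c.map fun x => x.2.1).flatten ++ p2) ++ r2,
            ⟨n, b1, Language.append_mem_mul (Language.append_mem_mul hr1 (Language.append_mem_mul
              (Language.append_mem_mul hq1 ⟨c, fun z hz => a1 z (by simp [hz]), d3, rfl, rfl⟩) hp2))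
              hr2⟩, rfl⟩, q2, hq2, ?_⟩
          simp [← e1, ← e2]
      · have vprod : ∀ L : List (List (Option Bool × List (Option (Let A R.τ)) × G)),
            (L.map fun a => (a.map fun x => x.2.2).prod).prod =
              (L.flatten.map fun x => x.2.2).prod := by
          intro L
          induction L with
          | nil => rfl
          | cons a L ih => simp only [List.map_cons, List.prod_cons, List.flatten_cons,
              List.map_append, List.prod_append, ih]
        obtain ⟨L1, L2, e, n1, n2, b1, b2⟩ := tri _ (fun a => (a.map fun x => x.2.2).prod)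
          (a :: b :: LL) (by
            intro a' ha'
            have a1' : ∀ x ∈ a', Item D x := fun x hx => a1 x (List.mem_flatten.2 ⟨a', ha', hx⟩)
            rcases hL a' ha' with ⟨z, rfl, hz⟩ | ⟨x, c, y, rfl, hx, hy, hc, hp⟩
            · simp only [List.map_singleton, List.prod_singleton]
              rcases (a1' z (by simp)).cases with ⟨s, a, rfl⟩ | ⟨s, t, ε, n, -, -, -, e⟩ | ⟨-, e2, -⟩
              · exact Or.inr (Or.inr ⟨(!s, a), rfl⟩)
              · exact absurd hz (e ▸ R.notin _ (R.rS t n _))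
              · exact Or.inl e2
            · obtain ⟨s1, t, ε1, n, b1, b2, b3, b4⟩ := excl x (a1' x (by simp)) hx
              obtain ⟨s2', t', ε2, n', c1, c2, c3, c4⟩ := excl y (a1' y (by simp)) hy
              have hp' := hp
              rw [b4, c4] at hp'
              obtain ⟨-, -, -, d2⟩ := R.i3 _ _ _ _ _ _ _ b1 c1 hc hp'
              rw [← b4, ← c4] at d2
              refine Or.inr (Or.inl ?_)
              simpa [mul_assoc] using d2) (by simp) (by rw [vprod, a3]; exact g.2)
        rw [vprod] at b1 b2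
        have pos : ∀ L, L ≠ [] → (∀ a' ∈ L, a' ∈ a :: b :: LL) →
            0 < ((L.flatten.map fun x => x.2.1).flatten).length := by
          intro L hne hsub
          cases L with
          | nil => exact absurd rfl hne
          | cons a' L =>
            have ha' := hsub a' List.mem_cons_self
            have : ∃ x l', a' = x :: l' := by
              rcases hL a' ha' with ⟨z, rfl, -⟩ | ⟨x, c, y, rfl, -⟩
              exacts [⟨z, [], rfl⟩, ⟨x, c ++ [y], rfl⟩]
            obtain ⟨x, l', rfl⟩ := this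
            have := List.length_pos_iff.2
              (a1 x (List.mem_flatten.2 ⟨_, ha', List.mem_cons_self⟩)).ne_nil
            simp only [List.flatten_cons, List.cons_append, List.map_cons, List.length_append]
            omega
        have p1 := pos L1 n1 fun a' ha' => e ▸ List.mem_append_left _ ha'
        have p2 := pos L2 n2 fun a' ha' => e ▸ List.mem_append_right _ ha'
        rw [e, List.flatten_append] at a1 a2 a3 ⊢
        obtain ⟨σ1, σ2, hc, c1, c2⟩ := a2.split
        refine ⟨_, Or.inr (Or.inr (Or.inl ⟨σ1, σ2, σ, ⟨_, b1⟩, ⟨_, b2⟩, g, hc, by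
          rw [← a3, List.map_append, List.prod_append], rfl⟩)), rfl,
          (L1.flatten.map fun x => x.2.1).flatten, (L2.flatten.map fun x => x.2.1).flatten,
          by rw [List.map_append, List.flatten_append],
          ⟨⟨_, fun x hx => a1 x (List.mem_append_left _ hx), c1, rfl, rfl⟩, ?_⟩, _, [],
          (List.append_nil _).symm,
          ⟨⟨_, fun x hx => a1 x (List.mem_append_right _ hx), c2, rfl, rfl⟩, ?_⟩, rfl⟩
        · rw [List.map_append, List.flatten_append, List.length_append]; omega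
        · rw [List.map_append, List.flatten_append, List.length_append]; omega
    · obtain ⟨n, ha, hw⟩ := hw
      cases n with
      | zero =>
        obtain ⟨x0, hx0⟩ := term_post (A := A) U (σ.getD false) t ε1
        refine ⟨_, Or.inr (Or.inr (Or.inr (Or.inr (Or.inr (Or.inr (Or.inr
          ⟨σ, t, ε1, ε2, h, rfl⟩)))))), rfl, sem_le (t := x0) ?_ (by simp [hx0]) le_rfl⟩
        show _ ∈ SemL sem _
        rw [semL_append, semL_append, semL_pre hU, semL_post hU, semL_nt]
        rw [pow_zero, pow_zero, one_mul, mul_one] at hw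
        exact hw
      | succ n =>
        have hi : R.inf t := ha.resolve_right (by omega)
        obtain ⟨x0, hx0⟩ := term_rep (A := A) (τ := R.τ) U (σ.getD false)
        refine ⟨_, Or.inr (Or.inr (Or.inr (Or.inr (Or.inr (Or.inr (Or.inl
          ⟨σ, t, ε1, ε2, h, hi, rfl⟩)))))), rfl, sem_le (t := x0) ?_ (by simp [hx0]) le_rfl⟩
        show _ ∈ SemL sem _
        rw [semL_append, semL_append, semL_rep hU, semL_rep hU, semL_nt]
        rw [pow_succ' (Rp D (σ.getD false)), pow_succ (Rp D (σ.getD true))] at hw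
        obtain ⟨_, ⟨_, ⟨p, hp, r1, hr1, rfl⟩, c, hc, rfl⟩, _, ⟨r2, hr2, q, hq, rfl⟩, rfl⟩ := hw
        exact ⟨_, ⟨p, hp, r1 ++ c ++ r2, ⟨n, Or.inl hi,
          Language.append_mem_mul (Language.append_mem_mul hr1 hc) hr2⟩, rfl⟩, q, hq, by simp⟩)
  exact XL_WP (D := D) ▸ key

theorem st_Real : St_Real := by
  intro G _ h
  obtain ⟨R⟩ := rd_of_tree h
  obtain ⟨A, hA, gen, hgen, -⟩ := R.cf
  have := R.fin
  let D : MD G A R.τ := ⟨fun a => (gen a).1, R.r, R.inf⟩
  refine ⟨MM D, inferInstance, ⟨Let A R.τ, Let.finite A R.τ, genM D, genM_closure D,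
    cf_machine R _ fun a => (gen a).2⟩, units_equiv D ?_⟩
  let P : Submonoid G :=
    { carrier := {g | ∃ u, Inv D u g}
      one_mem' := ⟨[], Toks.nil.inv⟩
      mul_mem' := by
        rintro g h ⟨u, hu⟩ ⟨v, hv⟩
        exact ⟨u ++ v, hu.append hv⟩ }
  refine R.gen P ?_ ?_
  · intro g hg
    obtain ⟨u, hu⟩ := exists_word gen hgen ⟨g, hg⟩
    have : ∀ u : List A, ((u.map gen).prod).1 ∈ P := by
      intro u
      induction u with
      | nil => exact P.one_mem
      | cons a u ih =>
        rw [List.map_cons, List.prod_cons]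
        exact P.mul_mem ⟨[Let.g a], Tok.inv (Or.inl ⟨a, rfl, rfl⟩)⟩ ih
    have := this u
    rwa [hu] at this
  · intro t n ε ha
    refine ⟨Let.op :: List.replicate n Let.mid ++ [Let.cl t ε],
      Tok.inv (Or.inr ⟨t, ε, n, ha, ⟨_, ⟨[Let.op], ⟨[Let.op], rfl, [], Toks.nil.inv, rfl⟩, _, ?_, rfl⟩,
        _, rfl, rfl⟩, rfl⟩)⟩
    clear ha
    induction n with
    | zero => exact Language.nil_mem_one
    | succ n ih =>
      rw [pow_succ', List.replicate_succ]
      exact ⟨[Let.mid], ⟨[Let.mid], rfl, [], Toks.nil.inv, rfl⟩, _, ih, rfl⟩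

end Pool.Agent.Lib.MP_435286_al
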