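import Pool.Agent.Lib.MP_435286_al.Norm

/-
A maximal subgroup of a context-free monoid carries a norm with property Q*.
-/

namespace Pool.Agent.Lib.MP_435286_al

theorem exists_bound {O τ : Type} (P : O → Prop) (ty : O → τ) (hfin : (Set.range ty).Finite)
    (cost : O → ℕ) : ∃ c, ∀ o, P o → ∃ o0, P o0 ∧ ty o0 = ty o ∧ cost o0 ≤ c := by
  classical
  let f : τ → ℕ := fun t => if h : ∃ o, P o ∧ ty o = t then cost h.choose else 0
  obtain ⟨c, hc⟩ := (hfin.image f).bddAbove
  refine ⟨c, fun o ho => ?_⟩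
  have h : ∃ o', P o' ∧ ty o' = ty o := ⟨o, ho, rfl⟩
  refine ⟨h.choose, h.choose_spec.1, h.choose_spec.2, ?_⟩
  have := hc ⟨ty o, ⟨o, rfl⟩, rfl⟩
  simpa [f, h] using this

/-- A word is remembered if it is short. -/
def sh {A : Type} (E : ℕ) (a : List A) : Option (List A) := if a.length < E then some a else none

theorem sh_finite {A : Type} [Finite A] (E : ℕ) : (Set.range (sh (A := A) E)).Finite := by
  refine (((List.finite_length_lt A E).image some).insert none).subset ?_
  rintro _ ⟨a, rfl⟩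
  unfold sh
  split_ifs with h
  · exact Or.inr ⟨a, h, rfl⟩
  · exact Or.inl rfl

theorem sh_eq {A : Type} {E : ℕ} {a b : List A} (h : sh E a = sh E b) (ha : a.length < E) :
    a = b := by
  unfold sh at h
  rw [if_pos ha] at h
  split_ifs at h with hb
  exact Option.some.inj h

theorem exists_word {M A : Type} [Monoid M] (gen : A → M)
    (h : Submonoid.closure (Set.range gen) = ⊤) (m : M) : ∃ u : List A, (u.map gen).prod = m := by
  have hm : m ∈ Submonoid.closure (Set.range gen) := h ▸ Submonoid.mem_top m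
  induction hm using Submonoid.closure_induction with
  | mem x hx => obtain ⟨a, rfl⟩ := hx; exact ⟨[a], by simp⟩
  | one => exact ⟨[], rfl⟩
  | mul x y _ _ hx hy =>
    obtain ⟨u, rfl⟩ := hx
    obtain ⟨v, rfl⟩ := hy
    exact ⟨u ++ v, by simp⟩

section main
variable {G M A : Type} [Group G] [Monoid M] (φ : G →ₙ* M) (π : List A → M) (ε : List A)

/-- Padded words with value in the subgroup. -/
def Pad (x : List A) : Prop := π x ∈ Set.range φ ∧ (∃ y, x = ε ++ y) ∧ ∃ y, x = y ++ ε

theorem side (hπ : ∀ u v, π (u ++ v) = π u * π v) (hε : π ε = φ 1) {a b a' b' : List A}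
    (h1 : Pad φ π ε (a ++ b)) (h2 : Pad φ π ε (a' ++ b')) (ha : sh ε.length a = sh ε.length a')
    (hb : sh ε.length b' = sh ε.length b) :
    φ 1 * π (a ++ b') = π (a ++ b') ∧ π (a ++ b') * φ 1 = π (a ++ b') := by
  have good : ∀ x, Pad φ π ε x → φ 1 * π x = π x ∧ π x * φ 1 = π x := by
    rintro x ⟨⟨g, hg⟩, -⟩
    rw [← hg, ← map_mul, ← map_mul]; simp
  have e : φ 1 * φ 1 = φ 1 := by rw [← map_mul, one_mul]
  by_cases la : a.length < ε.length
  · rw [sh_eq ha la]; exact good _ h2
  by_cases lb : b'.length < ε.length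
  · rw [sh_eq hb lb]; exact good _ h1
  obtain ⟨-, ⟨y, hy⟩, -⟩ := h1
  obtain ⟨-, -, ⟨y', hy'⟩⟩ := h2
  have k1 : ∃ z, a = ε ++ z := by
    rcases List.append_eq_append_iff.1 hy with ⟨c, hc1, -⟩ | ⟨c, hc1, -⟩
    · have : c = [] := by
        have := congrArg List.length hc1
        rw [List.length_append] at this
        exact List.eq_nil_of_length_eq_zero (by omega)
      exact ⟨[], by simp [hc1, this]⟩
    · exact ⟨c, hc1⟩
  have k2 : ∃ z, b' = z ++ ε := by
    rcases List.append_eq_append_iff.1 hy' with ⟨c, -, hc2⟩ | ⟨c, -, hc2⟩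
    · exact ⟨c, hc2⟩
    · have : c = [] := by
        have := congrArg List.length hc2
        rw [List.length_append] at this
        exact List.eq_nil_of_length_eq_zero (by omega)
      exact ⟨[], by simp [hc2, this]⟩
  obtain ⟨z, rfl⟩ := k1
  obtain ⟨z', rfl⟩ := k2
  simp only [hπ, hε]
  constructor
  · simp only [← mul_assoc, e]
  · simp only [mul_assoc, e]

/-- Concatenation of the words `y 0, …, y k`. -/
def cw (y : ℕ → List A) : ℕ → List A
  | 0 => y 0
  | k + 1 => cw y k ++ y (k + 1)

theorem cw_val (hπ : ∀ u v, π (u ++ v) = π u * π v) (h : ℕ → G) (y : ℕ → List A)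
    (hy : ∀ j, π (y j) = φ ((h j)⁻¹ * h (j + 1))) (k : ℕ) :
    π (cw y k) = φ ((h 0)⁻¹ * h (k + 1)) := by
  induction k with
  | zero => exact hy 0
  | succ k ih => rw [cw, hπ, ih, hy, ← map_mul]; congr 1; group

theorem cw_pad (hπ : ∀ u v, π (u ++ v) = π u * π v) (h : ℕ → G) (y : ℕ → List A)
    (hy : ∀ j, π (y j) = φ ((h j)⁻¹ * h (j + 1))) (hp : ∀ j, Pad φ π ε (y j)) (k : ℕ) :
    Pad φ π ε (cw y k) := by
  refine ⟨⟨_, (cw_val φ π hπ h y hy k).symm⟩, ?_, ?_⟩
  · induction k with
    | zero => exact (hp 0).2.1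
    | succ k ih =>
      obtain ⟨z, hz⟩ := ih
      exact ⟨z ++ y (k + 1), by rw [cw, hz, List.append_assoc]⟩
  · cases k with
    | zero => exact (hp 0).2.2
    | succ k =>
      obtain ⟨z, hz⟩ := (hp (k + 1)).2.2
      exact ⟨cw y k ++ z, by rw [cw, hz, List.append_assoc]⟩

theorem cw_cut (hπ : ∀ u v, π (u ++ v) = π u * π v) (h : ℕ → G) (y : ℕ → List A)
    (hy : ∀ j, π (y j) = φ ((h j)⁻¹ * h (j + 1))) (k : ℕ) : ∀ a b, cw y k = a ++ b →
    ∃ i ≤ k, ∃ α β, y i = α ++ β ∧ φ 1 * π a = φ ((h 0)⁻¹ * h i) * π α ∧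
      π b * φ 1 = π β * φ ((h (i + 1))⁻¹ * h (k + 1)) := by
  induction k with
  | zero => intro a b hab; exact ⟨0, le_rfl, a, b, hab, by simp, by simp⟩
  | succ k ih =>
    intro a b hab
    rw [cw] at hab
    rcases List.append_eq_append_iff.1 hab with ⟨c, hc1, hc2⟩ | ⟨c, hc1, hc2⟩
    · refine ⟨k + 1, le_rfl, c, b, hc2, ?_, by simp⟩
      rw [hc1, hπ, cw_val φ π hπ h y hy k, ← mul_assoc, ← map_mul, one_mul]
    · obtain ⟨i, hi, α, β, e1, e2, e3⟩ := ih a c hc1
      refine ⟨i, by omega, α, β, e1, e2, ?_⟩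
      rw [hc2, hπ, hy, mul_assoc, ← map_mul, mul_one]
      have : φ ((h (k + 1))⁻¹ * h (k + 1 + 1)) = φ 1 * φ ((h (k + 1))⁻¹ * h (k + 1 + 1)) := by
        rw [← map_mul, one_mul]
      rw [this, ← mul_assoc, e3, mul_assoc, ← map_mul]
      congr 2; group

end main

theorem st_TM : St_TM := by
  classical
  intro G M _ _ φ ⟨A, hA, gen, hgen, hcf⟩ hφ
  let π : List A → M := fun u => (u.map gen).prod
  have hπ : ∀ u v, π (u ++ v) = π u * π v := fun u v => by simp [π]
  let l : G → ℕ := fun g => sInf {n | ∃ u : List A, u.length = n ∧ π u = φ g}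
  have l_le : ∀ (u : List A) (g : G), π u = φ g → l g ≤ u.length := fun u g h =>
    Nat.sInf_le ⟨u, rfl, h⟩
  have l_ex : ∀ g : G, ∃ u : List A, u.length = l g ∧ π u = φ g := by
    intro g
    obtain ⟨u, hu⟩ := exists_word gen hgen (φ g)
    exact Nat.sInf_mem (s := {n | ∃ u : List A, u.length = n ∧ π u = φ g}) ⟨u.length, u, rfl, hu⟩
  choose w hw1 hw2 using l_ex
  have l_mul : ∀ g h, l (g * h) ≤ l g + l h := by
    intro g h
    have := l_le (w g ++ w h) (g * h) (by rw [hπ, hw2, hw2, map_mul])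
    rwa [List.length_append, hw1, hw1] at this
  have l_fin : ∀ r : ℕ, {g | l g ≤ r}.Finite := by
    intro r
    refine Set.Finite.of_finite_image (f := φ) ?_ hφ.1.injOn
    refine ((List.finite_length_le A r).image π).subset ?_
    rintro _ ⟨g, hg, rfl⟩
    exact ⟨w g, by simpa [hw1] using hg, hw2 g⟩
  let ε : List A := w 1
  have hε : π ε = φ 1 := hw2 1
  let pw : G → List A := fun g => ε ++ w g ++ ε
  have pw_val : ∀ g, π (pw g) = φ g := by
    intro g
    simp only [pw, hπ, hε, hw2, ← map_mul, one_mul, mul_one]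
  have pw_pad : ∀ g, Pad φ π ε (pw g) := fun g =>
    ⟨⟨g, (pw_val g).symm⟩, ⟨w g ++ ε, by simp [pw]⟩, ⟨ε ++ w g, rfl⟩⟩
  have pw_len : ∀ g, (pw g).length = l g + 2 * ε.length := by
    intro g
    simp only [pw, List.length_append, hw1]; omega
  obtain ⟨ι, hι, Y, Z, C, hs, hc⟩ := tp_fiber gen hcf ε
  let O := ι × (List A × List A) × (List A × List A) × (List A × List A)
  let Pr : O → Prop := fun o => Pad φ π ε (o.2.1.1 ++ o.2.1.2) ∧ Pad φ π ε (o.2.2.1.1 ++ o.2.2.1.2) ∧
    Pad φ π ε (o.2.2.2.1 ++ o.2.2.2.2) ∧ (o.2.1.1, o.2.2.2.2) ∈ C o.1 ∧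
    o.2.1.2 ++ o.2.2.1.1 ∈ Y o.1 ∧ o.2.2.1.2 ++ o.2.2.2.1 ∈ Z o.1
  let E := ε.length
  let ty : O → ι × (Option (List A) × Option (List A)) × (Option (List A) × Option (List A)) ×
      (Option (List A) × Option (List A)) := fun o =>
    (o.1, (sh E o.2.1.1, sh E o.2.1.2), (sh E o.2.2.1.1, sh E o.2.2.1.2),
      (sh E o.2.2.2.1, sh E o.2.2.2.2))
  have hfin : (Set.range ty).Finite := by
    have h0 := sh_finite (A := A) E
    have h2 := h0.prod h0
    refine ((Set.finite_univ (α := ι)).prod (h2.prod (h2.prod h2))).subset ?_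
    rintro _ ⟨o, rfl⟩
    exact ⟨trivial, ⟨⟨_, rfl⟩, ⟨_, rfl⟩⟩, ⟨⟨_, rfl⟩, ⟨_, rfl⟩⟩, ⟨⟨_, rfl⟩, ⟨_, rfl⟩⟩⟩
  obtain ⟨c, hbound⟩ := exists_bound Pr ty hfin (fun o => o.2.1.1.length + o.2.1.2.length +
    o.2.2.1.1.length + o.2.2.1.2.length + o.2.2.2.1.length + o.2.2.2.2.length)
  have ps : ∀ (o : G) (k : ℕ) (h : ℕ → G), ∃ v : G, ∃ i ≤ k,
      l (o⁻¹ * v) + l (v⁻¹ * h 0) ≤ l (o⁻¹ * h 0) + (2 * c + 4 * E) ∧
      l ((h i)⁻¹ * v) + l (v⁻¹ * h (i + 1)) ≤ l ((h i)⁻¹ * h (i + 1)) + (2 * c + 4 * E) ∧
      l ((h (k + 1))⁻¹ * v) + l (v⁻¹ * o) ≤ l ((h (k + 1))⁻¹ * o) + (2 * c + 4 * E) := by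
    intro o k h
    let y : ℕ → List A := fun j => pw ((h j)⁻¹ * h (j + 1))
    have hy : ∀ j, π (y j) = φ ((h j)⁻¹ * h (j + 1)) := fun j => pw_val _
    have hx : pw (o⁻¹ * h 0) ++ cw y k ++ pw ((h (k + 1))⁻¹ * o) ∈
        {u : List A | (u.map gen).prod = (ε.map gen).prod} := by
      show π _ = π ε
      rw [hπ, hπ, pw_val, pw_val, cw_val φ π hπ h y hy, hε, ← map_mul, ← map_mul]
      congr 1; group
    obtain ⟨i, a1, b1, a2, b2, a3, b3, e1, e2, e3, c1, c2, c3⟩ := hc _ _ _ hx
    have p1 : Pad φ π ε (a1 ++ b1) := e1 ▸ pw_pad _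
    have p2 : Pad φ π ε (a2 ++ b2) := e2 ▸ cw_pad φ π ε hπ h y hy (fun j => pw_pad _) k
    have p3 : Pad φ π ε (a3 ++ b3) := e3 ▸ pw_pad _
    obtain ⟨⟨i', ⟨a1', b1'⟩, ⟨a2', b2'⟩, ⟨a3', b3'⟩⟩, ⟨q1, q2, q3, d1, d2, d3⟩, hty, hcost⟩ :=
      hbound (i, (a1, b1), (a2, b2), (a3, b3)) ⟨p1, p2, p3, c1, c2, c3⟩
    simp only [ty, Prod.mk.injEq] at hty
    obtain ⟨rfl, ⟨s1, s2⟩, ⟨s3, s4⟩, ⟨s5, s6⟩⟩ := hty
    simp only at q1 q2 q3 d1 d2 d3 hcost
    obtain ⟨P, Q, R, hP, hQ, hR, hPQR⟩ := mix φ hφ
      (fun p q => π (cond p a1 a1' ++ cond q b1 b1')) (fun p q => π (cond p a2 a2' ++ cond q b2 b2'))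
      (fun p q => π (cond p a3 a3' ++ cond q b3 b3'))
      (by
        intro p q
        cases p <;> cases q
        · exact side φ π ε hπ hε q1 q1 rfl rfl
        · exact side φ π ε hπ hε q1 p1 s1 s2.symm
        · exact side φ π ε hπ hε p1 q1 s1.symm s2
        · exact side φ π ε hπ hε p1 p1 rfl rfl)
      (by
        intro p q
        cases p <;> cases q
        · exact side φ π ε hπ hε q2 q2 rfl rfl
        · exact side φ π ε hπ hε q2 p2 s3 s4.symm
        · exact side φ π ε hπ hε p2 q2 s3.symm s4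
        · exact side φ π ε hπ hε p2 p2 rfl rfl)
      (by
        intro p q
        cases p <;> cases q
        · exact side φ π ε hπ hε q3 q3 rfl rfl
        · exact side φ π ε hπ hε q3 p3 s5 s6.symm
        · exact side φ π ε hπ hε p3 q3 s5.symm s6
        · exact side φ π ε hπ hε p3 p3 rfl rfl)
      (by intro p; cases p; exacts [q1.1, p1.1])
      (by intro p; cases p; exacts [q3.1, p3.1])
      (by
        intro p q r
        have := hs i' (cond p a1 a1') (cond p b3 b3') (cond q b1 b1' ++ cond q a2 a2')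
          (cond r b2 b2' ++ cond r a3 a3') (by cases p; exacts [d1, c1]) (by cases q; exacts [d2, c2])
          (by cases r; exacts [d3, c3])
        have h2 : π _ = π ε := this
        rw [hε] at h2
        rw [← h2]
        simp only [hπ, mul_assoc])
    have lP : ∀ p q, l (P p q) ≤ (cond p a1 a1').length + (cond q b1 b1').length := fun p q => by
      simpa using l_le _ _ (hP p q).symm
    have lQ : ∀ p q, l (Q p q) ≤ (cond p a2 a2').length + (cond q b2 b2').length := fun p q => by
      simpa using l_le _ _ (hQ p q).symm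
    have lR : ∀ p q, l (R p q) ≤ (cond p a3 a3').length + (cond q b3 b3').length := fun p q => by
      simpa using l_le _ _ (hR p q).symm
    have vP : P true true = o⁻¹ * h 0 := hφ.1 (by rw [hP]; simp only [cond_true]; rw [← e1, pw_val])
    have vQ : Q true true = (h 0)⁻¹ * h (k + 1) :=
      hφ.1 (by rw [hQ]; simp only [cond_true]; rw [← e2, cw_val φ π hπ h y hy])
    have vR : R true true = (h (k + 1))⁻¹ * o :=
      hφ.1 (by rw [hR]; simp only [cond_true]; rw [← e3, pw_val])
    obtain ⟨j, hj, α, β, f1, f2, f3⟩ := cw_cut φ π hπ h y hy k a2 b2 e2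
    have n1 := congrArg List.length e1
    have n2 := congrArg List.length f1
    have n3 := congrArg List.length e3
    simp only [y, pw_len, List.length_append] at n1 n2 n3
    have r000 := hPQR false false false
    have r100 := hPQR true false false
    have r010 := hPQR false true false
    have r110 := hPQR true true false
    have r001 := hPQR false false true
    have r101 := hPQR true false true
    have r111 := hPQR true true true
    have x10 : P true false = (Q false false * R false true)⁻¹ := by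
      rw [mul_assoc] at r100; exact eq_inv_of_mul_eq_one_left r100
    have x11 : P true true = (Q true false * R false true)⁻¹ := by
      rw [mul_assoc] at r110; exact eq_inv_of_mul_eq_one_left r110
    have x00 : P false false = (Q false false * R false false)⁻¹ := by
      rw [mul_assoc] at r000; exact eq_inv_of_mul_eq_one_left r000
    have x01 : P false true = (Q true false * R false false)⁻¹ := by
      rw [mul_assoc] at r010; exact eq_inv_of_mul_eq_one_left r010
    have z11 : R true true = (P true false * Q false true)⁻¹ := eq_inv_of_mul_eq_one_right r101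
    have z10 : R true false = (P false false * Q false true)⁻¹ := eq_inv_of_mul_eq_one_right r001
    have h0 : h 0 = o * P true true := by rw [vP]; group
    have hk : h (k + 1) = o * (R true true)⁻¹ := by rw [vR]; group
    refine ⟨o * P true false, j, hj, ?_, ?_, ?_⟩
    · have t1 : (o * P true false)⁻¹ * h 0 = Q false false * R false false * P false true := by
        rw [h0, x10, x11, x01]; group
      have t2 : o⁻¹ * (o * P true false) = P true false := by group
      rw [t1, t2]
      have u1 := l_mul (Q false false * R false false) (P false true)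
      have u2 := l_mul (Q false false) (R false false)
      have u3 := lP true false
      have u4 := lP false true
      have u5 := lQ false false
      have u6 := lR false false
      simp only [cond_true, cond_false] at u3 u4 u5 u6
      omega
    · have t1 : (h j)⁻¹ * (o * P true false) =
          (((h 0)⁻¹ * h j)⁻¹ * Q true false) * (R false false * P false false) := by
        rw [h0, x10, x11, x00]; group
      have t2 : (o * P true false)⁻¹ * h (j + 1) =
          Q false true * ((h (j + 1))⁻¹ * h (k + 1))⁻¹ := by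
        rw [hk, z11]; group
      rw [t1, t2]
      have u1 := l_mul (((h 0)⁻¹ * h j)⁻¹ * Q true false) (R false false * P false false)
      have u2 := l_mul (R false false) (P false false)
      have u3 : l (((h 0)⁻¹ * h j)⁻¹ * Q true false) ≤ (ε ++ α ++ b2').length := by
        refine l_le _ _ ?_
        have k1 : φ (Q true false) = φ ((h 0)⁻¹ * h j) * π α * π b2' := by
          rw [← f2, mul_assoc, ← hπ, ← one_mul (Q true false), map_mul, hQ]; rfl
        rw [map_mul, k1, ← mul_assoc, ← mul_assoc, ← map_mul, inv_mul_cancel, hπ, hπ, hε]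
      have u4 : l (Q false true * ((h (j + 1))⁻¹ * h (k + 1))⁻¹) ≤ (a2' ++ β ++ ε).length := by
        refine l_le _ _ ?_
        have k1 : φ (Q false true) = π a2' * (π β * φ ((h (j + 1))⁻¹ * h (k + 1))) := by
          rw [← f3, ← mul_assoc, ← hπ, ← mul_one (Q false true), map_mul, hQ]; rfl
        rw [map_mul, k1, mul_assoc, mul_assoc, ← map_mul, mul_inv_cancel, hπ, hπ, hε, mul_assoc]
      have u5 := lP false false
      have u6 := lR false false
      simp only [cond_false, List.length_append] at u3 u4 u5 u6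
      omega
    · have t1 : (h (k + 1))⁻¹ * (o * P true false) = R true false * P false false := by
        rw [hk, z11, z10]; group
      have t2 : (o * P true false)⁻¹ * o = Q false false * R false true := by
        rw [x10]; group
      rw [t1, t2]
      have u1 := l_mul (R true false) (P false false)
      have u2 := l_mul (Q false false) (R false true)
      have u3 := lR true false
      have u4 := lR false true
      have u5 := lQ false false
      have u6 := lP false false
      simp only [cond_true, cond_false] at u3 u4 u5 u6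
      omega
  let l' : G → ℕ := fun g => if g = 1 then 0 else l g
  have hl1 : ∀ g, l' g ≤ l g := fun g => by simp only [l']; split_ifs <;> omega
  have hE : l 1 = E := (hw1 1).symm
  have hl2 : ∀ g, l g ≤ l' g + E := fun g => by
    simp only [l']
    split_ifs with h
    · rw [h, hE]; omega
    · omega
  refine tm_of_pstar l' (2 * c + 5 * E) (by simp [l']) ?_ ?_ ?_
  · intro g h
    by_cases hg : g = 1
    · simp [hg]
    by_cases hh : h = 1
    · simp [hh]
    have := l_mul g h
    have := hl1 (g * h)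
    simp only [l', if_neg hg, if_neg hh] at *
    omega
  · intro r
    exact (l_fin (r + E)).subset fun g hg => le_trans (hl2 g) (Nat.add_le_add_right hg E)
  · intro o k h
    obtain ⟨v, i, hi, a1, a2, a3⟩ := ps o k h
    refine ⟨v, i, hi, ?_, ?_, ?_⟩
    · have := hl1 (o⁻¹ * v); have := hl1 (v⁻¹ * h 0); have := hl2 (o⁻¹ * h 0); omega
    · have := hl1 ((h i)⁻¹ * v); have := hl1 (v⁻¹ * h (i + 1))
      have := hl2 ((h i)⁻¹ * h (i + 1)); omega
    · have := hl1 ((h (k + 1))⁻¹ * v); have := hl1 (v⁻¹ * o)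
      have := hl2 ((h (k + 1))⁻¹ * o); omega

end Pool.Agent.Lib.MP_435286_al
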