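import Mathlib

/-
Deterministic pushdown automata.
-/

namespace Pool.Agent.Lib.MP_435286_al

/-- A deterministic pushdown automaton over the alphabet `T`: finitely many states and stack
letters; `δ q Z x = some (q', γ)` means that in state `q` with `Z` on top of the stack the machine
reads the letter `t` (if `x = some t`) or nothing (if `x = none`), goes to the state `q'` and
replaces `Z` by the word `γ`. If a move that reads nothing is possible, no other move is. -/
structure DPDA (T : Type) where
  Q : Type
  Γ : Type
  finQ : Finite Q
  finΓ : Finite Γ
  q0 : Q
  Z0 : Γ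
  F : Set Q
  δ : Q → Γ → Option T → Option (Q × List Γ)
  det : ∀ q Z t, δ q Z none ≠ none → δ q Z (some t) = none

namespace DPDA

variable {T : Type} (P : DPDA T)

/-- `Run c w c'`: the machine goes from the configuration `c` (state, stack with its top first) to
the configuration `c'` in finitely many moves, reading the word `w`. -/
inductive Run : P.Q × List P.Γ → List T → P.Q × List P.Γ → Prop
  | refl (c : P.Q × List P.Γ) : Run c [] c
  | step {q q' : P.Q} {Z : P.Γ} {x : Option T} {γ σ : List P.Γ} {w : List T}
      {c : P.Q × List P.Γ} : P.δ q Z x = some (q', γ) → Run (q', γ ++ σ) w c →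
      Run (q, Z :: σ) (x.toList ++ w) c

/-- The language accepted by final state. -/
def lang : Language T := {w | ∃ q ∈ P.F, ∃ σ, P.Run (P.q0, [P.Z0]) w (q, σ)}

end DPDA

end Pool.Agent.Lib.MP_435286_al
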