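import Pool.Agent.Lib.MP_435286_al.Det0

/-
Runs of deterministic pushdown automata.
-/

namespace Pool.Agent.Lib.MP_435286_al

namespace DPDA

variable {T : Type} (P : DPDA T)

/-- Runs with a count of the moves. -/
inductive Rn : ℕ → P.Q × List P.Γ → List T → P.Q × List P.Γ → Prop
  | refl (c : P.Q × List P.Γ) : Rn 0 c [] c
  | step {n : ℕ} {q q' : P.Q} {Z : P.Γ} {x : Option T} {γ σ : List P.Γ} {w : List T}
      {c : P.Q × List P.Γ} : P.δ q Z x = some (q', γ) → Rn n (q', γ ++ σ) w c →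
      Rn (n + 1) (q, Z :: σ) (x.toList ++ w) c

variable {P} {c c' c1 c2 : P.Q × List P.Γ} {w u v z : List T} {n : ℕ}

theorem Rn.run (h : P.Rn n c w c') : P.Run c w c' := by
  induction h with
  | refl c => exact Run.refl c
  | step e _ ih => exact Run.step e ih

theorem Run.rn (h : P.Run c w c') : ∃ n, P.Rn n c w c' := by
  induction h with
  | refl c => exact ⟨0, Rn.refl c⟩
  | step e _ ih => obtain ⟨n, hn⟩ := ih; exact ⟨n + 1, Rn.step e hn⟩

theorem Run.trans (h : P.Run c u c1) (h' : P.Run c1 v c2) : P.Run c (u ++ v) c2 := by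
  induction h with
  | refl c => exact h'
  | step e _ ih => rw [List.append_assoc]; exact Run.step e (ih h')

theorem Run.frame' (h : P.Run c w c') (τ : List P.Γ) :
    P.Run (c.1, c.2 ++ τ) w (c'.1, c'.2 ++ τ) := by
  induction h with
  | refl c => exact Run.refl _
  | step e _ ih => exact Run.step e (by simpa using ih)

theorem Run.frame {q q' : P.Q} {σ σ' : List P.Γ} (h : P.Run (q, σ) w (q', σ')) (τ : List P.Γ) :
    P.Run (q, σ ++ τ) w (q', σ' ++ τ) := h.frame' τ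

theorem Rn.inv (h : P.Rn n c w c') : (n = 0 ∧ w = [] ∧ c' = c) ∨
    ∃ m q Z σ x q' γ w', n = m + 1 ∧ c = (q, Z :: σ) ∧ P.δ q Z x = some (q', γ) ∧
      w = x.toList ++ w' ∧ P.Rn m (q', γ ++ σ) w' c' := by
  cases h with
  | refl c => exact Or.inl ⟨rfl, rfl, rfl⟩
  | step e h => exact Or.inr ⟨_, _, _, _, _, _, _, _, rfl, rfl, e, rfl, h⟩

theorem Run.nil {q : P.Q} (h : P.Run (q, []) w c') : w = [] ∧ c' = (q, []) := by
  obtain ⟨n, h⟩ := h.rn
  rcases h.inv with ⟨-, a, b⟩ | ⟨_, _, _, _, _, _, _, _, -, e, -⟩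
  · exact ⟨a, b⟩
  · simp at e

theorem Run.det (h : P.Run c u c2) (hz : z ≠ []) (h' : P.Run c (u ++ z) c1) : P.Run c2 z c1 := by
  induction h with
  | refl c => exact h'
  | @step q q' Z x γ σ w c e _ ih =>
    obtain ⟨n, h'⟩ := h'.rn
    rcases h'.inv with ⟨-, a, -⟩ | ⟨m, q1, Z1, σ1, x1, q1', γ1, w1, -, e1, e2, e3, h1⟩
    · simp [hz] at a
    · obtain ⟨rfl, rfl, rfl⟩ : q = q1 ∧ Z = Z1 ∧ σ = σ1 := by simpa using e1
      have hx : x = x1 := by
        cases x with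
        | none =>
          cases x1 with
          | none => rfl
          | some t => rw [P.det q Z t (by simp [e])] at e2; simp at e2
        | some t =>
          cases x1 with
          | none => rw [P.det q Z t (by simp [e2])] at e; simp at e
          | some t1 => simp at e3; rw [e3.1]
      subst hx
      obtain ⟨rfl, rfl⟩ : q' = q1' ∧ γ = γ1 := by simpa [e] using e2
      rw [List.append_assoc, List.append_cancel_left_eq] at e3
      exact ih (e3 ▸ h1.run)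

theorem Run.cut (h : P.Run c w c') : ∀ u v, w = u ++ v → ∃ c1, P.Run c u c1 ∧ P.Run c1 v c' := by
  induction h with
  | refl c =>
    intro u v e
    obtain ⟨rfl, rfl⟩ := List.append_eq_nil_iff.1 e.symm
    exact ⟨c, Run.refl c, Run.refl c⟩
  | @step q q' Z x γ σ w c e h ih =>
    intro u v e1
    cases u with
    | nil => exact ⟨_, Run.refl _, by rw [List.nil_append] at e1; exact e1 ▸ Run.step e h⟩
    | cons t u =>
      cases x with
      | none =>
        obtain ⟨c1, a, b⟩ := ih _ _ e1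
        exact ⟨c1, Run.step (x := none) e a, b⟩
      | some t1 =>
        obtain ⟨rfl, e2⟩ : t1 = t ∧ w = u ++ v := by simpa using e1
        obtain ⟨c1, a, b⟩ := ih _ _ e2
        exact ⟨c1, Run.step (x := some t1) e a, b⟩

theorem Rn.split (h : P.Rn n c w c') : ∀ q σ τ, c = (q, σ ++ τ) →
    (∃ σ', c'.2 = σ' ++ τ ∧ P.Rn n (q, σ) w (c'.1, σ')) ∨
    ∃ x y q1 m, m ≤ n ∧ w = x ++ y ∧ P.Run (q, σ) x (q1, []) ∧ P.Rn m (q1, τ) y c' := by
  induction h with
  | refl c => rintro q σ τ rfl; exact Or.inl ⟨σ, rfl, Rn.refl _⟩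
  | @step n q q' Z x γ σ w c e h ih =>
    intro q0 σ0 τ e1
    cases σ0 with
    | nil =>
      exact Or.inr ⟨[], _, q0, n + 1, le_rfl, rfl, Run.refl _, by
        rw [List.nil_append] at e1; exact e1 ▸ Rn.step e h⟩
    | cons Y σ0 =>
      obtain ⟨rfl, rfl, rfl⟩ : q = q0 ∧ Z = Y ∧ σ = σ0 ++ τ := by simpa using e1
      rcases ih q' (γ ++ σ0) τ (by rw [List.append_assoc]) with
        ⟨σ', a, b⟩ | ⟨y1, y2, q1, m, a, rfl, b, d⟩
      · exact Or.inl ⟨σ', a, Rn.step e b⟩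
      · exact Or.inr ⟨x.toList ++ y1, y2, q1, m, by omega, by rw [List.append_assoc],
          Run.step e b, d⟩

theorem Rn.low {σ : List P.Γ} : ∀ {n : ℕ} {q q' : P.Q} {w : List T} {s : List P.Γ},
    P.Rn n (q, σ) w (q', s) → s = [] ∨ ∃ μ b q2 Y ρ s' m, m ≤ n ∧ w = μ ++ b ∧
      ρ.length < σ.length ∧ P.Run (q, σ) μ (q2, Y :: ρ) ∧ P.Rn m (q2, [Y]) b (q', s') ∧
      s = s' ++ ρ := by
  induction σ with
  | nil => intro n q q' w s h; exact Or.inl (Prod.mk.inj h.run.nil.2).2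
  | cons Y τ ih =>
    intro n q q' w s h
    rcases h.split q [Y] τ rfl with ⟨s', a, b⟩ | ⟨x, y, q1, m, a, rfl, b, d⟩
    · exact Or.inr ⟨[], w, q, Y, τ, s', n, le_rfl, rfl, by simp, Run.refl _, b, a⟩
    · rcases ih d with h0 | ⟨μ, b', q2, Y', ρ, s', m', a1, rfl, a2, a3, a4, a5⟩
      · exact Or.inl h0
      · exact Or.inr ⟨x ++ μ, b', q2, Y', ρ, s', m', by omega, by rw [List.append_assoc],
          by simp only [List.length_cons]; omega, (b.frame τ).trans a3, a4, a5⟩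

theorem exists_K [Finite T] (P : DPDA T) :
    ∃ K, 1 ≤ K ∧ ∀ q Z x q' γ, P.δ q Z x = some (q', γ) → γ.length ≤ K := by
  have := P.finQ
  have := P.finΓ
  obtain ⟨K, hK⟩ := (Set.finite_range fun t : P.Q × P.Γ × Option T =>
    (P.δ t.1 t.2.1 t.2.2).elim 0 fun r => r.2.length).bddAbove
  refine ⟨K + 1, by omega, fun q Z x q' γ e => ?_⟩
  have := hK ⟨(q, Z, x), rfl⟩
  simp only [e, Option.elim_some] at this
  omega

theorem Rn.next {K : ℕ} (hK : ∀ q Z x q' γ, P.δ q Z x = some (q', γ) → γ.length ≤ K)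
    {q q' : P.Q} {Z : P.Γ} {s : List P.Γ} (h : P.Rn n (q, [Z]) w (q', s)) :
    (w = [] ∧ q' = q ∧ s = [Z]) ∨ s = [] ∨ ∃ μ b q2 Y ρ s' m, m < n ∧ w = μ ++ b ∧
      ρ.length < K ∧ P.Run (q, [Z]) μ (q2, Y :: ρ) ∧ P.Rn m (q2, [Y]) b (q', s') ∧
      s = s' ++ ρ := by
  rcases h.inv with ⟨-, a, b⟩ | ⟨m, q1, Z1, σ1, x, q1', γ, w1, rfl, e1, e2, rfl, h1⟩
  · exact Or.inl ⟨a, (Prod.mk.inj b).1, (Prod.mk.inj b).2⟩
  · obtain ⟨rfl, rfl, rfl⟩ : q = q1 ∧ Z = Z1 ∧ σ1 = [] := by simpa using e1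
    rcases h1.low with h0 | ⟨μ, b, q2, Y, ρ, s', m', a1, rfl, a2, a3, a4, a5⟩
    · exact Or.inr (Or.inl h0)
    · refine Or.inr (Or.inr ⟨x.toList ++ μ, b, q2, Y, ρ, s', m', by omega,
        by rw [List.append_assoc], ?_, Run.step e2 a3, a4, a5⟩)
      have := hK _ _ _ _ _ e2
      rw [List.append_nil] at a2
      omega

/-- The word is accepted from the configuration `c`. -/
def Acc (c : P.Q × List P.Γ) (w : List T) : Prop := ∃ q ∈ P.F, ∃ σ, P.Run c w (q, σ)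

/-- The part of an accepting run above a given level of the stack. -/
def In (c : P.Q × List P.Γ) (w : List T) : Option P.Q → Prop
  | none => Acc c w
  | some q => P.Run c w (q, [])

/-- The rest of the accepting run. -/
def Out (τ : List P.Γ) (w : List T) : Option P.Q → Prop
  | none => w = []
  | some q => Acc (q, τ) w

theorem Acc.pre (h : P.Run c u c1) (h' : Acc c1 v) : Acc c (u ++ v) := by
  obtain ⟨q, hq, σ, h'⟩ := h'
  exact ⟨q, hq, σ, h.trans h'⟩

theorem Acc.det (h : P.Run c u c1) (hz : z ≠ []) (h' : Acc c (u ++ z)) : Acc c1 z := by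
  obtain ⟨q, hq, σ, h'⟩ := h'
  exact ⟨q, hq, σ, h.det hz h'⟩

theorem In.pre {o : Option P.Q} (h : P.Run c u c1) (h' : In c1 v o) : In c (u ++ v) o := by
  cases o with
  | none => exact Acc.pre h h'
  | some q => exact h.trans h'

theorem In.join {o : Option P.Q} {q : P.Q} {ρ τ : List P.Γ} (h : In (q, ρ) u o) (h' : Out τ v o) :
    Acc (q, ρ ++ τ) (u ++ v) := by
  cases o with
  | none =>
    obtain ⟨q1, hq, σ, h⟩ := h
    obtain rfl : v = [] := h'
    exact ⟨q1, hq, σ ++ τ, by rw [List.append_nil]; exact h.frame τ⟩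
  | some q1 => exact Acc.pre (Run.frame h τ) h'

theorem Acc.split {q : P.Q} {ρ τ : List P.Γ} (h : Acc (q, ρ ++ τ) (u ++ z)) :
    (∃ x y q1, u = x ++ y ∧ P.Run (q, ρ) x (q1, [])) ∨
    ∃ z1 z2 o, z = z1 ++ z2 ∧ In (q, ρ) (u ++ z1) o ∧ Out τ z2 o := by
  obtain ⟨q', hq, σ, h⟩ := h
  obtain ⟨n, h⟩ := h.rn
  rcases h.split q ρ τ rfl with ⟨s, -, b⟩ | ⟨x, y, q1, m, -, e, b, d⟩
  · exact Or.inr ⟨z, [], none, by simp, ⟨q', hq, s, b.run⟩, rfl⟩
  · rcases List.append_eq_append_iff.1 e with ⟨z1, rfl, rfl⟩ | ⟨y1, rfl, rfl⟩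
    · exact Or.inr ⟨z1, y, some q1, rfl, b, q', hq, σ, d.run⟩
    · exact Or.inl ⟨x, y1, q1, rfl, b⟩

end DPDA

theorem short {τ α : Type} {S : Set τ} (hS : S.Finite) (R : τ → α → Prop) (cost : α → ℕ) :
    ∃ C, ∀ t ∈ S, ∀ x, R t x → ∃ x0, R t x0 ∧ cost x0 ≤ C := by
  classical
  let f : τ → ℕ := fun t => if h : ∃ x, R t x then cost h.choose else 0
  obtain ⟨C, hC⟩ := (hS.image f).bddAbove
  refine ⟨C, fun t ht x hx => ?_⟩
  have h : ∃ x, R t x := ⟨x, hx⟩
  refine ⟨h.choose, h.choose_spec, ?_⟩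
  have := hC ⟨t, ht, rfl⟩
  simpa [f, h] using this

end Pool.Agent.Lib.MP_435286_al
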