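import Pool.Agent.Lib.MP_435286_al.Det1
import Pool.Agent.Lib.MP_435286_al.TMx

/-
Maximal subgroups of monoids with deterministic context-free word problem: cuts of runs.
-/

namespace Pool.Agent.Lib.MP_435286_al

open DPDA

/-- The data used in the proof. -/
structure DC (A M G : Type) [Monoid M] [Group G] where
  P : DPDA (Option A)
  π : List A → M
  φ : G →ₙ* M
  W : G → List A
  z : List (Option A)
  E : ℕ
  K : ℕ
  hφ : IsMaxSub φ
  app : ∀ u v, π (u ++ v) = π u * π v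
  nil : π [] = 1
  hz : z ≠ []
  acc : ∀ u : List A, Acc (P.q0, [P.Z0]) (u.map some ++ z) ↔ π u = φ 1
  eqv : ∀ (u v : List A) c, P.Run (P.q0, [P.Z0]) (u.map some) c →
    P.Run (P.q0, [P.Z0]) (v.map some) c → π u = π v
  val : ∀ g, π (W g) = φ g
  geo : ∀ g x, φ 1 * π x * φ 1 = φ g → (W g).length ≤ x.length + E
  padl : ∀ g a b, W g = a ++ b → E ≤ a.length → φ 1 * π a = π a
  padr : ∀ g a b, W g = a ++ b → E ≤ b.length → π b * φ 1 = π b
  K1 : 1 ≤ K
  hK : ∀ q Z x q' γ, P.δ q Z x = some (q', γ) → γ.length ≤ K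

namespace DC

variable {A M G : Type} [Monoid M] [Group G] (D : DC A M G)

/-- Runs on words without the marker. -/
def R (c : D.P.Q × List D.P.Γ) (u : List A) (c' : D.P.Q × List D.P.Γ) : Prop :=
  D.P.Run c (u.map some) c'

/-- The initial configuration. -/
abbrev i0 : D.P.Q × List D.P.Γ := (D.P.q0, [D.P.Z0])

variable {D} {c c1 c2 : D.P.Q × List D.P.Γ} {u v : List A}

theorem R.trans (h : D.R c u c1) (h' : D.R c1 v c2) : D.R c (u ++ v) c2 := by
  unfold R
  rw [List.map_append]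
  exact Run.trans h h'

theorem acc_iff (h : D.R D.i0 u c) : Acc c (v.map some ++ D.z) ↔ D.π u * D.π v = D.φ 1 := by
  rw [← D.app, ← D.acc, List.map_append, List.append_assoc]
  exact ⟨Acc.pre h, Acc.det h (by simp [D.hz])⟩

theorem exists_R (g : G) : ∃ c, D.R D.i0 (D.W g) c := by
  have h : Acc D.i0 ((D.W g ++ D.W g⁻¹).map some ++ D.z) :=
    (D.acc _).2 (by rw [D.app, D.val, D.val, ← map_mul, mul_inv_cancel])
  obtain ⟨q, -, σ, h⟩ := h
  obtain ⟨c, h1, -⟩ := h.cut ((D.W g).map some) _ (by rw [List.map_append, List.append_assoc])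
  exact ⟨c, h1⟩

theorem ee : D.φ 1 * D.φ 1 = D.φ 1 := by rw [← map_mul, one_mul]

variable (D)

/-- Short stack words. -/
def Sm : Set (List D.P.Γ) := {ρ | ρ.length ≤ D.K}

theorem sm_fin : D.Sm.Finite := by
  have := D.P.finΓ
  exact List.finite_length_le _ _

theorem suf_fin : {x | x <:+ D.z}.Finite :=
  (D.z.tails.finite_toSet).subset fun x hx => by simpa using hx

theorem gap : ∃ C, ∀ g y a μ b q ρ t q' ρ' m, m * D.π y = D.φ 1 → D.W g = a ++ μ ++ b →
    D.R D.i0 (y ++ a) (q, ρ ++ t) → D.R (q, ρ) μ (q', ρ') → ρ.length ≤ D.K → ρ'.length ≤ D.K →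
    μ.length ≤ C := by
  have := D.P.finQ
  obtain ⟨C, hC⟩ := short (S := (Set.univ ×ˢ D.Sm) ×ˢ (Set.univ ×ˢ D.Sm))
    ((Set.finite_univ.prod D.sm_fin).prod (Set.finite_univ.prod D.sm_fin))
    (fun t μ => D.R t.1 μ t.2) List.length
  refine ⟨C + D.E, fun g y a μ b q ρ t q' ρ' m hm e h1 h2 l1 l2 => ?_⟩
  obtain ⟨μ0, h3, l3⟩ := hC ((q, ρ), (q', ρ')) ⟨⟨trivial, l1⟩, trivial, l2⟩ μ h2
  have h4 := D.eqv _ _ _ (h1.trans (Run.frame h2 t)) (h1.trans (Run.frame h3 t))
  have h5 := D.geo g (a ++ μ0 ++ b) (by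
    have e1 := D.val g
    rw [e] at e1
    simp only [D.app] at h4 e1 ⊢
    calc D.φ 1 * (D.π a * D.π μ0 * D.π b) * D.φ 1
        = m * (D.π y * D.π a * D.π μ0) * D.π b * D.φ 1 := by rw [← hm]; simp only [mul_assoc]
      _ = m * D.π y * (D.π a * D.π μ * D.π b) * D.φ 1 := by rw [← h4]; simp only [mul_assoc]
      _ = D.φ g := by rw [hm, e1, ← map_mul, ← map_mul, one_mul, mul_one])
  rw [e] at h5
  simp only [List.length_append] at h5
  omega

theorem tail : ∃ C, ∀ g c d q ρ t z1 z2 o, D.W g⁻¹ = c ++ d → D.R D.i0 (D.W g ++ c) (q, ρ ++ t) →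
    ρ.length ≤ D.K → D.z = z1 ++ z2 → In (q, ρ) (d.map some ++ z1) o → Out t z2 o →
    d.length ≤ C := by
  have := D.P.finQ
  have hp : {x | x <+: D.z}.Finite := (D.z.inits.finite_toSet).subset fun x hx => by simpa using hx
  obtain ⟨C, hC⟩ := short (S := (Set.univ ×ˢ D.Sm) ×ˢ ({x | x <+: D.z} ×ˢ Set.univ))
    ((Set.finite_univ.prod D.sm_fin).prod (hp.prod Set.finite_univ))
    (fun (t : (D.P.Q × List D.P.Γ) × List (Option A) × Option D.P.Q) (d : List A) =>
      In t.1 (d.map some ++ t.2.1) t.2.2) List.length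
  refine ⟨C + D.E, fun g c d q ρ t z1 z2 o e h1 l1 ez h2 h3 => ?_⟩
  obtain ⟨d0, h4, l4⟩ := hC ((q, ρ), (z1, o)) ⟨⟨trivial, l1⟩, ⟨z2, ez.symm⟩, trivial⟩ d h2
  have h5 := In.join h4 h3
  rw [List.append_assoc, ← ez, acc_iff h1, D.app, D.val] at h5
  have h6 := D.geo g⁻¹ (c ++ d0) (by
    calc D.φ 1 * D.π (c ++ d0) * D.φ 1 = D.φ g⁻¹ * (D.φ g * D.π c * D.π d0) * D.φ 1 := by
          rw [D.app, ← mul_assoc (D.φ g⁻¹), ← mul_assoc (D.φ g⁻¹), ← map_mul, inv_mul_cancel]
          simp only [mul_assoc]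
      _ = D.φ g⁻¹ := by rw [h5, ← map_mul, ← map_mul, mul_one, mul_one])
  rw [e] at h6
  simp only [List.length_append] at h6
  omega

theorem head : ∃ C, ∀ g a b q Z t z1 z2 o, D.W g = a ++ b → D.R D.i0 a (q, Z :: t) →
    D.z = z1 ++ z2 → In (q, [Z]) ((b ++ D.W g⁻¹).map some ++ z1) o → Out t z2 o →
    a.length ≤ C := by
  have := D.P.finQ
  have := D.P.finΓ
  obtain ⟨C, hC⟩ := short (S := Set.univ ×ˢ {x | x <:+ D.z}) (Set.finite_univ.prod D.suf_fin)
    (fun (t : (D.P.Q × D.P.Γ × Option D.P.Q) × List (Option A)) (a : List A) =>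
      ∃ τ, D.R D.i0 a (t.1.1, t.1.2.1 :: τ) ∧ Out τ t.2 t.1.2.2) List.length
  refine ⟨C + D.E, fun g a b q Z t z1 z2 o e h1 ez h2 h3 => ?_⟩
  obtain ⟨a0, ⟨t0, h4, h4'⟩, l4⟩ := hC ((q, Z, o), z2) ⟨trivial, z1, ez.symm⟩ a ⟨t, h1, h3⟩
  have h5 := In.join h2 h4'
  rw [List.append_assoc, ← ez] at h5
  have h5' := (acc_iff h4).1 h5
  rw [D.app, D.val] at h5'
  have h6 := D.geo g (a0 ++ b) (by
    calc D.φ 1 * D.π (a0 ++ b) * D.φ 1 = D.φ 1 * (D.π a0 * (D.π b * D.φ g⁻¹)) * D.φ g := by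
          rw [D.app, ← inv_mul_cancel g, map_mul]
          simp only [mul_assoc]
      _ = D.φ g := by rw [h5', ← map_mul, ← map_mul, one_mul, one_mul])
  rw [e] at h6
  simp only [List.length_append] at h6
  omega

/-- A level of the stack that is set after `a` and removed after `a b c`. -/
def Cut (U V a b c d : List A) (τ : D.P.Q × D.P.Γ × D.P.Q) : Prop :=
  U = a ++ b ∧ V = c ++ d ∧ (∃ t, D.R D.i0 a (τ.1, τ.2.1 :: t)) ∧
    D.R (τ.1, [τ.2.1]) (b ++ c) (τ.2.2, [])

variable {D} in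
theorem Cut.mix {U V a b c d U' V' a' b' c' d' : List A} {τ} (h : D.Cut U V a b c d τ)
    (h' : D.Cut U' V' a' b' c' d' τ) : D.π a * (D.π b' * D.π c') = D.π U * D.π c := by
  obtain ⟨rfl, -, ⟨t, h1⟩, h2⟩ := h
  have := D.eqv _ _ _ (h1.trans (Run.frame h'.2.2.2 t)) (h1.trans (Run.frame h2 t))
  simpa only [D.app, mul_assoc] using this

theorem dense1 : ∃ C, ∀ g n0, C ≤ n0 → n0 + C < (D.W g).length →
    ∃ a b c d τ, D.Cut (D.W g) (D.W g⁻¹) a b c d τ ∧ n0 < a.length ∧ a.length ≤ n0 + C := by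
  obtain ⟨C1, h1⟩ := D.gap
  obtain ⟨C2, h2⟩ := D.head
  refine ⟨C1 + C2, fun g n0 l1 l2 => ?_⟩
  have key : ∀ n a b q Z t q' s, D.W g = a ++ b → D.R D.i0 a (q, Z :: t) →
      D.P.Rn n (q, [Z]) (b.map some) (q', s) → a.length ≤ n0 + C1 →
      ∃ a b c d τ, D.Cut (D.W g) (D.W g⁻¹) a b c d τ ∧ n0 < a.length ∧
        a.length ≤ n0 + (C1 + C2) := by
    intro n
    induction n using Nat.strong_induction_on with
    | _ n ih =>
      intro a b q Z t q' s e r1 r2 l3
      have el : (D.W g).length = a.length + b.length := by rw [e, List.length_append]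
      by_cases l4 : n0 < a.length
      · have r3 : D.R D.i0 (D.W g) (q', s ++ t) := e ▸ r1.trans (Run.frame r2.run t)
        have a1 := (acc_iff r3 (v := D.W g⁻¹)).2 (by rw [D.val, D.val, ← map_mul, mul_inv_cancel])
        rcases a1.split with ⟨x, y, q1, e1, r4⟩ | ⟨z1, z2, o, ez, i1, o1⟩
        · obtain ⟨c, d, e2, rfl, rfl⟩ := List.map_eq_append_iff.1 e1
          exact ⟨a, b, c, d, (q, Z, q1), ⟨e, e2, ⟨t, r1⟩, R.trans r2.run r4⟩, l4, by omega⟩
        · have := h2 g a b q Z t z1 z2 o e r1 ez (by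
            rw [List.map_append, List.append_assoc]; exact In.pre r2.run i1) o1
          omega
      · have hy : D.φ 1 * D.π [] = D.φ 1 := by rw [D.nil, mul_one]
        rcases r2.next D.hK with ⟨e1, -⟩ | rfl | ⟨μ, b', q2, Y, ρ, s', m, l5, e1, l6, r3, r4, rfl⟩
        · rw [List.map_eq_nil_iff.1 e1] at el
          simp only [List.length_nil] at el
          omega
        · have := h1 g [] a b [] q [Z] t q' [] _ hy (by simpa using e) r1 r2.run D.K1 (by simp)
          omega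
        · obtain ⟨μ, b', rfl, rfl, rfl⟩ := List.map_eq_append_iff.1 e1
          have := h1 g [] a μ b' q [Z] t q2 (Y :: ρ) _ hy (by simpa using e) r1 r3 D.K1 l6
          exact ih m l5 (a ++ μ) b' q2 Y (ρ ++ t) q' s' (by simpa using e)
            (r1.trans (Run.frame r3 t)) r4 (by rw [List.length_append]; omega)
  obtain ⟨⟨q', s⟩, r⟩ := exists_R (D := D) g
  obtain ⟨n, r⟩ := Run.rn r
  exact key n [] (D.W g) _ _ [] q' s rfl (Run.refl _) r (by simp)

theorem dense2 : ∃ C, ∀ g n0, n0 + C < (D.W g⁻¹).length →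
    ∃ a b c d τ, D.Cut (D.W g) (D.W g⁻¹) a b c d τ ∧ n0 ≤ c.length ∧ c.length ≤ n0 + C := by
  obtain ⟨C1, h1⟩ := D.gap
  obtain ⟨C2, h2⟩ := D.tail
  refine ⟨C1 + C2, fun g n0 l2 => ?_⟩
  have hy : D.φ g⁻¹ * D.π (D.W g) = D.φ 1 := by rw [D.val, ← map_mul, inv_mul_cancel]
  have pop : ∀ c d q ρ t, D.W g⁻¹ = c ++ d → D.R D.i0 (D.W g ++ c) (q, ρ ++ t) → ρ.length ≤ D.K →
      c.length ≤ n0 → ∃ μ d' q1, d = μ ++ d' ∧ D.R (q, ρ) μ (q1, []) ∧ μ.length ≤ C1 := by
    intro c d q ρ t e r l3 l4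
    have a1 := (acc_iff r (v := d)).2 (by
      rw [D.app, mul_assoc, ← D.app, ← e, D.val, D.val, ← map_mul, mul_inv_cancel])
    rcases a1.split with ⟨x, y, q1, e1, r4⟩ | ⟨z1, z2, o, ez, i1, o1⟩
    · obtain ⟨μ, d', rfl, rfl, rfl⟩ := List.map_eq_append_iff.1 e1
      exact ⟨μ, d', q1, rfl, r4,
        h1 g⁻¹ (D.W g) c μ d' q ρ t q1 [] _ hy (by simpa using e) r r4 l3 (by simp)⟩
    · have := h2 g c d q ρ t z1 z2 o e r l3 ez i1 o1
      rw [e, List.length_append] at l2
      omega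
  have key : ∀ n a b q Z t q' s, D.W g = a ++ b → D.R D.i0 a (q, Z :: t) →
      D.P.Rn n (q, [Z]) (b.map some) (q', s) →
      (∃ a b c d τ, D.Cut (D.W g) (D.W g⁻¹) a b c d τ ∧ n0 ≤ c.length ∧
        c.length ≤ n0 + (C1 + C2)) ∨
      ∃ c d q1, D.W g⁻¹ = c ++ d ∧ c.length ≤ n0 ∧ D.R (q', s) c (q1, []) := by
    intro n
    induction n using Nat.strong_induction_on with
    | _ n ih =>
      intro a b q Z t q' s e r1 r2
      have r3 : D.R D.i0 (D.W g) (q', s ++ t) := e ▸ r1.trans (Run.frame r2.run t)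
      have fin : ∀ c d q1, D.W g⁻¹ = c ++ d → c.length ≤ n0 + C1 → D.R (q', s) c (q1, []) →
          (∃ a b c d τ, D.Cut (D.W g) (D.W g⁻¹) a b c d τ ∧ n0 ≤ c.length ∧
            c.length ≤ n0 + (C1 + C2)) ∨
          ∃ c d q1, D.W g⁻¹ = c ++ d ∧ c.length ≤ n0 ∧ D.R (q', s) c (q1, []) := by
        intro c d q1 e1 l3 r4
        by_cases l4 : c.length ≤ n0
        · exact Or.inr ⟨c, d, q1, e1, l4, r4⟩
        · exact Or.inl ⟨a, b, c, d, (q, Z, q1), ⟨e, e1, ⟨t, r1⟩, R.trans r2.run r4⟩, by omega,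
            by omega⟩
      rcases r2.next D.hK with ⟨-, rfl, rfl⟩ | rfl | ⟨μ, b', q2, Y, ρ, s', m, l5, e1, l6, r4, r5, rfl⟩
      · obtain ⟨μ, d', q1, e1, r4, l3⟩ :=
          pop [] _ q' [Z] t rfl (by rwa [List.append_nil]) D.K1 (by simp)
        exact fin μ d' q1 e1 (by omega) r4
      · exact Or.inr ⟨[], _, q', rfl, by simp, Run.refl _⟩
      · obtain ⟨μ, b', rfl, rfl, rfl⟩ := List.map_eq_append_iff.1 e1
        rcases ih m l5 (a ++ μ) b' q2 Y (ρ ++ t) q' s' (by simpa using e)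
          (r1.trans (Run.frame r4 t)) r5 with h | ⟨c, d, q1, e2, l3, r6⟩
        · exact Or.inl h
        · rw [List.append_assoc] at r3
          obtain ⟨ν, d', q3, rfl, r7, l4⟩ :=
            pop c d q1 ρ t e2 (r3.trans (Run.frame r6 (ρ ++ t))) l6.le l3
          exact fin (c ++ ν) d' q3 (by simpa using e2) (by rw [List.length_append]; omega)
            (R.trans (Run.frame r6 ρ) r7)
  obtain ⟨⟨q', s⟩, r⟩ := exists_R (D := D) g
  obtain ⟨n, r'⟩ := Run.rn r
  rcases key n [] (D.W g) _ _ [] q' s rfl (Run.refl _) r' with h | ⟨c, d, q1, e, -, r1⟩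
  · exact h
  · obtain ⟨_, -, _, a1⟩ := (acc_iff (r.trans r1) (v := d)).2 (by
      rw [D.app, mul_assoc, ← D.app, ← e, D.val, D.val, ← map_mul, mul_inv_cancel])
    exact absurd a1.nil.1 (by simp [D.hz])

/-- Two cuts at bounded distance. -/
def Two (τ : ((D.P.Q × D.P.Γ × D.P.Q) × D.P.Q × D.P.Γ × D.P.Q) × List A)
    (x : G × (List A × List A) × (List A × List A) × List A × List A) : Prop :=
  D.Cut (D.W x.1) (D.W x.1⁻¹) x.2.1.1 (τ.2 ++ x.2.1.2) x.2.2.1.1 x.2.2.1.2 τ.1.1 ∧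
  D.Cut (D.W x.1⁻¹) (D.W x.1) x.2.2.2.1 x.2.2.2.2 (x.2.1.1 ++ τ.2) x.2.1.2 τ.1.2 ∧
  D.φ 1 * D.π x.2.1.1 = D.π x.2.1.1 ∧ D.π x.2.1.2 * D.φ 1 = D.π x.2.1.2

variable {D} in
theorem Two.mix {τ1 τ2 h g a b c d c' d' g0 a0 b0 c0 d0 c0' d0'}
    (h1 : D.Two ((τ1, τ2), h) (g, (a, b), (c, d), c', d'))
    (h0 : D.Two ((τ1, τ2), h) (g0, (a0, b0), (c0, d0), c0', d0')) :
    ∃ p, D.φ p * D.π c0 = D.φ g * D.π c ∧
      (D.W p).length ≤ a.length + h.length + b0.length + D.E := by
  obtain ⟨k1, k2, k3, -⟩ := h1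
  obtain ⟨j1, j2, -, j4⟩ := h0
  have m1 := k1.mix j1
  have m2 := j2.mix k2
  have e1 : D.π c * D.π d = D.φ g⁻¹ := by rw [← D.app, ← k1.2.1, D.val]
  have e2 : D.π a0 * D.π h * D.π b0 = D.φ g0 := by rw [← D.app, ← D.app, ← j2.2.1, D.val]
  simp only [D.app, D.val] at m1 m2 k3 j4
  obtain ⟨p, hp⟩ := mem_range_of_inv D.φ D.hφ (x := D.π a * D.π h * D.π b0)
    (a := D.π c0' * D.π d') (b := D.π c0 * D.π d) (by rw [← mul_assoc, ← mul_assoc, k3])
    (by rw [mul_assoc, j4])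
    (by
      calc D.π c0' * D.π d' * (D.π a * D.π h * D.π b0)
          = D.π c0' * (D.π d' * (D.π a * D.π h)) * D.π b0 := by simp only [mul_assoc]
        _ = D.φ 1 := by rw [m2, mul_assoc, e2, ← map_mul, inv_mul_cancel])
    (by
      calc D.π a * D.π h * D.π b0 * (D.π c0 * D.π d)
          = D.π a * (D.π h * D.π b0 * D.π c0) * D.π d := by simp only [mul_assoc]
        _ = D.φ 1 := by rw [m1, mul_assoc, e1, ← map_mul, mul_inv_cancel])
  refine ⟨p, by rw [hp, ← m1]; simp only [mul_assoc], ?_⟩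
  have := D.geo p (a ++ h ++ b0) (by
    rw [D.app, D.app, ← hp, ← map_mul, ← map_mul, one_mul, mul_one])
  simpa only [List.length_append] using this

include D in
theorem fg [Finite A] : Group.FG G := by
  have := D.P.finQ
  have := D.P.finΓ
  obtain ⟨C1, h1⟩ := D.dense1
  obtain ⟨C2, h2⟩ := D.dense2
  obtain ⟨C0, h0⟩ := short (S := Set.univ ×ˢ {h : List A | h.length ≤ C2})
    (Set.finite_univ.prod (List.finite_length_le A C2)) D.Two fun x => (D.W x.1).length
  set B := 2 * C0 + 2 * C1 + C2 + 2 * D.E with hB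
  have hinj : Function.Injective D.W := fun g g' e => D.hφ.1 (by rw [← D.val, ← D.val, e])
  refine Group.fg_iff.2 ⟨{g | (D.W g).length ≤ B}, ?_,
    (List.finite_length_le A B).preimage hinj.injOn⟩
  have key : ∀ n g, (D.W g).length = n → g ∈ Subgroup.closure {g | (D.W g).length ≤ B} := by
    intro n
    induction n using Nat.strong_induction_on with
    | _ n ih =>
      intro g hn
      by_cases l0 : n ≤ B
      · exact Subgroup.subset_closure (show (D.W g).length ≤ B by omega)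
      obtain ⟨a, b, c, d, τ1, k1, l1, l2⟩ := h1 g (C0 + C1 + D.E) (by omega) (by omega)
      obtain ⟨c', d', a', b', τ2, k2, l3, l4⟩ := h2 g⁻¹ a.length (by rw [inv_inv]; omega)
      rw [inv_inv] at k2
      obtain ⟨h, rfl⟩ : a <+: a' :=
        List.prefix_of_prefix_length_le ⟨b, k1.1.symm⟩ ⟨b', k2.2.1.symm⟩ l3
      obtain rfl : b = h ++ b' := List.append_cancel_left
        (k1.1.symm.trans (k2.2.1.trans (List.append_assoc _ _ _)))
      have el : n = a.length + h.length + b'.length := by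
        rw [← hn, k2.2.1]; simp only [List.length_append]
      rw [List.length_append] at l4
      have t1 : D.Two ((τ1, τ2), h) (g, (a, b'), (c, d), c', d') :=
        ⟨k1, k2, D.padl g a _ k1.1 (by omega), D.padr g _ b' k2.2.1 (by omega)⟩
      obtain ⟨⟨g0, ⟨a0, b0⟩, ⟨c0, d0⟩, c0', d0'⟩, t0, l5⟩ :=
        h0 ((τ1, τ2), h) ⟨trivial, show h.length ≤ C2 by omega⟩ _ t1
      obtain ⟨p, e1, l6⟩ := t1.mix t0
      obtain ⟨r, e2, l7⟩ := t0.mix t1
      have el0 : (D.W g0).length = a0.length + h.length + b0.length := by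
        rw [show D.W g0 = _ from t0.2.1.2.1]; simp only [List.length_append]
      simp only at l5
      have e3 : D.π c * D.π d = D.φ g⁻¹ := by rw [← D.app, ← k1.2.1, D.val]
      have e4 : g = p * g0⁻¹ * r := by
        have : D.φ (p * g0⁻¹ * r * g⁻¹) = D.φ (g * g⁻¹) := by
          calc D.φ (p * g0⁻¹ * r * g⁻¹) = D.φ (p * g0⁻¹) * (D.φ r * D.π c) * D.π d := by
                rw [map_mul, map_mul, ← e3]; simp only [mul_assoc]
            _ = D.φ p * D.π c0 * D.π d := by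
                rw [e2, ← mul_assoc, ← map_mul, inv_mul_cancel_right]
            _ = D.φ (g * g⁻¹) := by rw [e1, mul_assoc, e3, map_mul]
        exact (mul_right_cancel (D.hφ.1 this)).symm
      rw [e4]
      exact mul_mem (mul_mem (Subgroup.subset_closure (show (D.W p).length ≤ B by omega))
        (inv_mem (Subgroup.subset_closure (show (D.W g0).length ≤ B by omega))))
        (ih _ (by omega) r rfl)
  exact eq_top_iff.2 fun g _ => key _ g rfl

end DC

theorem fg_of_det {A M G : Type} [Finite A] [Monoid M] [Group G] (gen : A → M)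
    (hgen : Submonoid.closure (Set.range gen) = ⊤) (P : DPDA (Option A)) (hP : P.lang = WP gen)
    (φ : G →ₙ* M) (hφ : IsMaxSub φ) : Group.FG G := by
  classical
  obtain ⟨E0, hE⟩ := exists_word gen hgen (φ 1)
  obtain ⟨K, K1, hK⟩ := P.exists_K
  have hex : ∀ g, ∃ n, ∃ u : List A, (u.map gen).prod = φ g ∧ u.length = n := fun g =>
    (exists_word gen hgen (φ g)).elim fun u h => ⟨_, u, h, rfl⟩
  choose w hw hl using fun g => Nat.find_spec (hex g)
  have hmin : ∀ g (x : List A), (x.map gen).prod = φ g → (w g).length ≤ x.length := fun g x h =>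
    hl g ▸ Nat.find_min' (hex g) ⟨x, h, rfl⟩
  have hacc : ∀ u v : List A, Acc (P.q0, [P.Z0]) (u.map some ++ none :: v.reverse.map some) ↔
      (u.map gen).prod = (v.map gen).prod := fun u v => by
    rw [← mem_WP_iff, ← hP]; rfl
  have ee : φ 1 * φ 1 = φ 1 := by rw [← map_mul, one_mul]
  refine DC.fg (A := A) (M := M)
    { P := P
      π := fun u => (u.map gen).prod
      φ := φ
      W := fun g => E0 ++ w g ++ E0
      z := none :: E0.reverse.map some
      E := 4 * E0.length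
      K := K
      hφ := hφ
      app := fun u v => by simp
      nil := rfl
      hz := by simp
      acc := fun u => by rw [hacc, hE]
      eqv := fun u v c h1 h2 =>
        ((hacc v u).1 (Acc.pre h2 (Acc.det h1 (by simp) ((hacc u u).2 rfl)))).symm
      val := fun g => by
        simp only [List.map_append, List.prod_append, hE, hw]
        rw [← map_mul, ← map_mul, one_mul, mul_one]
      geo := fun g x h => by
        have := hmin g (E0 ++ x ++ E0) (by
          simpa only [List.map_append, List.prod_append, hE] using h)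
        simp only [List.length_append] at this ⊢
        omega
      padl := fun g a b e l => by
        obtain ⟨a', rfl⟩ : E0 <+: a := List.prefix_of_prefix_length_le
          ⟨w g ++ E0, (List.append_assoc _ _ _).symm⟩ ⟨b, e.symm⟩ (by omega)
        simp only [List.map_append, List.prod_append, hE]
        rw [← mul_assoc, ee]
      padr := fun g a b e l => by
        obtain ⟨b', rfl⟩ : E0 <:+ b := List.suffix_of_suffix_length_le
          ⟨E0 ++ w g, rfl⟩ ⟨a, e.symm⟩ (by omega)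
        simp only [List.map_append, List.prod_append, hE]
        rw [mul_assoc, ee]
      K1 := K1
      hK := hK }

end Pool.Agent.Lib.MP_435286_al
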