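import Pool.Agent.Lib.MP_435286_al.Gram

/-
A group with the tree condition that is not finitely generated contains a free group of rank two.
-/

namespace Pool.Agent.Lib.MP_435286_al

theorem britton {G : Type} [Group G] (R : RD G) {t : R.τ} (ht : R.inf t) : ∀ (m : ℕ)
    (l : List (Bool × ℕ)), l.length ≤ m → l.IsChain (fun a b => a.2 ≠ b.2) →
    (l.map fun a => sg a.1 (R.r t a.2)).prod ∈ R.G0 → l = [] := by
  intro m
  induction m with
  | zero => intro l hl _ _; exact List.eq_nil_of_length_eq_zero (by omega)
  | succ m ih =>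
    intro l hl hc hp
    obtain ⟨LL, rfl, hL⟩ := atoms R (fun a : Bool × ℕ => sg a.1 (R.r t a.2)) l.length l le_rfl
      (fun x _ => Or.inr (R.rS t x.2 x.1)) hp
    rcases LL with _ | ⟨a, LL⟩
    · rfl
    exfalso
    rcases hL a List.mem_cons_self with ⟨z, rfl, hz⟩ | ⟨x, c, y, rfl, -, -, h1, h2⟩
    · exact R.notin _ (R.rS t z.2 z.1) hz
    · rw [List.flatten_cons] at hc hl
      have hc' := hc.left_of_append
      have : c = [] := by
        refine ih c ?_ (hc'.left_of_append.tail) h1
        simp only [List.length_append, List.length_cons] at hl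
        omega
      subst this
      have := (R.i3 _ _ _ _ _ _ _ (Or.inl ht) (Or.inl ht) h1 h2).2.1
      simp only [List.nil_append, List.cons_append, List.isChain_cons_cons] at hc'
      exact hc'.1 this

/-- The two tokens spelling a letter of the free group. -/
def expand (a : Bool × Bool) : List (Bool × ℕ) :=
  cond a.2 [(true, 2 * a.1.toNat), (true, 2 * a.1.toNat + 1)]
    [(false, 2 * a.1.toNat + 1), (false, 2 * a.1.toNat)]

theorem chain_expand : ∀ {L : List (Bool × Bool)}, FreeGroup.IsReduced L →
    (L.flatMap expand).IsChain (fun a b => a.2 ≠ b.2)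
  | [], _ => by simp
  | [(b, s)], _ => by cases s <;> simp [expand]
  | (b, s) :: (b', s') :: L, h => by
    rw [FreeGroup.isReduced_cons_cons] at h
    have ih := chain_expand h.2
    have h1 := h.1
    rw [List.flatMap_cons] at ih ⊢
    rw [List.flatMap_cons]
    cases b <;> cases s <;> cases b' <;> cases s' <;> simp [expand] at h1 ih ⊢ <;> exact ih

theorem st_Free : St_Free := by
  intro G _ h hn
  obtain ⟨R⟩ := rd_of_tree h
  have hinf : ∃ t, R.inf t := by
    by_contra hc
    push Not at hc
    obtain ⟨A, hA, gen, hgen, -⟩ := R.cf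
    have := R.fin
    refine hn ⟨(Subgroup.fg_iff _).2 ⟨Set.range (fun a => (gen a).1) ∪ Set.range (fun t => R.r t 0),
      ?_, (Set.finite_range _).union (Set.finite_range _)⟩⟩
    rw [eq_top_iff]
    intro g _
    refine R.gen (Subgroup.closure _).toSubmonoid ?_ ?_ g
    · intro g hg
      obtain ⟨u, hu⟩ := exists_word gen hgen ⟨g, hg⟩
      have e : g = (u.map fun a => (gen a).1).prod := by
        have := congrArg R.G0.subtype hu
        rw [map_list_prod, List.map_map] at this
        exact this.symm
      rw [e]
      refine Submonoid.list_prod_mem _ ?_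
      intro x hx
      obtain ⟨a, -, rfl⟩ := List.mem_map.1 hx
      exact Subgroup.subset_closure (Or.inl ⟨a, rfl⟩)
    · intro t n ε ha
      obtain rfl := ha.resolve_left (hc t)
      have : R.r t 0 ∈ Subgroup.closure
          (Set.range (fun a => (gen a).1) ∪ Set.range (fun t => R.r t 0)) :=
        Subgroup.subset_closure (Or.inr ⟨t, rfl⟩)
      cases ε
      exacts [Subgroup.inv_mem _ this, this]
  obtain ⟨t, ht⟩ := hinf
  refine ⟨FreeGroup.lift fun b => R.r t (2 * b.toNat) * R.r t (2 * b.toNat + 1), ?_⟩
  rw [injective_iff_map_eq_one]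
  intro w hw
  rw [← FreeGroup.mk_toWord (x := w), FreeGroup.lift_mk] at hw
  have e : ∀ L : List (Bool × Bool), ((L.flatMap expand).map fun a => sg a.1 (R.r t a.2)).prod =
      (L.map fun x => cond x.2 (R.r t (2 * x.1.toNat) * R.r t (2 * x.1.toNat + 1))
        (R.r t (2 * x.1.toNat) * R.r t (2 * x.1.toNat + 1))⁻¹).prod := by
    intro L
    induction L with
    | nil => rfl
    | cons a L ih =>
      rw [List.flatMap_cons, List.map_append, List.prod_append, ih, List.map_cons, List.prod_cons]
      obtain ⟨b, s⟩ := a
      cases s <;> simp [expand]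
  have := britton R ht _ _ le_rfl (chain_expand (FreeGroup.isReduced_toWord (x := w)))
    (by rw [e, hw]; exact R.G0.one_mem)
  rw [← FreeGroup.toWord_eq_nil_iff]
  rcases hL : w.toWord with _ | ⟨⟨b, s⟩, L⟩
  · rfl
  · rw [hL] at this
    cases s <;> simp [expand] at this

end Pool.Agent.Lib.MP_435286_al
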