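import Pool.Agent.Lib.MP_435286_al.St

/-
Parse relation of a context-free grammar, the tripod lemma and a semantic criterion for a
language to be context-free.
-/

namespace Pool.Agent.Lib.MP_435286_al

/-- `Gen g u w`: the sentential form `u` generates the word `w`. -/
inductive Gen {T : Type} (g : ContextFreeGrammar T) : List (Symbol T g.NT) → List T → Prop
  | nil : Gen g [] []
  | term (t : T) {u : List (Symbol T g.NT)} {w : List T} :
      Gen g u w → Gen g (Symbol.terminal t :: u) (t :: w)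
  | nonterm (r : ContextFreeRule T g.NT) (hr : r ∈ g.rules) {u : List (Symbol T g.NT)}
      {w1 w2 : List T} : Gen g r.output w1 → Gen g u w2 →
      Gen g (Symbol.nonterminal r.input :: u) (w1 ++ w2)

variable {T : Type} {g : ContextFreeGrammar T}

theorem Gen.append {u1 u2 : List (Symbol T g.NT)} {w1 w2 : List T} (h1 : Gen g u1 w1)
    (h2 : Gen g u2 w2) : Gen g (u1 ++ u2) (w1 ++ w2) := by
  induction h1 with
  | nil => simpa using h2
  | term t _ ih => exact Gen.term t ih
  | nonterm r hr ha _ _ ihb =>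
    rw [List.cons_append, List.append_assoc]
    exact Gen.nonterm r hr ha ihb

theorem Gen.split {u1 u2 : List (Symbol T g.NT)} {w : List T} (h : Gen g (u1 ++ u2) w) :
    ∃ w1 w2, w = w1 ++ w2 ∧ Gen g u1 w1 ∧ Gen g u2 w2 := by
  induction u1 generalizing w with
  | nil => exact ⟨[], w, rfl, Gen.nil, h⟩
  | cons a u1 ih =>
    rw [List.cons_append] at h
    cases h with
    | term t h' =>
      obtain ⟨w1, w2, rfl, a1, a2⟩ := ih h'
      exact ⟨t :: w1, w2, rfl, Gen.term t a1, a2⟩
    | nonterm r hr ha hb =>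
      obtain ⟨w1, w2, rfl, a1, a2⟩ := ih hb
      exact ⟨_ ++ w1, w2, by rw [List.append_assoc], Gen.nonterm r hr ha a1, a2⟩

theorem Gen.derives {u : List (Symbol T g.NT)} {w : List T} (h : Gen g u w) :
    g.Derives u (w.map Symbol.terminal) := by
  induction h with
  | nil => exact ContextFreeGrammar.Derives.refl _
  | term t _ ih => exact ContextFreeGrammar.Derives.append_left ih [Symbol.terminal t]
  | @nonterm r hr u w1 w2 _ _ iha ihb =>
    have h1 : g.Produces ([Symbol.nonterminal r.input] ++ u) (r.output ++ u) :=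
      ContextFreeGrammar.Produces.append_right ⟨r, hr, ContextFreeRule.Rewrites.input_output⟩ u
    rw [List.map_append]
    exact (h1.trans_derives (iha.append_right u)).trans (ihb.append_left _)

theorem gen_terminals (w : List T) : Gen g (w.map Symbol.terminal) w := by
  induction w with
  | nil => exact Gen.nil
  | cons a w ih => exact Gen.term a ih

theorem gen_of_derives {u : List (Symbol T g.NT)} {w : List T}
    (h : g.Derives u (w.map Symbol.terminal)) : Gen g u w := by
  induction h using Relation.ReflTransGen.head_induction_on with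
  | refl => exact gen_terminals w
  | head hp _ ih =>
    obtain ⟨r, hr, hrw⟩ := hp
    obtain ⟨p, q, rfl, rfl⟩ := hrw.exists_parts
    obtain ⟨w12, w3, rfl, h12, h3⟩ := ih.split
    obtain ⟨w1, w2, rfl, h1, h2⟩ := h12.split
    rw [List.append_assoc, List.append_assoc]
    exact h1.append (Gen.nonterm r hr h2 h3)

theorem mem_language_iff_gen (w : List T) :
    w ∈ g.language ↔ Gen g [Symbol.nonterminal g.initial] w :=
  ⟨fun h => gen_of_derives h, fun h => h.derives⟩

/-- The tripod property of a language. -/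
def TP {T : Type} (L : Set (List T)) : Prop :=
  ∃ (ι : Type) (_ : Finite ι) (Y Z : ι → Set (List T)) (C : ι → Set (List T × List T)),
    (∀ i s t y z, (s, t) ∈ C i → y ∈ Y i → z ∈ Z i → s ++ y ++ z ++ t ∈ L) ∧
    ∀ x1 x2 x3, x1 ++ x2 ++ x3 ∈ L → ∃ i a1 b1 a2 b2 a3 b3, x1 = a1 ++ b1 ∧ x2 = a2 ++ b2 ∧
      x3 = a3 ++ b3 ∧ (a1, b3) ∈ C i ∧ b1 ++ a2 ∈ Y i ∧ b2 ++ a3 ∈ Z i

/-- Tails of right-hand sides. -/
def Tl (g : ContextFreeGrammar T) : Set (List (Symbol T g.NT)) :=
  {u | (∃ p, [Symbol.nonterminal g.initial] = p ++ u) ∨ ∃ r ∈ g.rules, ∃ p, r.output = p ++ u}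

/-- Heads: empty or one left-hand side. -/
def Hd (g : ContextFreeGrammar T) : Set (List (Symbol T g.NT)) :=
  {u | u = [] ∨ ∃ r ∈ g.rules, u = [Symbol.nonterminal r.input]}

theorem finite_tails {α : Type} (l : List α) : {u | ∃ p, l = p ++ u}.Finite := by
  refine (l.tails.finite_toSet).subset ?_
  rintro u ⟨p, rfl⟩
  simp

theorem Tl_finite : (Tl g).Finite := by
  have h1 := finite_tails [Symbol.nonterminal (T := T) g.initial]
  have h2 : (⋃ r ∈ (g.rules : Set (ContextFreeRule T g.NT)), {u | ∃ p, r.output = p ++ u}).Finite :=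
    g.rules.finite_toSet.biUnion fun r _ => finite_tails _
  refine (h1.union h2).subset ?_
  rintro u (h | ⟨r, hr, h⟩)
  · exact Or.inl h
  · exact Or.inr (Set.mem_biUnion hr h)

theorem Hd_finite : (Hd g).Finite := by
  have h2 : ((fun r : ContextFreeRule T g.NT => [Symbol.nonterminal (T := T) r.input]) ''
      (g.rules : Set (ContextFreeRule T g.NT))).Finite := g.rules.finite_toSet.image _
  refine (h2.insert []).subset ?_
  rintro u (h | ⟨r, hr, h⟩)
  · exact Or.inl h
  · exact Or.inr ⟨r, hr, h.symm⟩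

theorem Tl_tail {a : Symbol T g.NT} {u : List (Symbol T g.NT)} (h : a :: u ∈ Tl g) :
    u ∈ Tl g := by
  rcases h with ⟨p, hp⟩ | ⟨r, hr, p, hp⟩
  · exact Or.inl ⟨p ++ [a], by simpa using hp⟩
  · exact Or.inr ⟨r, hr, p ++ [a], by simpa using hp⟩

theorem tripod_aux (L : Set (List T)) {u : List (Symbol T g.NT)} {w : List T} (h : Gen g u w) :
    u ∈ Tl g → ∀ s t : List T, (∀ w', Gen g u w' → s ++ w' ++ t ∈ L) →
    ∀ x1 x2 x3, w = x1 ++ x2 ++ x3 → ∃ u1 ∈ Hd g, ∃ u2 ∈ Tl g, ∃ a1 b1 a2 b2 a3 b3,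
      x1 = a1 ++ b1 ∧ x2 = a2 ++ b2 ∧ x3 = a3 ++ b3 ∧
      (∀ w', Gen g (u1 ++ u2) w' → (s ++ a1) ++ w' ++ (b3 ++ t) ∈ L) ∧
      Gen g u1 (b1 ++ a2) ∧ Gen g u2 (b2 ++ a3) := by
  have triv : ∀ (u : List (Symbol T g.NT)) (x2 x3 : List T), Gen g u (x2 ++ x3) → u ∈ Tl g →
      ∀ s t : List T, (∀ w', Gen g u w' → s ++ w' ++ t ∈ L) →
      ∃ u1 ∈ Hd g, ∃ u2 ∈ Tl g, ∃ a1 b1 a2 b2 a3 b3,
      ([] : List T) = a1 ++ b1 ∧ x2 = a2 ++ b2 ∧ x3 = a3 ++ b3 ∧
      (∀ w', Gen g (u1 ++ u2) w' → (s ++ a1) ++ w' ++ (b3 ++ t) ∈ L) ∧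
      Gen g u1 (b1 ++ a2) ∧ Gen g u2 (b2 ++ a3) := by
    intro u x2 x3 hg hu s t hc
    refine ⟨[], Or.inl rfl, u, hu, [], [], [], x2, x3, [], rfl, rfl, by simp, ?_, Gen.nil, hg⟩
    intro w' hw'
    simpa using hc w' hw'
  induction h with
  | nil =>
    intro hu s t hc x1 x2 x3 hx
    have h1 : x1 = [] := by
      have := congrArg List.length hx
      simp only [List.length_nil, List.length_append] at this
      exact List.eq_nil_of_length_eq_zero (by omega)
    subst h1
    refine triv [] x2 x3 ?_ hu s t hc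
    rw [List.nil_append] at hx
    rw [← hx]; exact Gen.nil
  | @term a u w hg ih =>
    intro hu s t hc x1 x2 x3 hx
    cases x1 with
    | nil =>
      refine triv _ x2 x3 ?_ hu s t hc
      rw [List.nil_append] at hx
      rw [← hx]; exact Gen.term a hg
    | cons b x1 =>
      simp only [List.cons_append, List.cons.injEq] at hx
      obtain ⟨rfl, hx⟩ := hx
      obtain ⟨u1, h1, u2, h2, a1, b1, a2, b2, a3, b3, e1, e2, e3, hc', g1, g2⟩ :=
        ih (Tl_tail hu) (s ++ [a]) t (fun w' hw' => by simpa using hc _ (Gen.term a hw'))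
          x1 x2 x3 hx
      refine ⟨u1, h1, u2, h2, a :: a1, b1, a2, b2, a3, b3, by simp [e1], e2, e3, ?_, g1, g2⟩
      intro w' hw'
      simpa using hc' w' hw'
  | @nonterm r hr u w1 w2 ga gb iha ihb =>
    intro hu s t hc x1 x2 x3 hx
    rcases List.append_eq_append_iff.1 hx with ⟨c, hc1, hc2⟩ | ⟨c, hc1, hc2⟩
    · -- x1 ++ x2 = w1 ++ c, w2 = c ++ x3
      rcases List.append_eq_append_iff.1 hc1 with ⟨d, hd1, hd2⟩ | ⟨d, hd1, hd2⟩
      · -- w1 = x1 ++ d, x2 = d ++ c
        refine ⟨[Symbol.nonterminal r.input], Or.inr ⟨r, hr, rfl⟩, u, Tl_tail hu, [], x1, d, c, x3,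
          [], rfl, hd2, by simp, ?_, ?_, hc2 ▸ gb⟩
        · intro w' hw'
          simpa using hc w' hw'
        · have := Gen.nonterm r hr ga (Gen.nil (g := g))
          rw [List.append_nil, hd1] at this
          exact this
      · -- x1 = w1 ++ d, c = d ++ x2
        obtain ⟨u1, h1, u2, h2, a1, b1, a2, b2, a3, b3, e1, e2, e3, hc', g1, g2⟩ :=
          ihb (Tl_tail hu) (s ++ w1) t
            (fun w' hw' => by simpa using hc _ (Gen.nonterm r hr ga hw')) d x2 x3
            (by rw [hc2, hd2])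
        refine ⟨u1, h1, u2, h2, w1 ++ a1, b1, a2, b2, a3, b3, by simp [hd1, e1], e2, e3, ?_, g1, g2⟩
        intro w' hw'
        simpa using hc' w' hw'
    · -- w1 = x1 ++ x2 ++ c, x3 = c ++ w2
      obtain ⟨u1, h1, u2, h2, a1, b1, a2, b2, a3, b3, e1, e2, e3, hc', g1, g2⟩ :=
        iha (Or.inr ⟨r, hr, [], rfl⟩) s (w2 ++ t)
          (fun w' hw' => by simpa using hc _ (Gen.nonterm r hr hw' gb)) x1 x2 c hc1
      refine ⟨u1, h1, u2, h2, a1, b1, a2, b2, a3, b3 ++ w2, e1, e2, by simp [hc2, e3], ?_, g1, g2⟩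
      intro w' hw'
      simpa using hc' w' hw'

theorem tp_of_cf {L : Language T} (hL : L.IsContextFree) : TP L := by
  obtain ⟨g, rfl⟩ := hL
  have : Finite (Hd g) := Hd_finite.to_subtype
  have : Finite (Tl g) := Tl_finite.to_subtype
  refine ⟨Hd g × Tl g, inferInstance, fun i => {y | Gen g i.1.1 y}, fun i => {z | Gen g i.2.1 z},
    fun i => {p | ∀ w', Gen g (i.1.1 ++ i.2.1) w' → p.1 ++ w' ++ p.2 ∈ g.language}, ?_, ?_⟩
  · intro i s t y z hc hy hz
    have := hc _ (Gen.append hy hz)
    simp only [List.append_assoc] at this ⊢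
    exact this
  · intro x1 x2 x3 hx
    obtain ⟨u1, h1, u2, h2, a1, b1, a2, b2, a3, b3, e1, e2, e3, hc', g1, g2⟩ :=
      tripod_aux g.language ((mem_language_iff_gen _).1 hx) (Or.inl ⟨[], rfl⟩) [] []
        (fun w' hw' => by
          simp only [List.nil_append, List.append_nil]
          exact (mem_language_iff_gen _).2 hw')
        x1 x2 x3 rfl
    refine ⟨(⟨u1, h1⟩, ⟨u2, h2⟩), a1, b1, a2, b2, a3, b3, e1, e2, e3, ?_, g1, g2⟩
    intro w' hw'
    have := hc' w' hw'
    simp only [List.nil_append, List.append_nil] at this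
    exact this

/-- Meaning of a sentential form when nonterminals are read as given languages. -/
def Sem {T N : Type} (sem : N → Set (List T)) : List (Symbol T N) → List T → Prop
  | [], w => w = []
  | Symbol.terminal t :: u, w => ∃ w', w = t :: w' ∧ Sem sem u w'
  | Symbol.nonterminal X :: u, w => ∃ w1 w2, w = w1 ++ w2 ∧ w1 ∈ sem X ∧ Sem sem u w2

theorem cf_of_sem {N : Type} (R : Set (ContextFreeRule T N)) (hR : R.Finite) (S : N)
    (sem : N → Set (List T)) (μ : N → List T → ℕ)
    (sound : ∀ r ∈ R, ∀ w, Sem sem r.output w → w ∈ sem r.input)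
    (complete : ∀ X w, w ∈ sem X → ∃ r ∈ R, r.input = X ∧
      Sem (fun Y => {y | y ∈ sem Y ∧ μ Y y < μ X w}) r.output w) :
    Language.IsContextFree (sem S) := by
  let g : ContextFreeGrammar T := ⟨N, S, hR.toFinset⟩
  have h1 : ∀ (u : List (Symbol T g.NT)) (w : List T), Gen g u w → Sem sem u w := by
    intro u w h
    induction h with
    | nil => rfl
    | term t _ ih => exact ⟨_, rfl, ih⟩
    | nonterm r hr _ _ iha ihb =>
      exact ⟨_, _, rfl, sound r (hR.mem_toFinset.1 hr) _ iha, ihb⟩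
  have h2 : ∀ (m : ℕ) (X : N) (w : List T), μ X w < m → w ∈ sem X →
      Gen g [Symbol.nonterminal X] w := by
    intro m
    induction m with
    | zero => intro X w h; omega
    | succ m ih =>
      intro X w hm hw
      obtain ⟨r, hr, rfl, hs⟩ := complete X w hw
      have h3 : ∀ (u : List (Symbol T N)) (y : List T),
          Sem (fun Y => {y | y ∈ sem Y ∧ μ Y y < μ r.input w}) u y → Gen g u y := by
        intro u
        induction u with
        | nil => intro y hy; rw [show y = [] from hy]; exact Gen.nil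
        | cons a u ihu =>
          intro y hy
          cases a with
          | terminal t =>
            obtain ⟨w', rfl, h'⟩ := hy
            exact Gen.term t (ihu _ h')
          | nonterminal Y =>
            obtain ⟨w1, w2, rfl, ⟨ha, hb⟩, h'⟩ := hy
            exact Gen.append (ih Y w1 (by omega) ha) (ihu _ h')
      have := Gen.nonterm (g := g) r (hR.mem_toFinset.2 hr) (h3 _ _ hs) Gen.nil
      rwa [List.append_nil] at this
  refine ⟨g, ?_⟩
  ext w
  rw [mem_language_iff_gen]
  constructor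
  · intro h
    obtain ⟨w1, w2, rfl, ha, hb⟩ := h1 _ _ h
    rw [show w2 = [] from hb, List.append_nil]
    exact ha
  · intro h
    exact h2 _ S w (Nat.lt_succ_self _) h

end Pool.Agent.Lib.MP_435286_al
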