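import Pool.Agent.Lib.MP_435286_al.Mach

/-
Languages of item lists for the transition monoid of the stack machine.
-/

namespace Pool.Agent.Lib.MP_435286_al

section semL
variable {T N : Type}

/-- The language of a sentential form. -/
def SemL (sem : N → Set (List T)) (u : List (Symbol T N)) : Language T := {w | Sem sem u w}

theorem semL_append (sem : N → Set (List T)) (u v : List (Symbol T N)) :
    SemL sem (u ++ v) = SemL sem u * SemL sem v := by
  ext w
  rw [Language.mem_mul]
  induction u generalizing w with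
  | nil =>
    constructor
    · intro h; exact ⟨[], rfl, w, h, rfl⟩
    · rintro ⟨_, rfl, b, hb, rfl⟩; exact hb
  | cons x u ih =>
    cases x with
    | terminal t =>
      constructor
      · rintro ⟨w', rfl, h⟩
        obtain ⟨a, ha, b, hb, rfl⟩ := (ih w').1 h
        exact ⟨t :: a, ⟨a, rfl, ha⟩, b, hb, rfl⟩
      · rintro ⟨_, ⟨a, rfl, ha⟩, b, hb, rfl⟩
        exact ⟨a ++ b, rfl, (ih _).2 ⟨a, ha, b, hb, rfl⟩⟩
    | nonterminal X =>
      constructor
      · rintro ⟨w1, w', rfl, h1, h⟩
        obtain ⟨a, ha, b, hb, rfl⟩ := (ih w').1 h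
        exact ⟨w1 ++ a, ⟨w1, a, rfl, h1, ha⟩, b, hb, by simp⟩
      · rintro ⟨_, ⟨w1, a, rfl, h1, ha⟩, b, hb, rfl⟩
        exact ⟨w1, a ++ b, by simp, h1, (ih _).2 ⟨a, ha, b, hb, rfl⟩⟩

theorem semL_term (sem : N → Set (List T)) (t : T) : SemL sem [Symbol.terminal t] = lt1 t := by
  ext w
  constructor
  · rintro ⟨_, rfl, rfl⟩; rfl
  · rintro rfl; exact ⟨[], rfl, rfl⟩

theorem semL_nt (sem : N → Set (List T)) (X : N) : SemL sem [Symbol.nonterminal X] = sem X := by
  ext w
  constructor
  · rintro ⟨a, _, rfl, h, rfl⟩; rw [List.append_nil]; exact h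
  · intro h; exact ⟨w, [], by simp, h, rfl⟩

theorem sem_lt {sem : N → Set (List T)} {m : ℕ} : ∀ {u : List (Symbol T N)} {w : List T},
    Sem sem u w → w.length < m → Sem (fun Y => {y | y ∈ sem Y ∧ y.length < m}) u w
  | [], _, h, _ => h
  | Symbol.terminal _ :: _, _, ⟨w', e, h⟩, hm =>
    ⟨w', e, sem_lt h (by rw [e, List.length_cons] at hm; omega)⟩
  | Symbol.nonterminal _ :: _, _, ⟨w1, w2, e, h1, h⟩, hm =>
    ⟨w1, w2, e, ⟨h1, by rw [e, List.length_append] at hm; omega⟩,
      sem_lt h (by rw [e, List.length_append] at hm; omega)⟩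

theorem sem_pos {sem : N → Set (List T)} {t : T} : ∀ {u : List (Symbol T N)} {w : List T},
    Sem sem u w → Symbol.terminal t ∈ u → 0 < w.length
  | [], _, _, h => by simp at h
  | Symbol.terminal _ :: _, _, ⟨w', e, _⟩, _ => by rw [e]; simp
  | Symbol.nonterminal _ :: _, _, ⟨w1, w2, e, _, h⟩, hm => by
    have := sem_pos h (by simpa using hm)
    rw [e, List.length_append]; omega

theorem sem_le {sem : N → Set (List T)} {m : ℕ} {t : T} : ∀ {u : List (Symbol T N)} {w : List T},
    Sem sem u w → Symbol.terminal t ∈ u → w.length ≤ m →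
    Sem (fun Y => {y | y ∈ sem Y ∧ y.length < m}) u w
  | [], _, h, _, _ => h
  | Symbol.terminal _ :: _, _, ⟨w', e, h⟩, _, hm =>
    ⟨w', e, sem_lt h (by rw [e, List.length_cons] at hm; omega)⟩
  | Symbol.nonterminal _ :: _, _, ⟨w1, w2, e, h1, h⟩, ht, hm => by
    have h2 := sem_pos h (t := t) (by simpa using ht)
    rw [e, List.length_append] at hm
    exact ⟨w1, w2, e, ⟨h1, by omega⟩, sem_le h (t := t) (by simpa using ht) (by omega)⟩

end semL

theorem atoms {G α : Type} [Group G] (R : RD G) (val : α → G) : ∀ (m : ℕ) (l : List α),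
    l.length ≤ m → (∀ x ∈ l, val x ∈ R.G0 ∨ val x ∈ R.S) → (l.map val).prod ∈ R.G0 →
    ∃ LL : List (List α), l = LL.flatten ∧ ∀ a ∈ LL, (∃ z, a = [z] ∧ val z ∈ R.G0) ∨
      ∃ x c y, a = x :: c ++ [y] ∧ val x ∉ R.G0 ∧ val y ∉ R.G0 ∧ (c.map val).prod ∈ R.G0 ∧
        val x * (c.map val).prod * val y ∈ R.G0 := by
  classical
  intro m
  induction m with
  | zero =>
    intro l hl _ _
    exact ⟨[], List.eq_nil_of_length_eq_zero (by omega), by simp⟩
  | succ m ih =>
    intro l hl hv hp
    cases l with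
    | nil => exact ⟨[], rfl, by simp⟩
    | cons x l =>
      rw [List.map_cons, List.prod_cons] at hp
      rw [List.length_cons] at hl
      by_cases hx : val x ∈ R.G0
      · obtain ⟨LL, rfl, h⟩ := ih l (by omega) (fun y hy => hv y (List.mem_cons_of_mem _ hy))
          ((R.G0.mul_mem_cancel_left hx).1 hp)
        refine ⟨[x] :: LL, by simp, ?_⟩
        intro a ha
        rcases List.mem_cons.1 ha with rfl | ha
        exacts [Or.inl ⟨x, rfl, hx⟩, h a ha]
      · have hex : ∃ j, val x * ((l.take j).map val).prod ∈ R.G0 := ⟨l.length, by simpa using hp⟩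
        have hj := Nat.find_spec hex
        have hmin := fun i => Nat.find_min hex (m := i)
        have hle : Nat.find hex ≤ l.length := Nat.find_min' hex (by simpa using hp)
        generalize Nat.find hex = j at hj hmin hle
        cases j with
        | zero => exact absurd (by simpa using hj) hx
        | succ i =>
          have hi : i < l.length := by omega
          have e : l.take (i + 1) = l.take i ++ [l[i]] := by
            rw [List.take_add_one, List.getElem?_eq_getElem hi]; rfl
          rw [e, List.map_append, List.prod_append, List.map_singleton, List.prod_singleton,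
            ← mul_assoc] at hj
          have hy : val l[i] ∉ R.G0 := fun h =>
            hmin i (by omega) ((R.G0.mul_mem_cancel_right h).1 hj)
          have hc : ((l.take i).map val).prod ∈ R.G0 := by
            refine R.exc (val x) _ (val l[i]) ((hv x List.mem_cons_self).resolve_left hx) ?_
              ((hv _ (List.mem_cons_of_mem _ (List.getElem_mem hi))).resolve_left hy) ?_ hj
            · intro z hz
              obtain ⟨y, hy, rfl⟩ := List.mem_map.1 hz
              exact hv y (List.mem_cons_of_mem _ (List.mem_of_mem_take hy))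
            · intro j
              rw [← List.map_take, List.take_take]
              exact hmin _ (by omega)
          have e2 : l = l.take i ++ [l[i]] ++ l.drop (i + 1) := by
            rw [← e, List.take_append_drop]
          obtain ⟨LL, h1, h⟩ := ih (l.drop (i + 1)) (by rw [List.length_drop]; omega)
            (fun y hy => hv y (List.mem_cons_of_mem _ (List.mem_of_mem_drop hy))) (by
              rw [e2, List.map_append, List.prod_append, List.map_append, List.prod_append,
                List.map_singleton, List.prod_singleton, ← mul_assoc, ← mul_assoc] at hp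
              exact (R.G0.mul_mem_cancel_left hj).1 hp)
          refine ⟨(x :: l.take i ++ [l[i]]) :: LL, ?_, ?_⟩
          · rw [List.flatten_cons, ← h1, List.cons_append, List.cons_append, ← e2]
          · intro a ha
            rcases List.mem_cons.1 ha with rfl | ha
            exacts [Or.inr ⟨x, _, _, rfl, hx, hy, hc, hj⟩, h a ha]

theorem comb_left (σ : Option Bool) : Comb (some (σ.getD false)) σ σ := by
  rcases σ with _ | b <;> simp [Comb]

theorem comb_right (σ : Option Bool) : Comb σ (some (σ.getD true)) σ := by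
  rcases σ with _ | b <;> simp [Comb]

theorem Shp.exc {α : Type} {sd : α → Option Bool} {σ : Option Bool} {x y : α} {c : List α}
    {s1 s2 : Bool} (h : Shp sd σ (x :: c ++ [y])) (h1 : sd x = some s1) (h2 : sd y = some s2) :
    s1 = σ.getD false ∧ s2 = σ.getD true ∧ Shp sd σ c := by
  obtain ⟨σ1, σ2, c1, a1, a2⟩ := Shp.split (l1 := x :: c) h
  obtain ⟨σ3, σ4, c2, a3, a4⟩ := Shp.split (l1 := [x]) (l2 := c) a1
  rw [Shp.single_iff, h1] at a3
  rw [Shp.single_iff, h2] at a2
  subst a3 a2
  rcases c1 with ⟨rfl, rfl, -⟩ | ⟨-, -, h⟩ | ⟨rfl, rfl, h⟩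
  · rcases c2 with ⟨h, rfl, -⟩ | ⟨h, -⟩ | ⟨h, -⟩
    · exact ⟨by simpa using h, rfl, a4⟩
    · simp at h
    · simp at h
  · simp at h
  · rcases c2 with ⟨h, -⟩ | ⟨-, h', rfl⟩ | ⟨-, h, -⟩
    · simp at h
    · exact ⟨by simpa using h', by simpa using h, a4⟩
    · simp at h

section lang
variable {G A τ : Type} [Group G] (D : MD G A τ)

/-- A word read on the left of the marker, or reversed on its right. -/
def emb {α : Type} (s : Bool) (u : List α) : List (Option α) :=
  cond s (u.reverse.map some) (u.map some)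

/-- The same for languages. -/
def embL {α : Type} (s : Bool) (L : Language α) : Language (Option α) :=
  cond s (Language.map some L.reverse) (Language.map some L)

theorem mem_embL {α : Type} (s : Bool) (L : Language α) (w : List (Option α)) :
    w ∈ embL s L ↔ ∃ u ∈ L, w = emb s u := by
  cases s
  · constructor
    · rintro ⟨u, hu, rfl⟩; exact ⟨u, hu, rfl⟩
    · rintro ⟨u, hu, rfl⟩; exact ⟨u, hu, rfl⟩
  · constructor
    · rintro ⟨u, hu, rfl⟩; exact ⟨u.reverse, hu, by simp [emb]⟩
    · rintro ⟨u, hu, rfl⟩; exact ⟨u.reverse, Language.reverse_mem_reverse.2 hu, rfl⟩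

theorem map_lt1 {α : Type} (x : α) : Language.map some (lt1 x) = lt1 (some x) := by
  ext w
  constructor
  · rintro ⟨_, rfl, rfl⟩; rfl
  · rintro rfl; exact ⟨[x], rfl, rfl⟩

theorem reverse_lt1 {α : Type} (x : α) : (lt1 x).reverse = lt1 x := by
  ext w
  rw [Language.mem_reverse]
  exact List.reverse_eq_iff

/-- Items: a token on the left, a reversed token on the right, or the central block. -/
def Item (x : Option Bool × List (Option (Let A τ)) × G) : Prop :=
  (∃ s u g, x.1 = some s ∧ Tok D u g ∧ x.2.1 = emb s u ∧ x.2.2 = sg (!s) g) ∨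
  (x.1 = none ∧ x.2.2 = 1 ∧
    (x.2.1 = [none] ∨ ∃ y, ∃ w ∈ WP (genM D), x.2.1 = some y :: w ++ [some y]))

/-- Words of item lists with given shape and value. -/
def XL (σ : Option Bool) (g : G) : Language (Option (Let A τ)) :=
  {w | ∃ l : List (Option Bool × List (Option (Let A τ)) × G), (∀ x ∈ l, Item D x) ∧
    Shp Prod.fst σ l ∧ w = (l.map fun x => x.2.1).flatten ∧ (l.map fun x => x.2.2).prod = g}

variable {D}

theorem XL_append {σ1 σ2 σ : Option Bool} (hc : Comb σ1 σ2 σ) {w1 w2 : List (Option (Let A τ))}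
    {g1 g2 : G} (h1 : w1 ∈ XL D σ1 g1) (h2 : w2 ∈ XL D σ2 g2) : w1 ++ w2 ∈ XL D σ (g1 * g2) := by
  obtain ⟨l1, a1, a2, rfl, rfl⟩ := h1
  obtain ⟨l2, b1, b2, rfl, rfl⟩ := h2
  refine ⟨l1 ++ l2, ?_, Shp.append hc a2 b2, by simp, by simp⟩
  intro x hx
  rcases List.mem_append.1 hx with hx | hx
  exacts [a1 x hx, b1 x hx]

theorem XL_single {σ : Option Bool} {w : List (Option (Let A τ))} {g : G} (h : Item D (σ, w, g)) :
    w ∈ XL D σ g :=
  ⟨[(σ, w, g)], by simpa using h, Shp.single_iff.2 rfl, by simp, by simp⟩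

theorem XL_nil (s : Bool) : [] ∈ XL D (some s) 1 :=
  ⟨[], by simp, Shp.nil_iff.2 (by simp), rfl, rfl⟩

theorem XL_of_toks (s : Bool) {u : List (Let A τ)} {g : G} (h : Toks D u g) :
    emb s u ∈ XL D (some s) (sg (!s) g) := by
  induction h with
  | nil => cases s <;> simpa [emb] using XL_nil _
  | @snoc u w g g' _ h ih =>
    have h1 : emb s w ∈ XL D (some s) (sg (!s) g') := XL_single (Or.inl ⟨s, w, g', rfl, h, rfl, rfl⟩)
    have hc : Comb (some s) (some s) (some s) := Or.inl ⟨rfl, rfl, by simp⟩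
    cases s
    · simpa [emb] using XL_append hc ih h1
    · simpa [emb] using XL_append hc h1 ih

theorem toks_of_XL {s : Bool} {w : List (Option (Let A τ))} {g : G} (h : w ∈ XL D (some s) g) :
    ∃ u, Toks D u (sg (!s) g) ∧ w = emb s u := by
  obtain ⟨l, a1, a2, rfl, rfl⟩ := h
  induction l with
  | nil => exact ⟨[], by cases s <;> simpa using Toks.nil, by cases s <;> rfl⟩
  | cons x l ih =>
    obtain ⟨u, h1, h2⟩ := ih (fun y hy => a1 y (List.mem_cons_of_mem _ hy))
      (fun y hy => a2 y (List.mem_cons_of_mem _ hy))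
    have hx : x.1 = some s := a2 x List.mem_cons_self
    rcases a1 x List.mem_cons_self with ⟨s', u', g', b1, b2, b3, b4⟩ | ⟨b1, -⟩
    · obtain rfl : s' = s := by simpa [b1] using hx
      rw [List.map_cons, List.map_cons, List.prod_cons, List.flatten_cons, h2, b3, b4]
      cases s'
      · exact ⟨u' ++ u, b2.toks.append h1, by simp [emb]⟩
      · exact ⟨u ++ u', by simpa using h1.append b2.toks, by simp [emb]⟩
    · simp [b1] at hx

theorem XL_one (s : Bool) : XL D (some s) 1 = embL s (UM D) := by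
  ext w
  rw [mem_embL]
  constructor
  · intro h
    obtain ⟨u, h1, h2⟩ := toks_of_XL h
    have h3 : Inv D u 1 := by cases s <;> simpa using h1.inv
    exact ⟨u, h3, h2⟩
  · rintro ⟨u, hu, rfl⟩
    have := XL_of_toks s (Inv.toks hu)
    cases s <;> simpa using this

theorem XL_WP : XL D none 1 = WP (genM D) := by
  ext w
  constructor
  · rintro ⟨_, a1, ⟨l1, x, l2, rfl, b1, b2, b3⟩, rfl, hp⟩
    obtain ⟨u, c1, c2⟩ := toks_of_XL (D := D) (s := false)
      ⟨l1, fun y hy => a1 y (by simp [hy]), b2, rfl, rfl⟩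
    obtain ⟨v, d1, d2⟩ := toks_of_XL (D := D) (s := true)
      ⟨l2, fun y hy => a1 y (by simp [hy]), b3, rfl, rfl⟩
    rcases a1 x (by simp) with ⟨s, _, _, e1, -⟩ | ⟨-, e2, e3⟩
    · simp [b1] at e1
    rw [List.map_append, List.map_cons, List.prod_append, List.prod_cons, e2, one_mul] at hp
    simp only [Bool.not_false, sg_true, Bool.not_true, sg_false] at c1 d1
    rw [← eq_inv_of_mul_eq_one_left hp] at d1
    rw [List.map_append, List.map_cons, List.flatten_append, List.flatten_cons, c2, d2]
    rcases e3 with e3 | ⟨y, _, ⟨u', v', rfl, e4⟩, e3⟩ <;> rw [e3]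
    · exact ⟨u, v, by simp [emb], (prod_eq_iff D _ _).2 fun ω => by rw [c1.inv, d1.inv]⟩
    · refine ⟨u ++ y :: u', v ++ y :: v', by simp [emb], (prod_eq_iff D _ _).2 fun ω => ?_⟩
      rw [run_append, run_append, run_cons, run_cons, c1.inv, d1.inv, (prod_eq_iff D _ _).1 e4]
  · rintro ⟨u, v, rfl, h⟩
    have c1 : Comb (some false) none none := comb_left none
    have c2 : Comb none (some true) none := comb_right none
    rcases ((prod_eq_iff D _ _).1 h).common with ⟨g, a1, a2⟩ |
      ⟨u0, v0, g, x, u', v', rfl, rfl, a1, a2, a3⟩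
    · have := XL_append c1 (XL_of_toks false a1) (XL_append c2
        (XL_single (D := D) (σ := none) (w := [none]) (g := 1) (Or.inr ⟨rfl, rfl, Or.inl rfl⟩))
        (XL_of_toks true a2))
      simpa [emb] using this
    · have := XL_append c1 (XL_of_toks false a1) (XL_append c2
        (XL_single (D := D) (σ := none) (g := 1) (Or.inr ⟨rfl, rfl, Or.inr ⟨x, _,
          ⟨u', v', rfl, (prod_eq_iff D _ _).2 a3⟩, rfl⟩⟩)) (XL_of_toks true a2))
      simpa [emb] using this

variable (D)

/-- Beginning of a token. -/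
def Pre (s : Bool) (t : τ) (ε : Bool) : Language (Option (Let A τ)) :=
  cond s (lt1 (some (Let.cl t ε))) (lt1 (some Let.op) * XL D (some false) 1)

/-- End of a token. -/
def Post (s : Bool) (t : τ) (ε : Bool) : Language (Option (Let A τ)) :=
  cond s (XL D (some true) 1 * lt1 (some Let.op)) (lt1 (some (Let.cl t ε)))

/-- Repeated part of a token. -/
def Rp (s : Bool) : Language (Option (Let A τ)) :=
  cond s (XL D (some true) 1 * lt1 (some Let.mid)) (lt1 (some Let.mid) * XL D (some false) 1)

theorem tok_lang (s : Bool) (t : τ) (ε : Bool) (n : ℕ) :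
    embL s (TokM D t ε n) = Pre D s t ε * Rp D s ^ n * Post D s t ε := by
  cases s
  · simp only [Pre, Post, Rp, XL_one, embL, cond_false, TokM, RM, map_mul, map_pow, map_lt1]
  · simp only [Pre, Post, Rp, XL_one, embL, cond_true, TokM, RM, Language.reverse_mul,
      Language.reverse_pow, reverse_lt1, map_mul, map_pow, map_lt1, mul_assoc]

variable {D}

theorem sg_sg (s ε : Bool) (x : G) : sg (!s) (sg ε x) = sg (cond s (!ε) ε) x := by
  cases s <;> cases ε <;> simp

theorem Item.ne_nil {x : Option Bool × List (Option (Let A τ)) × G} (h : Item D x) :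
    x.2.1 ≠ [] := by
  rcases h with ⟨s, u, g, -, h, e, -⟩ | ⟨-, -, e | ⟨y, w, -, e⟩⟩ <;> rw [e]
  · have := h.ne_nil
    cases s <;> simpa [emb] using this
  · simp
  · simp

theorem Item.cases {x : Option Bool × List (Option (Let A τ)) × G} (h : Item D x) :
    (∃ s a, x = (some s, [some (Let.g a)], sg (!s) (D.v0 a))) ∨
    (∃ s t ε n, (D.inf t ∨ n = 0) ∧ x.1 = some s ∧
      x.2.1 ∈ Pre D s t ε * Rp D s ^ n * Post D s t ε ∧ x.2.2 = sg (cond s (!ε) ε) (D.r t n)) ∨
    (x.1 = none ∧ x.2.2 = 1 ∧
      (x.2.1 = [none] ∨ ∃ y, ∃ w ∈ XL D none 1, x.2.1 = some y :: w ++ [some y])) := by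
  rcases h with ⟨s, u, g, e1, ⟨a, rfl, rfl⟩ | ⟨t, ε, n, ha, hu, rfl⟩, e2, e3⟩ | h
  · refine Or.inl ⟨s, a, Prod.ext e1 (Prod.ext ?_ e3)⟩
    rw [e2]; cases s <;> rfl
  · refine Or.inr (Or.inl ⟨s, t, ε, n, ha, e1, ?_, by rw [e3, sg_sg]⟩)
    rw [← tok_lang, mem_embL]
    exact ⟨u, hu, e2⟩
  · rw [XL_WP]; exact Or.inr (Or.inr h)

theorem item_tok {s : Bool} {t : τ} {ε : Bool} {n : ℕ} (ha : D.inf t ∨ n = 0)
    {w : List (Option (Let A τ))} (hw : w ∈ Pre D s t ε * Rp D s ^ n * Post D s t ε) :
    w ∈ XL D (some s) (sg (cond s (!ε) ε) (D.r t n)) := by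
  rw [← tok_lang, mem_embL] at hw
  obtain ⟨u, hu, rfl⟩ := hw
  exact XL_single (Or.inl ⟨s, u, _, rfl, Or.inr ⟨t, ε, n, ha, hu, rfl⟩, rfl, (sg_sg _ _ _).symm⟩)

end lang

end Pool.Agent.Lib.MP_435286_al
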