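import Pool.Agent.Lib.MP_435286_al.Reps

/-
The stack machine whose transition monoid realises the group as a unit group.
-/

namespace Pool.Agent.Lib.MP_435286_al

/-- Letters: generators of the base group, an opening letter, a counting letter, closing letters. -/
inductive Let (A τ : Type) : Type
  | g (a : A) : Let A τ
  | op : Let A τ
  | mid : Let A τ
  | cl (t : τ) (ε : Bool) : Let A τ

theorem Let.finite (A τ : Type) [Finite A] [Finite τ] : Finite (Let A τ) := by
  refine Finite.of_surjective (α := A ⊕ Bool ⊕ (τ × Bool))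
    (Sum.elim Let.g (Sum.elim (fun b => cond b Let.op Let.mid) fun p => Let.cl p.1 p.2)) ?_
  rintro (a | _ | _ | ⟨t, ε⟩)
  exacts [⟨Sum.inl a, rfl⟩, ⟨Sum.inr (Sum.inl true), rfl⟩, ⟨Sum.inr (Sum.inl false), rfl⟩,
    ⟨Sum.inr (Sum.inr (t, ε)), rfl⟩]

/-- The language made of one word with one letter. -/
def lt1 {α : Type} (x : α) : Language α := {w | w = [x]}

/-- Parameters of the machine. -/
structure MD (G A τ : Type) where
  v0 : A → G
  r : τ → ℕ → G
  inf : τ → Prop

section machine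
variable {G A τ : Type} [Group G]

/-- Stacks: top value and the list of letters with the value below them. -/
abbrev Stk (G A τ : Type) : Type := G × List (Let A τ × G)

/-- The top of the stack is an opening letter followed by `n` counting letters, with trivial
values in between. -/
inductive Pop : ℕ → Stk G A τ → Stk G A τ → Prop
  | zero (g : G) (rest : List (Let A τ × G)) : Pop 0 (1, (Let.op, g) :: rest) (g, rest)
  | succ {n : ℕ} {g : G} {rest : List (Let A τ × G)} {ω : Stk G A τ} :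
      Pop n (g, rest) ω → Pop (n + 1) (1, (Let.mid, g) :: rest) ω

theorem Pop.unique {n n' : ℕ} {ω ω1 ω2 : Stk G A τ} (h1 : Pop n ω ω1) (h2 : Pop n' ω ω2) :
    n = n' ∧ ω1 = ω2 := by
  induction h1 generalizing n' with
  | zero g rest => cases h2; exact ⟨rfl, rfl⟩
  | succ _ ih =>
    cases h2 with
    | succ h => obtain ⟨rfl, rfl⟩ := ih h; exact ⟨rfl, rfl⟩

variable (D : MD G A τ)

open Classical in
/-- One step of the machine. -/
noncomputable def step (ω : Stk G A τ) : Let A τ → Stk G A τ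
  | Let.g a => (ω.1 * D.v0 a, ω.2)
  | Let.op => (1, (Let.op, ω.1) :: ω.2)
  | Let.mid => (1, (Let.mid, ω.1) :: ω.2)
  | Let.cl t ε =>
    if h : ∃ p : ℕ × Stk G A τ, Pop p.1 ω p.2 ∧ (D.inf t ∨ p.1 = 0) then
      (h.choose.2.1 * sg ε (D.r t h.choose.1), h.choose.2.2)
    else (1, (Let.cl t ε, ω.1) :: ω.2)

theorem step_pop {n : ℕ} {ω ω' : Stk G A τ} (h : Pop n ω ω') {t : τ} (ha : D.inf t ∨ n = 0)
    (ε : Bool) : step D ω (Let.cl t ε) = (ω'.1 * sg ε (D.r t n), ω'.2) := by
  have hex : ∃ p : ℕ × Stk G A τ, Pop p.1 ω p.2 ∧ (D.inf t ∨ p.1 = 0) := ⟨(n, ω'), h, ha⟩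
  obtain ⟨h1, h2⟩ := hex.choose_spec.1.unique h
  simp only [step, dif_pos hex, h1, h2]

theorem step_cases (ω : Stk G A τ) (x : Let A τ) :
    (∃ a, x = Let.g a ∧ step D ω x = (ω.1 * D.v0 a, ω.2)) ∨
    ((∀ a, x ≠ Let.g a) ∧ step D ω x = (1, (x, ω.1) :: ω.2)) ∨
    ∃ t ε n ω', x = Let.cl t ε ∧ Pop n ω ω' ∧ (D.inf t ∨ n = 0) ∧
      step D ω x = (ω'.1 * sg ε (D.r t n), ω'.2) := by
  cases x with
  | g a => exact Or.inl ⟨a, rfl, rfl⟩
  | op => exact Or.inr (Or.inl ⟨by simp, rfl⟩)
  | mid => exact Or.inr (Or.inl ⟨by simp, rfl⟩)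
  | cl t ε =>
    by_cases h : ∃ p : ℕ × Stk G A τ, Pop p.1 ω p.2 ∧ (D.inf t ∨ p.1 = 0)
    · obtain ⟨⟨n, ω'⟩, h1, h2⟩ := h
      exact Or.inr (Or.inr ⟨t, ε, n, ω', rfl, h1, h2, step_pop D h1 h2 ε⟩)
    · exact Or.inr (Or.inl ⟨by simp, by simp only [step, dif_neg h]⟩)

/-- The run of the machine on a word. -/
noncomputable def run (ω : Stk G A τ) (u : List (Let A τ)) : Stk G A τ := u.foldl (step D) ω

@[simp] theorem run_nil (ω : Stk G A τ) : run D ω [] = ω := rfl
@[simp] theorem run_cons (ω : Stk G A τ) (x : Let A τ) (u : List (Let A τ)) :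
    run D ω (x :: u) = run D (step D ω x) u := rfl
@[simp] theorem run_append (ω : Stk G A τ) (u v : List (Let A τ)) :
    run D ω (u ++ v) = run D (run D ω u) v := List.foldl_append

/-- The word acts as right multiplication of the top value by `g`. -/
def Inv (u : List (Let A τ)) (g : G) : Prop := ∀ ω : Stk G A τ, run D ω u = (ω.1 * g, ω.2)

/-- Words acting trivially. -/
def UM : Language (Let A τ) := {u | Inv D u 1}

/-- A counting letter followed by a word acting trivially. -/
def RM : Language (Let A τ) := lt1 Let.mid * UM D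

/-- The words spelling one token with `n` counting letters. -/
def TokM (t : τ) (ε : Bool) (n : ℕ) : Language (Let A τ) :=
  (lt1 Let.op * UM D) * RM D ^ n * lt1 (Let.cl t ε)

/-- One token and its value. -/
def Tok (u : List (Let A τ)) (g : G) : Prop :=
  (∃ a, u = [Let.g a] ∧ g = D.v0 a) ∨
    ∃ t ε n, (D.inf t ∨ n = 0) ∧ u ∈ TokM D t ε n ∧ g = sg ε (D.r t n)

/-- Products of tokens. -/
inductive Toks : List (Let A τ) → G → Prop
  | nil : Toks [] 1
  | snoc {u w : List (Let A τ)} {g g' : G} : Toks u g → Tok D w g' → Toks (u ++ w) (g * g')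

variable {D}

theorem Inv.append {u v : List (Let A τ)} {g h : G} (h1 : Inv D u g) (h2 : Inv D v h) :
    Inv D (u ++ v) (g * h) := fun ω => by rw [run_append, h1, h2, mul_assoc]

theorem pop_fill (n : ℕ) : ∀ w ∈ (lt1 Let.op * UM D) * RM D ^ n,
    ∀ ω : Stk G A τ, Pop n (run D ω w) ω := by
  induction n with
  | zero =>
    rw [pow_zero, mul_one]
    rintro _ ⟨_, rfl, u, hu, rfl⟩ ω
    simp only [run_append, run_cons, run_nil]
    rw [hu, mul_one]
    exact Pop.zero _ _
  | succ n ih =>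
    rw [pow_succ, ← mul_assoc]
    rintro _ ⟨w, hw, _, ⟨_, rfl, u, hu, rfl⟩, rfl⟩ ω
    simp only [run_append, run_cons, run_nil]
    rw [hu, mul_one]
    exact Pop.succ (ih w hw ω)

theorem Tok.inv {u : List (Let A τ)} {g : G} (h : Tok D u g) : Inv D u g := by
  rcases h with ⟨a, rfl, rfl⟩ | ⟨t, ε, n, ha, ⟨w, hw, _, rfl, rfl⟩, rfl⟩
  · intro ω; rfl
  · intro ω
    simp only [run_append, run_cons, run_nil]
    exact step_pop D (pop_fill n w hw ω) ha ε

theorem Tok.ne_nil {u : List (Let A τ)} {g : G} (h : Tok D u g) : u ≠ [] := by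
  rcases h with ⟨a, rfl, rfl⟩ | ⟨t, ε, n, ha, ⟨w, hw, _, rfl, rfl⟩, rfl⟩ <;> simp

theorem Toks.inv {u : List (Let A τ)} {g : G} (h : Toks D u g) : Inv D u g := by
  induction h with
  | nil => intro ω; simp
  | snoc _ h ih => exact ih.append h.inv

theorem Toks.append {u v : List (Let A τ)} {g h : G} (h1 : Toks D u g) (h2 : Toks D v h) :
    Toks D (u ++ v) (g * h) := by
  induction h2 with
  | nil => simpa using h1
  | snoc _ h ih => rw [← List.append_assoc, ← mul_assoc]; exact ih.snoc h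

theorem Tok.toks {u : List (Let A τ)} {g : G} (h : Tok D u g) : Toks D u g := by
  simpa using Toks.nil.snoc h

variable (D) in
/-- Decomposition of a word along a stack. -/
def Dec : List (Let A τ × G) → G → List (Let A τ) → Prop
  | [], g, u => Toks D u g
  | (x, g') :: rest, g, u => ∃ u' u0, u = u' ++ x :: u0 ∧ Toks D u0 g ∧ Dec rest g' u'

theorem Dec.snoc {rest : List (Let A τ × G)} {g g' : G} {u w : List (Let A τ)}
    (h : Dec D rest g u) (hw : Tok D w g') : Dec D rest (g * g') (u ++ w) := by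
  rcases rest with _ | ⟨⟨x, g0⟩, rest⟩
  · exact Toks.snoc h hw
  · obtain ⟨u', u0, rfl, h1, h2⟩ := h
    exact ⟨u', u0 ++ w, by simp, h1.snoc hw, h2⟩

theorem Dec.pop {n : ℕ} {ω ω' : Stk G A τ} (h : Pop n ω ω') : ∀ u, Dec D ω.2 ω.1 u →
    ∃ u', ∃ w ∈ (lt1 Let.op * UM D) * RM D ^ n,
      u = u' ++ w ∧ Dec D ω'.2 ω'.1 u' := by
  induction h with
  | zero g rest =>
    rintro _ ⟨u', u0, rfl, h1, h2⟩
    refine ⟨u', Let.op :: u0, ?_, rfl, h2⟩
    rw [pow_zero, mul_one]
    exact ⟨[Let.op], rfl, u0, h1.inv, rfl⟩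
  | succ _ ih =>
    rintro _ ⟨u', u0, rfl, h1, h2⟩
    obtain ⟨u'', w, hw, rfl, h3⟩ := ih u' h2
    refine ⟨u'', w ++ Let.mid :: u0, ?_, by simp, h3⟩
    rw [pow_succ, ← mul_assoc]
    exact ⟨w, hw, Let.mid :: u0, ⟨[Let.mid], rfl, u0, h1.inv, rfl⟩, rfl⟩

theorem dec_run (u : List (Let A τ)) : Dec D (run D (1, []) u).2 (run D (1, []) u).1 u := by
  induction u using List.reverseRecOn with
  | nil => exact Toks.nil
  | append_singleton u x ih =>
    simp only [run_append, run_cons, run_nil]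
    rcases step_cases D (run D (1, []) u) x with ⟨a, rfl, h⟩ | ⟨-, h⟩ | ⟨t, ε, n, ω', rfl, h1, h2, h⟩
    · rw [h]; exact ih.snoc (Or.inl ⟨a, rfl, rfl⟩)
    · rw [h]; exact ⟨u, [], rfl, Toks.nil, ih⟩
    · rw [h]
      obtain ⟨u', w, hw, e, h3⟩ := Dec.pop h1 u ih
      have := h3.snoc (w := w ++ [Let.cl t ε]) (Or.inr ⟨t, ε, n, h2, ⟨w, hw, _, rfl, rfl⟩, rfl⟩)
      rw [← List.append_assoc, ← e] at this
      exact this

theorem Inv.toks {u : List (Let A τ)} {g : G} (h : Inv D u g) : Toks D u g := by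
  have := dec_run (D := D) u
  rw [h, one_mul] at this
  exact this

variable (D) in
/-- Two words act in the same way. -/
def Eqv (u v : List (Let A τ)) : Prop := ∀ ω, run D ω u = run D ω v

theorem common {rest : List (Let A τ × G)} : ∀ {g : G} {u v : List (Let A τ)}, Dec D rest g u →
    Dec D rest g v → (∃ g, Toks D u g ∧ Toks D v g) ∨ ∃ u0 v0 g x u' v', u = u0 ++ x :: u' ∧
      v = v0 ++ x :: v' ∧ Toks D u0 g ∧ Toks D v0 g ∧ Eqv D u' v' := by
  induction rest with
  | nil => intro g u v h1 h2; exact Or.inl ⟨g, h1, h2⟩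
  | cons p rest ih =>
    obtain ⟨x, g'⟩ := p
    rintro g _ _ ⟨u1, u2, rfl, a1, a2⟩ ⟨v1, v2, rfl, b1, b2⟩
    rcases ih a2 b2 with ⟨g0, c1, c2⟩ | ⟨u0, v0, g0, y, u', v', rfl, rfl, c1, c2, c3⟩
    · exact Or.inr ⟨u1, v1, g0, x, u2, v2, rfl, rfl, c1, c2, fun ω => by rw [a1.inv, b1.inv]⟩
    · refine Or.inr ⟨u0, v0, g0, y, u' ++ x :: u2, v' ++ x :: v2, by simp, by simp, c1, c2, ?_⟩
      intro ω
      rw [run_append, run_append, run_cons, run_cons, c3, a1.inv, b1.inv]

theorem Eqv.common {u v : List (Let A τ)} (h : Eqv D u v) :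
    (∃ g, Toks D u g ∧ Toks D v g) ∨ ∃ u0 v0 g x u' v', u = u0 ++ x :: u' ∧
      v = v0 ++ x :: v' ∧ Toks D u0 g ∧ Toks D v0 g ∧ Eqv D u' v' := by
  have h1 := dec_run (D := D) u
  rw [h] at h1
  exact MP_435286_al.common h1 (dec_run v)

/-- Weight of a letter: one for the opening letter. -/
def wo : Let A τ → ℕ
  | Let.op => 1
  | _ => 0

/-- Weight of a letter: one for a closing letter. -/
def wc : Let A τ → ℕ
  | Let.cl _ _ => 1
  | _ => 0

theorem Pop.count {n : ℕ} {ω ω' : Stk G A τ} (h : Pop n ω ω') :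
    (ω.2.map fun p => wo p.1).sum = (ω'.2.map fun p => wo p.1).sum + 1 ∧
    (ω.2.map fun p => wc p.1).sum = (ω'.2.map fun p => wc p.1).sum := by
  induction h with
  | zero g rest => simp [wo, wc, add_comm]
  | succ _ ih => simpa [wo, wc] using ih

theorem run_count (u : List (Let A τ)) : ∀ ω : Stk G A τ,
    ((run D ω u).2.map fun p => wo p.1).sum + (ω.2.map fun p => wc p.1).sum + (u.map wc).sum =
      ((run D ω u).2.map fun p => wc p.1).sum + (ω.2.map fun p => wo p.1).sum + (u.map wo).sum ∧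
    (ω.2.map fun p => wc p.1).sum ≤ ((run D ω u).2.map fun p => wc p.1).sum := by
  induction u with
  | nil => intro ω; simp [add_comm]
  | cons x u ih =>
    intro ω
    obtain ⟨h1, h2⟩ := ih (step D ω x)
    rw [run_cons]
    rcases step_cases D ω x with ⟨a, rfl, h⟩ | ⟨-, h⟩ | ⟨t, ε, n, ω', rfl, k1, -, h⟩
    · rw [h] at h1 h2 ⊢
      simp only [List.map_cons, List.sum_cons, wo, wc] at h1 h2 ⊢
      omega
    · rw [h] at h1 h2 ⊢
      simp only [List.map_cons, List.sum_cons] at h1 h2 ⊢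
      omega
    · obtain ⟨c1, c2⟩ := k1.count
      rw [h] at h1 h2 ⊢
      simp only [List.map_cons, List.sum_cons, wo, wc] at h1 h2 c1 c2 ⊢
      omega

/-- The bottom letter of the stack is not the opening letter. -/
def Bad (l : List (Let A τ × G)) : Prop := ∃ l' x g, l = l' ++ [(x, g)] ∧ x ≠ Let.op

omit [Group G] in
theorem Bad.tail {p : Let A τ × G} {l : List (Let A τ × G)} (h : Bad (p :: l)) (hl : l ≠ []) :
    Bad l := by
  obtain ⟨l', x, g, e, hx⟩ := h
  cases l' with
  | nil => simp only [List.nil_append, List.cons.injEq] at e; exact absurd e.2 hl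
  | cons q l' => simp only [List.cons_append, List.cons.injEq] at e; exact ⟨l', x, g, e.2, hx⟩

theorem Pop.bad {n : ℕ} {ω ω' : Stk G A τ} (h : Pop n ω ω') : Bad ω.2 → Bad ω'.2 := by
  induction h with
  | zero g rest =>
    intro hb
    refine hb.tail ?_
    rintro rfl
    obtain ⟨l', x, g, e, hx⟩ := hb
    cases l' with
    | nil => simp only [List.nil_append, List.cons.injEq, Prod.mk.injEq] at e; exact hx e.1.1.symm
    | cons q l' => simp at e
  | succ h ih =>
    intro hb
    refine ih (hb.tail ?_)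
    rintro rfl
    cases h

theorem run_bad (u : List (Let A τ)) : ∀ ω : Stk G A τ, Bad ω.2 → Bad (run D ω u).2 := by
  induction u with
  | nil => intro ω h; exact h
  | cons x u ih =>
    intro ω hb
    rw [run_cons]
    refine ih _ ?_
    rcases step_cases D ω x with ⟨a, rfl, h⟩ | ⟨-, h⟩ | ⟨t, ε, n, ω', rfl, k1, -, h⟩ <;> rw [h]
    · exact hb
    · obtain ⟨l', y, g, e, hy⟩ := hb
      exact ⟨(x, ω.1) :: l', y, g, by simp [e], hy⟩
    · exact k1.bad hb

theorem unit_toks {u v : List (Let A τ)} (h1 : Eqv D (u ++ v) []) (h2 : Eqv D (v ++ u) []) :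
    ∃ g, Toks D u g := by
  have a1 := h1 (1, [])
  have a2 := h2 (1, [])
  rw [run_append, run_nil] at a1 a2
  have b1 := (run_count (D := D) v (run D (1, []) u))
  have b2 := (run_count (D := D) u (run D (1, []) v))
  have c1 := (run_count (D := D) u (1, [])).1
  have c2 := (run_count (D := D) v (1, [])).1
  rw [a1] at b1
  rw [a2] at b2
  simp only [List.map_nil, List.sum_nil] at b1 b2 c1 c2
  have h0 : ((run D (1, []) u).2.map fun p => wo p.1).sum = 0 := by omega
  have he : (run D (1, []) u).2 = [] := by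
    by_contra hne
    have hb : Bad (run D (1, []) u).2 := by
      rcases List.eq_nil_or_concat (run D (1, []) u).2 with h | ⟨l', ⟨x, g⟩, h⟩
      · exact absurd h hne
      · refine ⟨l', x, g, by simpa using h, ?_⟩
        rintro rfl
        rw [h] at h0
        simp [wo] at h0
    have := run_bad (D := D) v _ hb
    rw [a1] at this
    obtain ⟨l', x, g, e, -⟩ := this
    simp at e
  have := dec_run (D := D) u
  rw [he] at this
  exact ⟨_, this⟩

variable (D)

/-- The transformation induced by a letter. -/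
noncomputable def genE (x : Let A τ) : (Function.End (Stk G A τ))ᵐᵒᵖ :=
  MulOpposite.op (fun ω => step D ω x)

/-- The transition monoid. -/
noncomputable def MM : Submonoid (Function.End (Stk G A τ))ᵐᵒᵖ :=
  Submonoid.closure (Set.range (genE D))

/-- The generators of the transition monoid. -/
noncomputable def genM (x : Let A τ) : MM D := ⟨genE D x, Submonoid.subset_closure ⟨x, rfl⟩⟩

theorem genM_closure : Submonoid.closure (Set.range (genM D)) = ⊤ := by
  rw [eq_top_iff]
  rintro ⟨m, hm⟩ -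
  induction hm using Submonoid.closure_induction with
  | mem x hx => obtain ⟨a, rfl⟩ := hx; exact Submonoid.subset_closure ⟨a, rfl⟩
  | one => exact Submonoid.one_mem _
  | mul x y hx hy a b => exact Submonoid.mul_mem _ a b

theorem prod_genM (u : List (Let A τ)) (ω : Stk G A τ) :
    ((u.map (genM D)).prod).1.unop ω = run D ω u := by
  induction u generalizing ω with
  | nil => rfl
  | cons x u ih =>
    rw [List.map_cons, List.prod_cons, run_cons, ← ih]
    rfl

theorem prod_eq_iff (u v : List (Let A τ)) :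
    (u.map (genM D)).prod = (v.map (genM D)).prod ↔ Eqv D u v := by
  constructor
  · intro h ω
    rw [← prod_genM, ← prod_genM, h]
  · intro h
    refine Subtype.ext (MulOpposite.unop_injective (funext fun ω => ?_))
    rw [prod_genM, prod_genM, h]

theorem units_equiv (hg : ∀ g : G, ∃ u, Inv D u g) : Nonempty ((MM D)ˣ ≃* G) := by
  choose w hw using hg
  let ι : G →* MM D :=
    { toFun := fun g => ((w g).map (genM D)).prod
      map_one' := (prod_eq_iff D (w 1) []).2 fun ω => by rw [hw]; simp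
      map_mul' := fun g h => by
        rw [← List.prod_append, ← List.map_append, prod_eq_iff]
        intro ω
        rw [hw, (hw g).append (hw h)] }
  refine ⟨(MulEquiv.ofBijective ι.toHomUnits ⟨?_, ?_⟩).symm⟩
  · intro g h e
    have e' : ι g = ι h := congrArg Units.val e
    have := (prod_eq_iff D _ _).1 e' (1, [])
    rw [hw, hw] at this
    simpa using this
  · intro m
    obtain ⟨u, hu⟩ := exists_word (genM D) (genM_closure D) m.val
    obtain ⟨v, hv⟩ := exists_word (genM D) (genM_closure D) m.inv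
    obtain ⟨g, hg⟩ := unit_toks (D := D) (u := u) (v := v)
      ((prod_eq_iff D _ _).1 (by rw [List.map_append, List.prod_append, hu, hv, m.val_inv]; rfl))
      ((prod_eq_iff D _ _).1 (by rw [List.map_append, List.prod_append, hu, hv, m.inv_val]; rfl))
    refine ⟨g, Units.ext ?_⟩
    rw [← hu]
    exact (prod_eq_iff D _ _).2 fun ω => by rw [hw, hg.inv]

end machine

end Pool.Agent.Lib.MP_435286_al
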