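import Pool.Agent.Lib.MP_435286_al.Gen

/-
Sections 1 and 2: mixing of tripods and the norm on a maximal subgroup.
-/

namespace Pool.Agent.Lib.MP_435286_al

theorem tm_of_pstar {G : Type} [Group G] (l : G → ℕ) (c : ℕ) (h1 : l 1 = 0)
    (hm : ∀ g h, l (g * h) ≤ l g + l h) (hp : ∀ r : ℕ, {g | l g ≤ r}.Finite)
    (ps : ∀ (o : G) (k : ℕ) (h : ℕ → G), ∃ v : G, ∃ i ≤ k,
      l (o⁻¹ * v) + l (v⁻¹ * h 0) ≤ l (o⁻¹ * h 0) + c ∧
      l ((h i)⁻¹ * v) + l (v⁻¹ * h (i + 1)) ≤ l ((h i)⁻¹ * h (i + 1)) + c ∧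
      l ((h (k + 1))⁻¹ * v) + l (v⁻¹ * o) ≤ l ((h (k + 1))⁻¹ * o) + c) : Nonempty (TM G) := by
  have tri : ∀ x y z : G, l (x⁻¹ * z) ≤ l (x⁻¹ * y) + l (y⁻¹ * z) := by
    intro x y z
    have := hm (x⁻¹ * y) (y⁻¹ * z)
    rwa [show x⁻¹ * y * (y⁻¹ * z) = x⁻¹ * z by group] at this
  have rev : ∀ x y z : G, l (x⁻¹ * z) + l (z⁻¹ * y) + l (y⁻¹ * x) ≤
      l (x⁻¹ * y) + l (y⁻¹ * z) + l (z⁻¹ * x) + 3 * c := by
    intro x y z
    obtain ⟨v, i, hi, a1, a2, a3⟩ := ps x 0 (fun j => if j = 0 then y else z)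
    obtain rfl : i = 0 := by omega
    simp only [if_true, zero_add, one_ne_zero, if_false] at a1 a2 a3
    have t1 := tri x v z
    have t2 := tri z v y
    have t3 := tri y v x
    omega
  have btw : ∀ x v y : G, l (x⁻¹ * v) + l (v⁻¹ * y) ≤ l (x⁻¹ * y) + c →
      (l (x⁻¹ * v) + l (x⁻¹ * v)⁻¹) + (l (v⁻¹ * y) + l (v⁻¹ * y)⁻¹) ≤
        (l (x⁻¹ * y) + l (x⁻¹ * y)⁻¹) + 5 * c := by
    intro x v y h
    have := rev x v y
    simp only [mul_inv_rev, inv_inv]
    omega
  refine ⟨⟨fun g => l g + l g⁻¹, 5 * c, by simp [h1], fun g => by simp [add_comm], ?_, ?_, ?_⟩⟩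
  · intro g h
    have a := hm g h
    have b := hm h⁻¹ g⁻¹
    simp only [mul_inv_rev]
    omega
  · intro r
    exact (hp r).subset fun g hg => le_trans (Nat.le_add_right _ _) hg
  · intro o k h
    obtain ⟨v, i, hi, a1, a2, a3⟩ := ps o k h
    exact ⟨v, i, hi, btw _ _ _ a1, btw _ _ _ a2, btw _ _ _ a3⟩

theorem tp_quot {A : Type} {L : Set (List (Option A))} (hL : TP L) (ω : List (Option A)) :
    TP {u : List A | u.map some ++ ω ∈ L} := by
  obtain ⟨ι, hι, Y, Z, C, hs, hc⟩ := hL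
  refine ⟨ι × Fin (ω.length + 1), inferInstance, fun i => {y | y.map some ∈ Y i.1},
    fun i => {z | z.map some ++ ω.take i.2 ∈ Z i.1},
    fun i => {p | (p.1.map some, p.2.map some ++ ω.drop i.2) ∈ C i.1 ∧ (i.2.1 = 0 ∨ p.2 = [])},
    ?_, ?_⟩
  · rintro ⟨i, j⟩ s t y z ⟨hc1, hc2⟩ hy hz
    have := hs i _ _ _ _ hc1 hy hz
    show (s ++ y ++ z ++ t).map some ++ ω ∈ L
    rcases hc2 with h0 | h0
    · simp only at h0
      simpa [h0] using this
    · simp only at h0
      subst h0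
      simpa using this
  · intro x1 x2 x3 hx
    obtain ⟨i, a1, b1, a2, b2, a3, b3, e1, e2, e3, c1, c2, c3⟩ :=
      hc (x1.map some) (x2.map some) (x3.map some ++ ω) (by simpa using hx)
    obtain ⟨a1, b1, rfl, rfl, rfl⟩ := List.map_eq_append_iff.1 e1
    obtain ⟨a2, b2, rfl, rfl, rfl⟩ := List.map_eq_append_iff.1 e2
    rcases List.append_eq_append_iff.1 e3 with ⟨c, hc1, hc2⟩ | ⟨c, hc1, hc2⟩
    · have hl : c.length < ω.length + 1 := by
        rw [hc2, List.length_append]; omega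
      refine ⟨(i, ⟨c.length, hl⟩), a1, b1, a2, b2, x3, [], rfl, rfl, by simp, ⟨?_, Or.inr rfl⟩,
        by simpa using c2, ?_⟩
      · simpa [hc2] using c1
      · show (b2 ++ x3).map some ++ ω.take c.length ∈ Z i
        simpa [hc2, hc1] using c3
    · obtain ⟨a3, c, rfl, rfl, rfl⟩ := List.map_eq_append_iff.1 hc1
      refine ⟨(i, ⟨0, by omega⟩), a1, b1, a2, b2, a3, c, rfl, rfl, rfl, ⟨?_, Or.inl rfl⟩,
        by simpa using c2, ?_⟩
      · simpa [hc2] using c1
      · show (b2 ++ a3).map some ++ ω.take 0 ∈ Z i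
        simpa using c3

theorem map_some_marker {A : Type} {u u' : List A} {r r' : List (Option A)}
    (h : u.map some ++ none :: r = u'.map some ++ none :: r') : u = u' ∧ r = r' := by
  induction u generalizing u' with
  | nil =>
    cases u' with
    | nil => simpa using h
    | cons a u' => simp at h
  | cons a u ih =>
    cases u' with
    | nil => simp at h
    | cons b u' =>
      simp only [List.map_cons, List.cons_append, List.cons.injEq, Option.some.injEq] at h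
      obtain ⟨h1, h2⟩ := ih h.2
      exact ⟨by rw [h.1, h1], h2⟩

theorem mem_WP_iff {M A : Type} [Monoid M] (gen : A → M) (u v : List A) :
    u.map some ++ none :: v.reverse.map some ∈ WP gen ↔ (u.map gen).prod = (v.map gen).prod := by
  constructor
  · rintro ⟨u', v', h, e⟩
    obtain ⟨rfl, h2⟩ := map_some_marker h
    have : v = v' := List.reverse_injective (List.map_injective_iff.2 (Option.some_injective A) h2)
    rw [this]; exact e
  · intro h
    exact ⟨u, v, rfl, h⟩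

theorem tp_fiber {M A : Type} [Monoid M] (gen : A → M) (h : (WP gen).IsContextFree) (v : List A) :
    TP {u : List A | (u.map gen).prod = (v.map gen).prod} := by
  have := tp_quot (tp_of_cf h) (none :: v.reverse.map some)
  have e : {u : List A | u.map some ++ (none :: v.reverse.map some) ∈ (WP gen : Set _)} =
      {u : List A | (u.map gen).prod = (v.map gen).prod} := by
    ext u
    exact mem_WP_iff gen u v
  exact e ▸ this

section mix
variable {G M : Type} [Group G] [Monoid M] (φ : G →ₙ* M)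

theorem mem_range_of_inv (hφ : IsMaxSub φ) {x a b : M} (h1 : φ 1 * x = x) (h2 : x * φ 1 = x)
    (ha : a * x = φ 1) (hb : x * b = φ 1) : x ∈ Set.range φ := by
  have e : φ 1 * φ 1 = φ 1 := by rw [← map_mul, one_mul]
  have k : φ 1 * b = a * φ 1 := by
    calc φ 1 * b = a * x * b := by rw [ha]
      _ = a * φ 1 := by rw [mul_assoc, hb]
  refine hφ.2 x (φ 1 * b) h1 h2 ?_ ?_
  · rw [← mul_assoc, h2, hb]
  · rw [k, mul_assoc, h1, ha]

theorem mix (hφ : IsMaxSub φ) (P Q R : Bool → Bool → M)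
    (hP : ∀ p q, φ 1 * P p q = P p q ∧ P p q * φ 1 = P p q)
    (hQ : ∀ p q, φ 1 * Q p q = Q p q ∧ Q p q * φ 1 = Q p q)
    (hR : ∀ p q, φ 1 * R p q = R p q ∧ R p q * φ 1 = R p q)
    (dP : ∀ p, P p p ∈ Set.range φ) (dR : ∀ p, R p p ∈ Set.range φ)
    (h : ∀ p q r, P p q * Q q r * R r p = φ 1) :
    ∃ P' Q' R' : Bool → Bool → G, (∀ p q, φ (P' p q) = P p q) ∧ (∀ p q, φ (Q' p q) = Q p q) ∧
      (∀ p q, φ (R' p q) = R p q) ∧ ∀ p q r, P' p q * Q' q r * R' r p = 1 := by
  have hQr : ∀ q r, Q q r ∈ Set.range φ := by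
    intro q r
    obtain ⟨g, hg⟩ := dP q
    obtain ⟨g', hg'⟩ := dR r
    refine mem_range_of_inv φ hφ (hQ q r).1 (hQ q r).2 (a := R r r * P r q) (b := R r q * P q q)
      ?_ ?_
    · have h1 := h r q r
      rw [← hg'] at h1 ⊢
      have h2 : φ g' * (P r q * Q q r * φ g') * φ g'⁻¹ = φ 1 := by
        rw [h1, ← map_mul, ← map_mul]; simp
      rw [← h2]
      calc φ g' * P r q * Q q r = φ g' * P r q * (Q q r * φ (g' * g'⁻¹)) := by
            rw [mul_inv_cancel, (hQ q r).2]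
        _ = _ := by rw [map_mul]; simp only [mul_assoc]
    · have h1 := h q q r
      rw [← hg] at h1 ⊢
      have h2 : φ g⁻¹ * (φ g * Q q r * R r q) * φ g = φ 1 := by
        rw [h1, ← map_mul, ← map_mul]; simp
      rw [← h2]
      calc Q q r * (R r q * φ g) = (φ (g⁻¹ * g) * Q q r) * (R r q * φ g) := by
            rw [inv_mul_cancel, (hQ q r).1]
        _ = _ := by rw [map_mul]; simp only [mul_assoc]
  have hPr : ∀ p q, P p q ∈ Set.range φ := by
    intro p q
    obtain ⟨g, hg⟩ := hQr q p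
    obtain ⟨g', hg'⟩ := dR p
    have h1 := h p q p
    rw [← hg, ← hg', mul_assoc, ← map_mul] at h1
    refine ⟨(g * g')⁻¹, ?_⟩
    calc φ (g * g')⁻¹ = φ 1 * φ (g * g')⁻¹ := by rw [← map_mul, one_mul]
      _ = P p q * φ (g * g' * (g * g')⁻¹) := by rw [← h1, mul_assoc, ← map_mul]
      _ = P p q := by rw [mul_inv_cancel, (hP p q).2]
  have hRr : ∀ r p, R r p ∈ Set.range φ := by
    intro r p
    obtain ⟨g, hg⟩ := hPr p p
    obtain ⟨g', hg'⟩ := hQr p r
    have h1 := h p p r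
    rw [← hg, ← hg', ← map_mul] at h1
    refine ⟨(g * g')⁻¹, ?_⟩
    calc φ (g * g')⁻¹ = φ (g * g')⁻¹ * φ 1 := by rw [← map_mul, mul_one]
      _ = φ ((g * g')⁻¹ * (g * g')) * R r p := by rw [← h1, ← mul_assoc, ← map_mul]
      _ = R r p := by rw [inv_mul_cancel, (hR r p).1]
  choose P' hP' using hPr
  choose Q' hQ' using hQr
  choose R' hR' using hRr
  refine ⟨P', Q', R', hP', hQ', hR', fun p q r => hφ.1 ?_⟩
  rw [map_mul, map_mul, hP', hQ', hR', h]

end mix

end Pool.Agent.Lib.MP_435286_al
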