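import Pool.Agent.Lib.MP_435286_al.TMx
import Pool.Agent.Lib.MP_435286_al.Tri

/-
Representatives of the double cosets of neighbours, sorted into finitely many types.
-/

namespace Pool.Agent.Lib.MP_435286_al

/-- `x` or its inverse. -/
def sg {G : Type} [Group G] (ε : Bool) (x : G) : G := cond ε x x⁻¹

@[simp] theorem sg_true {G : Type} [Group G] (x : G) : sg true x = x := rfl
@[simp] theorem sg_false {G : Type} [Group G] (x : G) : sg false x = x⁻¹ := rfl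

theorem sg_inv {G : Type} [Group G] (ε : Bool) (x : G) : (sg ε x)⁻¹ = sg (!ε) x := by
  cases ε <;> simp

/-- The data used by the realisation. -/
structure RD (G : Type) [Group G] where
  G0 : Subgroup G
  cf : HasCFWP G0
  τ : Type
  fin : Finite τ
  inf : τ → Prop
  r : τ → ℕ → G
  B : Set G
  hB : B.Finite
  BG : ∀ b ∈ B, b ∈ G0
  S : Set G
  notin : ∀ s ∈ S, s ∉ G0
  rS : ∀ t n ε, sg ε (r t n) ∈ S
  exc : ∀ (x : G) (l : List G) (y : G), x ∈ S → (∀ z ∈ l, z ∈ G0 ∨ z ∈ S) → y ∈ S →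
    (∀ j, x * (l.take j).prod ∉ G0) → x * l.prod * y ∈ G0 → l.prod ∈ G0
  gen : ∀ P : Submonoid G, (∀ g ∈ G0, g ∈ P) →
    (∀ t n ε, (inf t ∨ n = 0) → sg ε (r t n) ∈ P) → ∀ g, g ∈ P
  i3 : ∀ t n ε t' n' ε' h, (inf t ∨ n = 0) → (inf t' ∨ n' = 0) → h ∈ G0 →
    sg ε (r t n) * h * sg ε' (r t' n') ∈ G0 →
    t = t' ∧ n = n' ∧ h ∈ B ∧ sg ε (r t n) * h * sg ε' (r t' n') ∈ B
  i4 : ∀ t n ε ε' h f, (inf t ∨ n = 0) → h ∈ B → f ∈ B →
    (sg ε (r t n) * h * sg ε' (r t n) = f ↔ sg ε (r t 0) * h * sg ε' (r t 0) = f)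

theorem enum_types {J Θ : Type} [Countable J] [Finite Θ] (ty : J → Θ) :
    ∃ (τ : Type) (_ : Finite τ) (inf : τ → Prop) (e : τ → ℕ → J),
      (∀ j, ∃ t n, (inf t ∨ n = 0) ∧ e t n = j) ∧
      (∀ t n t' n', (inf t ∨ n = 0) → (inf t' ∨ n' = 0) → e t n = e t' n' → t = t' ∧ n = n') ∧
      ∀ t n, ty (e t n) = ty (e t 0) := by
  classical
  have h1 : ∀ θ : {θ : Θ // Infinite {j // ty j = θ}}, Nonempty (ℕ ≃ {j // ty j = θ.1}) := by
    intro θ
    have := θ.2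
    exact nonempty_equiv_of_countable
  let q := fun θ => (h1 θ).some
  have h2 : {j : J | Finite {j' // ty j' = ty j}}.Finite := by
    have : (⋃ θ ∈ {θ : Θ | Finite {j' // ty j' = θ}}, {j' | ty j' = θ}).Finite :=
      (Set.toFinite _).biUnion fun θ hθ => Set.finite_coe_iff.1 hθ
    exact this.subset fun j hj => Set.mem_biUnion (x := ty j) hj rfl
  have h3 := h2.to_subtype
  refine ⟨{θ : Θ // Infinite {j // ty j = θ}} ⊕ {j : J | Finite {j' // ty j' = ty j}},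
    inferInstance, fun t => t.isLeft = true,
    fun t n => Sum.elim (fun θ => (q θ n).1) (fun j => j.1) t, ?_, ?_, ?_⟩
  · intro j
    rcases finite_or_infinite {j' // ty j' = ty j} with h | h
    · exact ⟨Sum.inr ⟨j, h⟩, 0, Or.inr rfl, rfl⟩
    · exact ⟨Sum.inl ⟨ty j, h⟩, (q ⟨ty j, h⟩).symm ⟨j, rfl⟩, Or.inl rfl, by simp⟩
  · rintro (θ | j) n (θ' | j') n' a b h <;> simp only [Sum.elim_inl, Sum.elim_inr] at h
    · have : θ = θ' := Subtype.ext (by rw [← (q θ n).2, ← (q θ' n').2, h])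
      subst this
      exact ⟨rfl, (q θ).injective (Subtype.ext h)⟩
    · have h4 := θ.2
      have h5 : Finite {j // ty j = ty j'.1} := j'.2
      rw [← h, (q θ n).2] at h5
      exact absurd h5 (not_finite_iff_infinite.2 h4)
    · have h4 := θ'.2
      have h5 : Finite {j' // ty j' = ty j.1} := j.2
      rw [h, (q θ' n').2] at h5
      exact absurd h5 (not_finite_iff_infinite.2 h4)
    · simp only [Sum.isLeft_inr, Bool.false_eq_true, false_or] at a b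
      exact ⟨congrArg _ (Subtype.ext h), by rw [a, b]⟩
  · rintro (θ | j) n
    · simp only [Sum.elim_inl]; rw [(q θ n).2, (q θ 0).2]
    · rfl

section tree
variable {G : Type} [Group G] {G0 : Subgroup G} {T : SimpleGraph (G ⧸ G0)}
  (hinv : ∀ (g : G) (x y : G ⧸ G0), T.Adj x y → T.Adj (g • x) (g • y))
include hinv

theorem adj_mk_iff (a b : G) : T.Adj (a : G ⧸ G0) (b : G ⧸ G0) ↔
    T.Adj ((1 : G) : G ⧸ G0) ((a⁻¹ * b : G) : G ⧸ G0) := by
  constructor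
  · intro h
    have := hinv a⁻¹ _ _ h
    simpa [MulAction.Quotient.smul_coe] using this
  · intro h
    have := hinv a _ _ h
    simpa [MulAction.Quotient.smul_coe] using this

theorem nbr_inv {s : G} (h : T.Adj ((1 : G) : G ⧸ G0) (s : G ⧸ G0)) :
    T.Adj ((1 : G) : G ⧸ G0) ((s⁻¹ : G) : G ⧸ G0) := by
  have := (adj_mk_iff hinv s 1).1 h.symm
  rwa [mul_one] at this

theorem nbr_mul {s p q : G} (h : T.Adj ((1 : G) : G ⧸ G0) (s : G ⧸ G0)) (hp : p ∈ G0)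
    (hq : q ∈ G0) : T.Adj ((1 : G) : G ⧸ G0) ((p * s * q : G) : G ⧸ G0) := by
  have e1 : ((p * s * q : G) : G ⧸ G0) = ((p * s : G) : G ⧸ G0) := by
    rw [eq_comm, QuotientGroup.eq, inv_mul_cancel_left]; exact hq
  have e2 : ((1 : G) : G ⧸ G0) = ((p : G) : G ⧸ G0) := by
    rw [QuotientGroup.eq]; simpa using hp
  rw [e1, e2, adj_mk_iff hinv]
  simpa using h

theorem nbr_exc (hT : T.IsAcyclic) (x : G) (l : List G) (y : G)
    (hx : T.Adj ((1 : G) : G ⧸ G0) (x : G ⧸ G0))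
    (hl : ∀ z ∈ l, z ∈ G0 ∨ T.Adj ((1 : G) : G ⧸ G0) (z : G ⧸ G0))
    (hy : T.Adj ((1 : G) : G ⧸ G0) (y : G ⧸ G0)) (hn : ∀ j, x * (l.take j).prod ∉ G0)
    (hp : x * l.prod * y ∈ G0) : l.prod ∈ G0 := by
  have hb := SimpleGraph.isBridge_iff.1 (SimpleGraph.isAcyclic_iff_forall_adj_isBridge.1 hT hx)
  have ne : ∀ j, ((x * (l.take j).prod : G) : G ⧸ G0) ≠ ((1 : G) : G ⧸ G0) := by
    intro j h
    rw [eq_comm, QuotientGroup.eq] at h
    exact hn j (by simpa using h)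
  have reach : ∀ j, (T.deleteEdges {s(((1 : G) : G ⧸ G0), (x : G ⧸ G0))}).Reachable (x : G ⧸ G0)
      ((x * (l.take j).prod : G) : G ⧸ G0) := by
    intro j
    induction j with
    | zero => simp
    | succ j ih =>
      by_cases hj : j < l.length
      · have e : (l.take (j + 1)).prod = (l.take j).prod * l[j] := by
          rw [List.take_add_one, List.prod_append, List.getElem?_eq_getElem hj]; simp
        rcases hl _ (List.getElem_mem hj) with h | h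
        · have : ((x * (l.take (j + 1)).prod : G) : G ⧸ G0) = ((x * (l.take j).prod : G) : G ⧸ G0) := by
            rw [QuotientGroup.eq, e]; simpa using h
          rw [this]; exact ih
        · refine ih.trans (SimpleGraph.Adj.reachable ?_)
          rw [SimpleGraph.deleteEdges_adj]
          refine ⟨?_, ?_⟩
          · rw [adj_mk_iff hinv, e]; simpa using h
          · simp only [Set.mem_singleton_iff, Sym2.eq_iff, not_or, not_and]
            exact ⟨fun h => absurd h (ne j), fun _ => ne (j + 1)⟩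
      · rw [List.take_of_length_le (by omega)]
        rwa [List.take_of_length_le (by omega)] at ih
  have h1 := reach l.length
  rw [List.take_length] at h1
  by_contra hc
  apply hb
  refine (SimpleGraph.Adj.reachable ?_).trans h1.symm
  rw [SimpleGraph.deleteEdges_adj]
  refine ⟨?_, ?_⟩
  · have := nbr_mul hinv (nbr_inv hinv hy) hp G0.one_mem
    simpa using this
  · simp only [Set.mem_singleton_iff, Sym2.eq_iff, not_or, not_and]
    refine ⟨fun _ h => hc ?_, fun h => absurd h hx.ne⟩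
    rw [eq_comm, QuotientGroup.eq] at h
    simpa using h

theorem nbr_gen (hT : T.Connected) (P : Submonoid G) (h0 : ∀ g ∈ G0, g ∈ P)
    (hS : ∀ s : G, T.Adj ((1 : G) : G ⧸ G0) (s : G ⧸ G0) → s ∈ P) (g : G) : g ∈ P := by
  have key : ∀ v : G ⧸ G0, Relation.ReflTransGen T.Adj ((1 : G) : G ⧸ G0) v →
      ∀ g : G, (g : G ⧸ G0) = v → g ∈ P := by
    intro v hv
    induction hv with
    | refl =>
      intro g hg
      rw [eq_comm, QuotientGroup.eq] at hg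
      exact h0 g (by simpa using hg)
    | @tail b c _ hbc ih =>
      intro g hg
      obtain ⟨a, rfl⟩ := QuotientGroup.mk_surjective b
      rw [← hg, adj_mk_iff hinv] at hbc
      have := P.mul_mem (ih a rfl) (hS _ hbc)
      simpa using this
  exact key _ ((SimpleGraph.reachable_iff_reflTransGen _ _).1 (hT.preconnected _ _)) g rfl

theorem good_rep {B : Set G} (hB : ∀ s : G, T.Adj ((1 : G) : G ⧸ G0) (s : G ⧸ G0) →
      ∃ p ∈ G0, ∀ h ∈ G0, s⁻¹ * h * s ∈ G0 → p⁻¹ * h * p ∈ B) {s : G}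
    (hs : T.Adj ((1 : G) : G ⧸ G0) (s : G ⧸ G0)) : ∃ p ∈ G0, ∃ q ∈ G0, ∀ ε ε', ∀ h ∈ G0,
      sg ε (p * s * q) * h * sg ε' (p * s * q) ∈ G0 →
      h ∈ B ∧ sg ε (p * s * q) * h * sg ε' (p * s * q) ∈ B := by
  by_cases hc : ∃ h0 ∈ G0, s * h0 * s ∈ G0
  · obtain ⟨h0, a1, a2⟩ := hc
    obtain ⟨p, hp, hpB⟩ := hB (s * h0) (by simpa using nbr_mul hinv hs G0.one_mem a1)
    refine ⟨p⁻¹, G0.inv_mem hp, h0 * p, G0.mul_mem a1 hp, ?_⟩
    set r := p⁻¹ * s * (h0 * p) with hr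
    have r2 : r * r ∈ G0 := by
      have : r * r = p⁻¹ * (s * h0 * s) * h0 * p := by rw [hr]; group
      rw [this]
      exact G0.mul_mem (G0.mul_mem (G0.mul_mem (G0.inv_mem hp) a2) a1) hp
    have k : ∀ h ∈ G0, r⁻¹ * h * r ∈ G0 → h ∈ B := by
      intro h b1 b2
      have := hpB (p * h * p⁻¹) (G0.mul_mem (G0.mul_mem hp b1) (G0.inv_mem hp)) (by
        have e : (s * h0)⁻¹ * (p * h * p⁻¹) * (s * h0) = p * (r⁻¹ * h * r) * p⁻¹ := by
          rw [hr]; group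
        rw [e]
        exact G0.mul_mem (G0.mul_mem hp b2) (G0.inv_mem hp))
      rwa [show p⁻¹ * (p * h * p⁻¹) * p = h by group] at this
    have r3 := G0.inv_mem r2
    intro ε ε' h b1 b2
    refine ⟨k h b1 ?_, k _ b2 ?_⟩ <;> cases ε <;> cases ε' <;>
      simp only [sg_true, sg_false] at b2 ⊢
    · rw [show r⁻¹ * h * r = r⁻¹ * h * r⁻¹ * (r * r) by group]; exact G0.mul_mem b2 r2
    · exact b2
    · rw [show r⁻¹ * h * r = (r * r)⁻¹ * (r * h * r⁻¹) * (r * r) by group]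
      exact G0.mul_mem (G0.mul_mem r3 b2) r2
    · rw [show r⁻¹ * h * r = (r * r)⁻¹ * (r * h * r) by group]; exact G0.mul_mem r3 b2
    · rw [show r⁻¹ * (r⁻¹ * h * r⁻¹) * r = (r * r)⁻¹ * h by group]; exact G0.mul_mem r3 b1
    · rw [show r⁻¹ * (r⁻¹ * h * r) * r = (r * r)⁻¹ * h * (r * r) by group]
      exact G0.mul_mem (G0.mul_mem r3 b1) r2
    · rw [show r⁻¹ * (r * h * r⁻¹) * r = h by group]; exact b1
    · rw [show r⁻¹ * (r * h * r) * r = h * (r * r) by group]; exact G0.mul_mem b1 r2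
  · obtain ⟨p, hp, hpB⟩ := hB s hs
    obtain ⟨q, hq, hqB⟩ := hB s⁻¹ (nbr_inv hinv hs)
    refine ⟨p⁻¹, G0.inv_mem hp, q, hq, ?_⟩
    set r := p⁻¹ * s * q with hr
    have k1 : ∀ h ∈ G0, r⁻¹ * h * r ∈ G0 → h ∈ B := by
      intro h b1 b2
      have := hpB (p * h * p⁻¹) (G0.mul_mem (G0.mul_mem hp b1) (G0.inv_mem hp)) (by
        have e : s⁻¹ * (p * h * p⁻¹) * s = q * (r⁻¹ * h * r) * q⁻¹ := by rw [hr]; group
        rw [e]
        exact G0.mul_mem (G0.mul_mem hq b2) (G0.inv_mem hq))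
      rwa [show p⁻¹ * (p * h * p⁻¹) * p = h by group] at this
    have k2 : ∀ h ∈ G0, r * h * r⁻¹ ∈ G0 → h ∈ B := by
      intro h b1 b2
      have := hqB (q * h * q⁻¹) (G0.mul_mem (G0.mul_mem hq b1) (G0.inv_mem hq)) (by
        have e : s⁻¹⁻¹ * (q * h * q⁻¹) * s⁻¹ = p * (r * h * r⁻¹) * p⁻¹ := by rw [hr]; group
        rw [e]
        exact G0.mul_mem (G0.mul_mem hp b2) (G0.inv_mem hp))
      rwa [show q⁻¹ * (q * h * q⁻¹) * q = h by group] at this
    have k3 : ∀ h ∈ G0, r * h * r ∉ G0 := by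
      intro h b1 b2
      refine hc ⟨q * h * p⁻¹, G0.mul_mem (G0.mul_mem hq b1) (G0.inv_mem hp), ?_⟩
      rw [show s * (q * h * p⁻¹) * s = p * (r * h * r) * q⁻¹ by rw [hr]; group]
      exact G0.mul_mem (G0.mul_mem hp b2) (G0.inv_mem hq)
    intro ε ε' h b1 b2
    cases ε <;> cases ε' <;> simp only [sg_true, sg_false] at b2 ⊢
    · refine absurd ?_ (k3 h⁻¹ (G0.inv_mem b1))
      rw [show r * h⁻¹ * r = (r⁻¹ * h * r⁻¹)⁻¹ by group]; exact G0.inv_mem b2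
    · exact ⟨k1 h b1 b2, k2 _ b2 (by rw [show r * (r⁻¹ * h * r) * r⁻¹ = h by group]; exact b1)⟩
    · exact ⟨k2 h b1 b2, k1 _ b2 (by rw [show r⁻¹ * (r * h * r⁻¹) * r = h by group]; exact b1)⟩
    · exact absurd b2 (k3 h b1)

end tree

theorem rd_of_tree {G : Type} [Group G] (h : TreeCond G) : Nonempty (RD G) := by
  classical
  obtain ⟨hc, G0, T, B, hcf, hT, hinv, hBf, hB⟩ := h
  let S : Set G := {s | T.Adj ((1 : G) : G ⧸ G0) (s : G ⧸ G0)}
  let rel : G → G → Prop := fun s s' => ∃ ε, ∃ p ∈ G0, ∃ q ∈ G0, s' = p * sg ε s * q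
  have rel_refl : ∀ s, rel s s := fun s => ⟨true, 1, G0.one_mem, 1, G0.one_mem, by simp⟩
  have rel_symm : ∀ {s s'}, rel s s' → rel s' s := by
    rintro s _ ⟨ε, p, hp, q, hq, rfl⟩
    cases ε
    · exact ⟨false, q, hq, p, hp, by simp only [sg_false]; group⟩
    · exact ⟨true, p⁻¹, G0.inv_mem hp, q⁻¹, G0.inv_mem hq, by simp only [sg_true]; group⟩
  have rel_trans : ∀ {s s' s''}, rel s s' → rel s' s'' → rel s s'' := by
    rintro s _ _ ⟨ε, p, hp, q, hq, rfl⟩ ⟨ε', p', hp', q', hq', rfl⟩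
    cases ε'
    · exact ⟨!ε, p' * q⁻¹, G0.mul_mem hp' (G0.inv_mem hq), p⁻¹ * q', G0.mul_mem (G0.inv_mem hp) hq',
        by rw [← sg_inv]; simp only [sg_false]; group⟩
    · exact ⟨ε, p' * p, G0.mul_mem hp' hp, q * q', G0.mul_mem hq hq', by
        simp only [sg_true]; group⟩
  let sd : Setoid S := ⟨fun s s' => rel s.1 s'.1, fun s => rel_refl s.1, rel_symm, rel_trans⟩
  let J := Quotient sd
  have hrep : ∀ j : J, ∃ r : S, Quotient.mk sd r = j ∧ ∀ ε ε', ∀ h ∈ G0,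
      sg ε r.1 * h * sg ε' r.1 ∈ G0 → h ∈ B ∧ sg ε r.1 * h * sg ε' r.1 ∈ B := by
    intro j
    obtain ⟨s, rfl⟩ := Quotient.exists_rep j
    obtain ⟨p, hp, q, hq, hg⟩ := good_rep hinv hB s.2
    refine ⟨⟨p * s * q, nbr_mul hinv s.2 hp hq⟩, ?_, hg⟩
    exact (Quotient.sound (s := sd) ⟨true, p, hp, q, hq, rfl⟩).symm
  choose ρ hρ1 hρ2 using hrep
  have : Finite B := hBf.to_subtype
  obtain ⟨τ, hτ, inf, e, e1, e2, e3⟩ := enum_types (J := J) (Θ := Set (Bool × Bool × B × B))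
    (fun j => {x | sg x.1 (ρ j).1 * x.2.2.1.1 * sg x.2.1 (ρ j).1 = x.2.2.2.1})
  have sgS : ∀ (s : G) ε, s ∈ S → sg ε s ∈ S := by
    intro s ε hs
    cases ε
    exacts [nbr_inv hinv hs, hs]
  refine ⟨⟨G0, hcf, τ, hτ, inf, fun t n => (ρ (e t n)).1, B ∩ G0, hBf.inter_of_left _,
    fun b hb => hb.2, S, ?_, fun t n ε => sgS _ ε (ρ _).2, nbr_exc hinv hT.isAcyclic, ?_, ?_, ?_⟩⟩
  · intro s hs h0
    refine (show T.Adj _ _ from hs).ne ?_
    rw [QuotientGroup.eq]; simpa using h0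
  · intro P h0 h1
    refine nbr_gen hinv hT.connected P h0 ?_
    intro s hs
    obtain ⟨t, n, a, b⟩ := e1 (Quotient.mk sd ⟨s, hs⟩)
    obtain ⟨ε, p, hp, q, hq, hh⟩ := Quotient.exact (s := sd) ((hρ1 (e t n)).trans b)
    rw [show s = _ from hh]
    exact P.mul_mem (P.mul_mem (h0 p hp) (h1 t n ε a)) (h0 q hq)
  · intro t n ε t' n' ε' h a b c d
    have k : e t n = e t' n' := by
      rw [← hρ1 (e t n), ← hρ1 (e t' n')]
      refine Quotient.sound (s := sd) (rel_trans (s' := sg ε' (ρ (e t' n')).1)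
        ⟨!ε, h⁻¹, G0.inv_mem c, _, d, by rw [← sg_inv]; group⟩
        (rel_symm ⟨ε', 1, G0.one_mem, 1, G0.one_mem, by simp⟩))
    obtain ⟨rfl, rfl⟩ := e2 t n t' n' a b k
    obtain ⟨f1, f2⟩ := hρ2 _ ε ε' h c d
    exact ⟨rfl, rfl, ⟨f1, c⟩, ⟨f2, d⟩⟩
  · intro t n ε ε' h f _ b c
    exact Set.ext_iff.1 (e3 t n) (ε, ε', ⟨h, b.1⟩, ⟨f, c.1⟩)

theorem tri_set {G : Type} [Group G] (G0 : Subgroup G) (hcf : HasCFWP G0) (B1 : Set G)
    (h1 : B1.Finite) (h2 : ∀ b ∈ B1, b ∈ G0) : ∃ B2 : Set G, B2.Finite ∧ B1 ⊆ B2 ∧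
      (∀ b ∈ B2, b ∈ G0) ∧ ∀ (α : Type) (val : α → G) (l : List α), (∀ x ∈ l, val x ∈ B1) →
      2 ≤ l.length → (l.map val).prod ∈ B2 → ∃ l1 l2, l = l1 ++ l2 ∧ l1 ≠ [] ∧ l2 ≠ [] ∧
        (l1.map val).prod ∈ B2 ∧ (l2.map val).prod ∈ B2 := by
  classical
  obtain ⟨μ⟩ := st_TM G0 G0 (MulHom.id G0) hcf ⟨fun _ _ h => h, fun x _ _ _ _ _ => ⟨x, rfl⟩⟩
  have h3 : (G0.subtype ⁻¹' B1).Finite := h1.preimage G0.subtype_injective.injOn
  obtain ⟨K, hK⟩ := (h3.image μ.n).bddAbove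
  refine ⟨G0.subtype '' {g | μ.n g ≤ 3 * K + 3 * μ.δ}, (μ.proper _).image _, ?_, ?_, ?_⟩
  · intro b hb
    refine ⟨⟨b, h2 b hb⟩, ?_, rfl⟩
    have := hK ⟨⟨b, h2 b hb⟩, hb, rfl⟩
    show μ.n _ ≤ _
    omega
  · rintro _ ⟨g, -, rfl⟩
    exact g.2
  · intro α val l a b c
    let val' : α → G0 := fun x => if h : val x ∈ G0 then ⟨val x, h⟩ else 1
    have hv : ∀ l' : List α, (∀ x ∈ l', x ∈ l) → G0.subtype (l'.map val').prod = (l'.map val).prod := by
      intro l' hl'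
      rw [map_list_prod, List.map_map]
      congr 1
      refine List.map_congr_left fun x hx => ?_
      simp [val', h2 _ (a x (hl' x hx))]
    obtain ⟨g, hg, hg'⟩ := c
    have : g = (l.map val').prod := G0.subtype_injective (by rw [hg', hv l fun _ h => h])
    subst this
    obtain ⟨l1, l2, rfl, n1, n2, d1, d2⟩ := tri_list μ K val' l (fun x hx => hK ⟨val' x, by
      simpa [val', h2 _ (a x hx)] using a x hx, rfl⟩) b hg
    exact ⟨l1, l2, rfl, n1, n2, ⟨_, d1, hv l1 fun x hx => List.mem_append_left _ hx⟩,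
      ⟨_, d2, hv l2 fun x hx => List.mem_append_right _ hx⟩⟩

end Pool.Agent.Lib.MP_435286_al
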